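import Pool.Agent.Helper1.RK.StA

/-!
# Project RK (MP_de00bc_nt), module BAD: every coordinate has a bad point
-/

set_option autoImplicit false

namespace Pool.Agent.Helper47.RK

open Pool.Agent.Helper1.RK Polynomial

section basic

variable {L : Type} [Field L] {p : L}

theorem r_add (h2 : StREG) {g k : RatFunc L} (hg : Reg p g) (hk : Reg p k) : Reg p (g + k) :=
  ((h2 L p).2.2.2.2.2.2.1 g k hg hk).1

theorem r_mul (h2 : StREG) {g k : RatFunc L} (hg : Reg p g) (hk : Reg p k) : Reg p (g * k) :=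
  ((h2 L p).2.2.2.2.2.2.1 g k hg hk).2.2.1

theorem r_sub (h2 : StREG) {g k : RatFunc L} (hg : Reg p g) (hk : Reg p k) : Reg p (g - k) :=
  ((h2 L p).2.2.2.2.2.2.1 g k hg hk).2.2.2.2.1

theorem e_mul (h2 : StREG) {g k : RatFunc L} (hg : Reg p g) (hk : Reg p k) : ev p (g * k) = ev p g * ev p k :=
  ((h2 L p).2.2.2.2.2.2.1 g k hg hk).2.2.2.1

theorem e_add (h2 : StREG) {g k : RatFunc L} (hg : Reg p g) (hk : Reg p k) : ev p (g + k) = ev p g + ev p k :=
  ((h2 L p).2.2.2.2.2.2.1 g k hg hk).2.1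

theorem e_sub (h2 : StREG) {g k : RatFunc L} (hg : Reg p g) (hk : Reg p k) : ev p (g - k) = ev p g - ev p k :=
  ((h2 L p).2.2.2.2.2.2.1 g k hg hk).2.2.2.2.2

theorem r_C (h2 : StREG) (a : L) : Reg p (RatFunc.C a) := ((h2 L p).2.2.2.2.1 a).1

theorem e_C (h2 : StREG) (a : L) : ev p (RatFunc.C a) = a := ((h2 L p).2.2.2.2.1 a).2

theorem r_one (h2 : StREG) : Reg p (1 : RatFunc L) := by
  have h := r_C (p := p) h2 (1 : L)
  rwa [map_one] at h

theorem r_iff (h2 : StREG) (g : RatFunc L) : Reg p g ↔ (g = 0 ∨ 0 ≤ ord p g) := (h2 L p).2.1 g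

theorem r_of_ord (h2 : StREG) {g : RatFunc L} (h : 0 ≤ ord p g) : Reg p g := (r_iff h2 g).2 (Or.inr h)

theorem r_not (h2 : StREG) (g : RatFunc L) : ¬ Reg p g ↔ (g ≠ 0 ∧ ord p g < 0) := (h2 L p).2.2.1 g

theorem e_zero_iff (h2 : StREG) {g : RatFunc L} (h : Reg p g) : ev p g = 0 ↔ (g = 0 ∨ 1 ≤ ord p g) :=
  (h2 L p).2.2.2.1 g h

theorem ord_ev_ne (h2 : StREG) {g : RatFunc L} (h : Reg p g) (hne : ev p g ≠ 0) : g ≠ 0 ∧ ord p g = 0 := by
  have h1 : ¬ (g = 0 ∨ 1 ≤ ord p g) := fun h3 => hne ((e_zero_iff h2 h).2 h3)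
  rw [not_or] at h1
  refine ⟨h1.1, ?_⟩
  have h3 := (r_iff h2 g).1 h
  rcases h3 with h3 | h3
  · exact absurd h3 h1.1
  · omega

theorem o_mul (h1 : StORD) {g k : RatFunc L} (hg : g ≠ 0) (hk : k ≠ 0) : ord p (g * k) = ord p g + ord p k :=
  (h1 L p).2.1 g k hg hk

theorem o_inv (h1 : StORD) (g : RatFunc L) : ord p g⁻¹ = - ord p g := (h1 L p).2.2.1 g

theorem o_pow (h1 : StORD) (g : RatFunc L) (n : ℕ) : ord p (g ^ n) = n * ord p g := (h1 L p).2.2.2.2.1 g n

theorem o_C (h1 : StORD) (a : L) : ord p (RatFunc.C a) = 0 := (h1 L p).2.2.2.2.2.2.2.1 a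

theorem o_X (h1 : StORD) : ord p (RatFunc.X - RatFunc.C p) = 1 := (h1 L p).2.2.2.2.2.2.2.2.1

theorem o_zpow (h1 : StORD) (g : RatFunc L) (n : ℤ) : ord p (g ^ n) = n * ord p g := by
  rcases n with n | n
  · rw [Int.ofNat_eq_natCast, zpow_natCast, o_pow h1]
  · rw [zpow_negSucc, o_inv h1, o_pow h1]
    push_cast [Int.negSucc_eq]
    ring

theorem X_ne (p : L) : (RatFunc.X - RatFunc.C p : RatFunc L) ≠ 0 := by
  intro h
  have h1 : (algebraMap (Polynomial L) (RatFunc L)) (Polynomial.X - Polynomial.C p) = 0 := by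
    rw [map_sub, RatFunc.algebraMap_X, RatFunc.algebraMap_C]
    exact h
  exact Polynomial.X_sub_C_ne_zero p ((map_eq_zero_iff _ (RatFunc.algebraMap_injective L)).1 h1)

/-- a function which vanishes at `p` is divisible by `X - p` -/
theorem r_div (h1 : StORD) (h2 : StREG) {g : RatFunc L} (h : Reg p g) (h0 : ev p g = 0) :
    Reg p (g * (RatFunc.X - RatFunc.C p)⁻¹) := by
  rcases (e_zero_iff h2 h).1 h0 with h3 | h3
  · rw [h3, zero_mul]
    exact (r_iff h2 _).2 (Or.inl rfl)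
  · by_cases hg : g = 0
    · rw [hg, zero_mul]
      exact (r_iff h2 _).2 (Or.inl rfl)
    · apply r_of_ord h2
      rw [o_mul h1 hg (inv_ne_zero (X_ne p)), o_inv h1, o_X h1]
      omega

end basic

section loc

variable {L : Type} [Field L] [CharZero L] {p : L}

omit [CharZero L] in
theorem over_X {Dt : Derivation ℤ (RatFunc L) (RatFunc L)} (hDt : Over 0 1 Dt) (q : L) :
    Dt (RatFunc.X - RatFunc.C q) = 1 := by
  rw [map_sub, hDt.1, hDt.2]
  simp

theorem r_Dt (h2 : StREG) (h5 : StLCD) {Dt : Derivation ℤ (RatFunc L) (RatFunc L)} (hDt : Over 0 1 Dt)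
    {g : RatFunc L} (hg : Reg p g) : Reg p (Dt g) :=
  (((h5 L p Dt hDt).1 0 1 Dt hDt (r_one h2)).1 g hg).1

/-- the logarithmic derivative has a simple pole with the residue `ord p g` -/
theorem logd (h1 : StORD) (h2 : StREG) (h5 : StLCD) {Dt : Derivation ℤ (RatFunc L) (RatFunc L)}
    (hDt : Over 0 1 Dt) (g : RatFunc L) (hg : g ≠ 0) :
    Reg p (Dt g / g - RatFunc.C ((ord p g : ℤ) : L) * (RatFunc.X - RatFunc.C p)⁻¹) := by
  obtain ⟨n, hn⟩ : ∃ n : ℤ, n = ord p g := ⟨_, rfl⟩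
  obtain ⟨v, hv⟩ : ∃ v : RatFunc L, v = RatFunc.X - RatFunc.C p := ⟨_, rfl⟩
  have hv0 : v ≠ 0 := by rw [hv]; exact X_ne p
  have hvn : v ^ n ≠ 0 := zpow_ne_zero n hv0
  have hov : ord p (v ^ n) = n := by
    rw [o_zpow h1, hv, o_X h1, mul_one]
  obtain ⟨k, hk⟩ : ∃ k : RatFunc L, k = g * (v ^ n)⁻¹ := ⟨_, rfl⟩
  have hk0 : k ≠ 0 := by rw [hk]; exact mul_ne_zero hg (inv_ne_zero hvn)
  have hok : ord p k = 0 := by
    rw [hk, o_mul h1 hg (inv_ne_zero hvn), o_inv h1, hov, ← hn]; ring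
  have hgk : g = v ^ n * k := by rw [hk]; field_simp
  have hkr : Reg p k := r_of_ord h2 (by rw [hok])
  have hkr' : Reg p k⁻¹ := r_of_ord h2 (by rw [o_inv h1, hok]; simp)
  have hDv : Dt v = 1 := by rw [hv]; exact over_X hDt p
  have h3 : Dt g / g - RatFunc.C ((n : ℤ) : L) * v⁻¹ = Dt k * k⁻¹ := by
    rw [hgk, Derivation.leibniz, Derivation.leibniz_zpow, hDv]
    have h4 : RatFunc.C ((n : ℤ) : L) = ((n : ℤ) : RatFunc L) := by simp
    rw [h4]
    simp only [smul_eq_mul, zsmul_eq_mul, mul_one]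
    have h5 : v ^ (n - 1) = v ^ n * v⁻¹ := zpow_sub_one₀ hv0 n
    rw [h5]
    field_simp
    ring
  rw [← hv, ← hn, h3]
  exact r_mul h2 (r_Dt h2 h5 hDt hkr) hkr'

theorem van (h5 : StLCD) {d : Derivation ℤ L L} {E Dt : Derivation ℤ (RatFunc L) (RatFunc L)}
    {V : RatFunc L} (hE : Over d V E) (hDt : Over 0 1 Dt) (hV : Reg p V) {W : RatFunc L} (hW : W ≠ 0)
    (hW1 : 1 ≤ ord p W) (htan : Odd (ord p W) → ev p V = d p) : E W = 0 ∨ 1 ≤ ord p (E W) := by
  by_cases h0 : E W = 0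
  · exact Or.inl h0
  · right
    obtain ⟨-, hE2, hE3⟩ := (h5 L p Dt hDt).1 d V E hE hV
    by_cases h6 : ord p W = 1
    · have h7 := hE3 (htan (by rw [h6]; exact odd_one)) W hW h0
      omega
    · have h7 := hE2 W hW h0
      omega

/-- the case of a value `0` or `1` -/
theorem local_c (h1 : StORD) (h2 : StREG) (h5 : StLCD) {d : Derivation ℤ L L}
    {E Dt : Derivation ℤ (RatFunc L) (RatFunc L)} {V : RatFunc L} (hE : Over d V E) (hDt : Over 0 1 Dt)
    (hV : Reg p V) {U f g : RatFunc L} (c : L) (hc : d c = 0) (hr : Reg p U) (he : ev p U = c)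
    (hUc : U - RatFunc.C c ≠ 0) (hf : f = (U - RatFunc.C c) * g) (hg : g ≠ 0) (hgo : ord p g = 0)
    (htan : Odd (ord p f) → ev p V = d p) : Reg p (E U * Dt U / f) := by
  have hW1 : 1 ≤ ord p (U - RatFunc.C c) := by
    have h3 : ev p (U - RatFunc.C c) = 0 := by
      rw [e_sub h2 hr (r_C h2 c), e_C h2, he, sub_self]
    rcases (e_zero_iff h2 (r_sub h2 hr (r_C h2 c))).1 h3 with h4 | h4
    · exact absurd h4 hUc
    · exact h4
  have hof : ord p f = ord p (U - RatFunc.C c) := by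
    rw [hf, o_mul h1 hUc hg, hgo, add_zero]
  have hf0 : f ≠ 0 := by rw [hf]; exact mul_ne_zero hUc hg
  have hEU : E U = E (U - RatFunc.C c) := by
    rw [map_sub, hE.1, hc, map_zero, sub_zero]
  have hDU : Dt U = Dt (U - RatFunc.C c) := by
    rw [map_sub, hDt.1]; simp
  rcases van h5 hE hDt hV hUc hW1 (by rw [← hof]; exact htan) with h3 | h3
  · rw [hEU, h3, zero_mul, zero_div]
    exact (r_iff h2 _).2 (Or.inl rfl)
  · by_cases h0 : E (U - RatFunc.C c) = 0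
    · rw [hEU, h0, zero_mul, zero_div]
      exact (r_iff h2 _).2 (Or.inl rfl)
    obtain ⟨h6, h7⟩ := (h5 L p Dt hDt).2.1 (U - RatFunc.C c) hUc (by omega)
    apply r_of_ord h2
    rw [hEU, hDU, div_eq_mul_inv, o_mul h1 (mul_ne_zero h0 h6) (inv_ne_zero hf0), o_mul h1 h0 h6, h7, o_inv h1, hof]
    omega

/-- the local claim: the residue of `F` -/
theorem local_claim (h1 : StORD) (h2 : StREG) (h5 : StLCD) {d : Derivation ℤ L L}
    {E Dt : Derivation ℤ (RatFunc L) (RatFunc L)} {V : RatFunc L} (hE : Over d V E) (hDt : Over 0 1 Dt)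
    (hV : Reg p V) {l : L} (hl : d l ≠ 0) {U : RatFunc L} (hU : ¬ Cst U)
    (htan : Odd (ord p (leg l U)) → ev p V = d p) (m : ℤ) (hm : m = max 0 (ord p (U - RatFunc.C l))) :
    Reg p (E U * Dt U / leg l U - RatFunc.C (d l / (l * (l - 1)) * (m : L)) * (RatFunc.X - RatFunc.C p)⁻¹) := by
  have hl0 : l ≠ 0 := by rintro rfl; exact hl (map_zero d)
  have hl1 : l ≠ 1 := by
    rintro rfl
    exact hl (Derivation.map_one_eq_zero d)
  have hne : ∀ c : L, U - RatFunc.C c ≠ 0 := fun c h => hU ⟨c, sub_eq_zero.1 h⟩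
  have hU0 : U ≠ 0 := by
    have h := hne 0
    rwa [map_zero, sub_zero] at h
  have hU1 : U - 1 ≠ 0 := by
    have h := hne 1
    rwa [map_one] at h
  have hf0 : leg l U ≠ 0 := mul_ne_zero (mul_ne_zero hU0 hU1) (hne l)
  by_cases hr : Reg p U
  · obtain ⟨e, he⟩ : ∃ e : L, e = ev p U := ⟨_, rfl⟩
    have hrc : ∀ c : L, Reg p (U - RatFunc.C c) := fun c => r_sub h2 hr (r_C h2 c)
    have hec : ∀ c : L, ev p (U - RatFunc.C c) = e - c := fun c => by
      rw [e_sub h2 hr (r_C h2 c), e_C h2, he]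
    have hoc : ∀ c : L, e ≠ c → ord p (U - RatFunc.C c) = 0 := fun c hc =>
      (ord_ev_ne h2 (hrc c) (by rw [hec]; exact sub_ne_zero.2 hc)).2
    have hic : ∀ c : L, e ≠ c → Reg p (U - RatFunc.C c)⁻¹ ∧ ev p (U - RatFunc.C c)⁻¹ = (e - c)⁻¹ := fun c hc => by
      have h := (h2 L p).2.2.2.2.2.2.2.2 (U - RatFunc.C c) (hrc c) (by rw [hec]; exact sub_ne_zero.2 hc)
      rwa [hec] at h
    have ho0 : e ≠ 0 → ord p U = 0 := fun h => by
      have h3 := hoc 0 h
      rwa [map_zero, sub_zero] at h3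
    have ho1 : e ≠ 1 → ord p (U - 1) = 0 := fun h => by
      have h3 := hoc 1 h
      rwa [map_one] at h3
    have hi0 : e ≠ 0 → Reg p U⁻¹ ∧ ev p U⁻¹ = e⁻¹ := fun h => by
      have h3 := hic 0 h
      rwa [map_zero, sub_zero, sub_zero] at h3
    have hi1 : e ≠ 1 → Reg p (U - 1)⁻¹ ∧ ev p (U - 1)⁻¹ = (e - 1)⁻¹ := fun h => by
      have h3 := hic 1 h
      rwa [map_one] at h3
    by_cases hel : e = l
    · have hW1 : 1 ≤ ord p (U - RatFunc.C l) := by
        rcases (e_zero_iff h2 (hrc l)).1 (by rw [hec, hel, sub_self]) with h4 | h4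
        · exact absurd h4 (hne l)
        · exact h4
      have he0 : e ≠ 0 := by rw [hel]; exact hl0
      have he1 : e ≠ 1 := by rw [hel]; exact hl1
      have hof : ord p (leg l U) = ord p (U - RatFunc.C l) := by
        unfold leg
        rw [o_mul h1 (mul_ne_zero hU0 hU1) (hne l), o_mul h1 hU0 hU1, ho0 he0, ho1 he1]
        ring
      have hv := van h5 hE hDt hV (hne l) hW1 (by rw [← hof]; exact htan)
      have hEWr : Reg p (E (U - RatFunc.C l)) := (((h5 L p Dt hDt).1 d V E hE hV).1 _ (hrc l)).1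
      have hEW : ev p (E (U - RatFunc.C l)) = 0 := (e_zero_iff h2 hEWr).2 hv
      have hEU : E U = E (U - RatFunc.C l) + RatFunc.C (d l) := by
        rw [map_sub, hE.1]; ring
      have hEUr : Reg p (E U) := by rw [hEU]; exact r_add h2 hEWr (r_C h2 _)
      have hEUe : ev p (E U) = d l := by
        rw [hEU, e_add h2 hEWr (r_C h2 _), hEW, e_C h2, zero_add]
      obtain ⟨A, hA⟩ : ∃ A : RatFunc L, A = E U * U⁻¹ * (U - 1)⁻¹ := ⟨_, rfl⟩
      have hAr : Reg p A := by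
        rw [hA]
        exact r_mul h2 (r_mul h2 hEUr (hi0 he0).1) (hi1 he1).1
      have hAe : ev p A = d l / (l * (l - 1)) := by
        rw [hA, e_mul h2 (r_mul h2 hEUr (hi0 he0).1) (hi1 he1).1, e_mul h2 hEUr (hi0 he0).1, hEUe, (hi0 he0).2,
          (hi1 he1).2, hel]
        have := sub_ne_zero.2 hl1
        field_simp
      obtain ⟨κ, hκ⟩ : ∃ κ : L, κ = d l / (l * (l - 1)) := ⟨_, rfl⟩
      have hm' : m = ord p (U - RatFunc.C l) := by rw [hm]; exact max_eq_right (by omega)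
      have hlog := logd (p := p) h1 h2 h5 hDt (U - RatFunc.C l) (hne l)
      have hDU : Dt U = Dt (U - RatFunc.C l) := by
        rw [map_sub, hDt.1]; simp
      have hAκ : Reg p ((A - RatFunc.C κ) * (RatFunc.X - RatFunc.C p)⁻¹) := by
        apply r_div h1 h2 (r_sub h2 hAr (r_C h2 _))
        rw [e_sub h2 hAr (r_C h2 _), e_C h2, hAe, hκ, sub_self]
      have key : E U * Dt U / leg l U - RatFunc.C (κ * (m : L)) * (RatFunc.X - RatFunc.C p)⁻¹ =
          A * (Dt (U - RatFunc.C l) / (U - RatFunc.C l) -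
            RatFunc.C ((ord p (U - RatFunc.C l) : ℤ) : L) * (RatFunc.X - RatFunc.C p)⁻¹) +
          RatFunc.C (m : L) * ((A - RatFunc.C κ) * (RatFunc.X - RatFunc.C p)⁻¹) := by
        have h3 : E U * Dt U / leg l U = A * (Dt (U - RatFunc.C l) / (U - RatFunc.C l)) := by
          rw [hA, ← hDU]
          unfold leg
          have := hne l
          field_simp
        rw [h3, ← hm', map_mul]
        ring
      rw [← hκ, key]
      exact r_add h2 (r_mul h2 hAr hlog) (r_mul h2 (r_C h2 _) hAκ)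
    · have hm' : m = 0 := by rw [hm, hoc l hel]; simp
      rw [hm', Int.cast_zero, mul_zero, map_zero, zero_mul, sub_zero]
      by_cases he0 : e = 0
      · refine local_c h1 h2 h5 hE hDt hV (g := (U - 1) * (U - RatFunc.C l)) 0 (map_zero d) hr (by rw [← he, he0])
          (hne 0) ?_ (mul_ne_zero hU1 (hne l)) ?_ htan
        · unfold leg
          rw [map_zero]; ring
        · rw [o_mul h1 hU1 (hne l), ho1 (by rw [he0]; exact zero_ne_one), hoc l hel, add_zero]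
      · by_cases he1 : e = 1
        · refine local_c h1 h2 h5 hE hDt hV (g := U * (U - RatFunc.C l)) 1 (Derivation.map_one_eq_zero d) hr
            (by rw [← he, he1]) (hne 1) ?_ (mul_ne_zero hU0 (hne l)) ?_ htan
          · unfold leg
            rw [map_one]; ring
          · rw [o_mul h1 hU0 (hne l), ho0 he0, hoc l hel, add_zero]
        · have h3 : E U * Dt U / leg l U = E U * Dt U * (U⁻¹ * (U - 1)⁻¹ * (U - RatFunc.C l)⁻¹) := by
            unfold leg
            rw [div_eq_mul_inv, mul_inv, mul_inv]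
          rw [h3]
          exact r_mul h2 (r_mul h2 (((h5 L p Dt hDt).1 d V E hE hV).1 _ hr).1 (r_Dt h2 h5 hDt hr))
            (r_mul h2 (r_mul h2 (hi0 he0).1 (hi1 he1).1) (hic l hel).1)
  · obtain ⟨-, hlt⟩ := (r_not h2 U).1 hr
    have hoc : ∀ c : L, ord p (U - RatFunc.C c) = ord p U := by
      intro c
      by_cases hc : c = 0
      · rw [hc, map_zero, sub_zero]
      · have h3 := (h1 L p).2.2.2.2.2.2.1 U (RatFunc.C (-c)) hU0
          ((map_ne_zero (RatFunc.C : L →+* RatFunc L)).2 (neg_ne_zero.2 hc)) (by rw [o_C h1]; exact hlt)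
        rw [← h3.2, map_neg, sub_eq_add_neg]
    have ho1 : ord p (U - 1) = ord p U := by
      have h := hoc 1
      rwa [map_one] at h
    have hof : ord p (leg l U) = 3 * ord p U := by
      unfold leg
      rw [o_mul h1 (mul_ne_zero hU0 hU1) (hne l), o_mul h1 hU0 hU1, ho1, hoc l]
      ring
    have hm' : m = 0 := by rw [hm, hoc l]; exact max_eq_left (by omega)
    rw [hm', Int.cast_zero, mul_zero, map_zero, zero_mul, sub_zero]
    by_cases h0 : E U = 0
    · rw [h0, zero_mul, zero_div]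
      exact (r_iff h2 _).2 (Or.inl rfl)
    · obtain ⟨h6, h7⟩ := (h5 L p Dt hDt).2.1 U hU0 (by omega)
      obtain ⟨-, hE2, hE3⟩ := (h5 L p Dt hDt).1 d V E hE hV
      apply r_of_ord h2
      rw [div_eq_mul_inv, o_mul h1 (mul_ne_zero h0 h6) (inv_ne_zero hf0), o_mul h1 h0 h6, h7, o_inv h1, hof]
      by_cases hb : ord p U = -1
      · have h8 := hE3 (htan (by rw [hof, hb]; decide)) U hU0 h0
        omega
      · have h8 := hE2 U hU0 h0
        omega

end loc

section inf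

variable {L : Type} [Field L]

theorem io_C (ι : RatFunc L ≃ₐ[L] RatFunc L) (a : L) : ι (RatFunc.C a) = RatFunc.C a := by
  have h := ι.commutes a
  rwa [RatFunc.algebraMap_eq_C] at h

/-- a polynomial which is regular at infinity is constant -/
theorem poly_inf (h1 : StORD) (h2 : StREG) (h7 : StIOT) (ι : RatFunc L ≃ₐ[L] RatFunc L)
    (hι : ι RatFunc.X = RatFunc.X⁻¹) (P : L[X]) (hP : Reg 0 (ι (algebraMap L[X] (RatFunc L) P))) :
    P = Polynomial.C (ev 0 (ι (algebraMap L[X] (RatFunc L) P))) := by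
  obtain ⟨a, ha⟩ : ∃ a : L, a = ev 0 (ι (algebraMap L[X] (RatFunc L) P)) := ⟨_, rfl⟩
  rw [← ha]
  have h3 : ι (algebraMap L[X] (RatFunc L) (P - Polynomial.C a)) =
      ι (algebraMap L[X] (RatFunc L) P) - RatFunc.C a := by
    rw [map_sub, map_sub, RatFunc.algebraMap_C, io_C]
  have h4 : Reg 0 (ι (algebraMap L[X] (RatFunc L) (P - Polynomial.C a)) * (RatFunc.X - RatFunc.C 0)⁻¹) := by
    apply r_div h1 h2
    · rw [h3]; exact r_sub h2 hP (r_C h2 _)
    · rw [h3, e_sub h2 hP (r_C h2 _), e_C h2, ← ha, sub_self]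
  rw [map_zero, sub_zero] at h4
  have h5 := ((h7 L).2.1 ι hι).2.1 ((P - Polynomial.C a) ^ 2) (by
    rw [map_pow, map_pow, ← mul_pow, mul_comm, sq]
    exact r_mul h2 h4 h4)
  have h6 := pow_eq_zero_iff (n := 2) (by norm_num) |>.1 h5
  exact sub_eq_zero.1 h6

theorem ord_alg (h1 : StORD) (p : L) (N : L[X]) (hN : N ≠ 0) :
    ord p (algebraMap L[X] (RatFunc L) N) = (N.rootMultiplicity p : ℤ) := by
  have h := (h1 L p).1 N 1 hN one_ne_zero
  rw [map_one, div_one] at h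
  rw [h]
  have h3 : (1 : L[X]).rootMultiplicity p = 0 := by
    apply Polynomial.rootMultiplicity_eq_zero
    rw [Polynomial.IsRoot, Polynomial.eval_one]
    exact one_ne_zero
  rw [h3]; simp

theorem max_ord (h1 : StORD) (p : L) (W : RatFunc L) (hW : W ≠ 0) :
    ord p (algebraMap L[X] (RatFunc L) W.num) = max 0 (ord p W) := by
  rw [ord_alg h1 p W.num (RatFunc.num_ne_zero hW)]
  unfold ord
  by_cases h : W.denom.eval p = 0
  · have h3 : W.num.rootMultiplicity p = 0 := by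
      apply Polynomial.rootMultiplicity_eq_zero
      intro h4
      obtain ⟨a, b, hab⟩ := RatFunc.isCoprime_num_denom W
      have h5 := congrArg (Polynomial.eval p) hab
      rw [Polynomial.eval_add, Polynomial.eval_mul, Polynomial.eval_mul, h, h4.eq_zero, mul_zero, mul_zero,
        add_zero, Polynomial.eval_one] at h5
      exact zero_ne_one h5
    rw [h3]
    rw [max_eq_left]
    · rfl
    · push_cast; omega
  · have h3 : W.denom.rootMultiplicity p = 0 := Polynomial.rootMultiplicity_eq_zero h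
    rw [h3]
    rw [max_eq_right]
    · simp
    · push_cast; omega

end inf

/-- **BAD**: every coordinate has a bad point. -/
theorem pBAD (h1 : StORD) (h2 : StREG) (h3 : StFIN) (h4 : StDER) (h5 : StLCD) (_h6 : StLD) (h7 : StIOT)
    (h8 : StTRN) : StBAD := by
  intro L _ _ _ ι hι d l U h hl hU hInf hEv
  by_contra hcon
  have hreg : ∀ τ, Reg τ h := by
    intro τ
    by_contra hr
    exact hcon ⟨τ, Or.inl hr⟩
  have htan : ∀ τ, Odd (ord τ (leg l U)) → ev τ h = d τ := by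
    intro τ ho
    by_contra hne
    exact hcon ⟨τ, Or.inr ⟨hreg τ, hne, ho⟩⟩
  obtain ⟨E, hE⟩ := (h4 L).1 d h
  obtain ⟨Dt, hDt⟩ := (h4 L).1 0 1
  have hl0 : l ≠ 0 := by rintro rfl; exact hl (map_zero d)
  have hl1 : l ≠ 1 := by
    rintro rfl
    exact hl (Derivation.map_one_eq_zero d)
  have hκ0 : d l / (l * (l - 1)) ≠ 0 := div_ne_zero hl (mul_ne_zero hl0 (sub_ne_zero.2 hl1))
  have hW0 : U - RatFunc.C l ≠ 0 := fun hh => hU ⟨l, sub_eq_zero.1 hh⟩
  obtain ⟨W, hW⟩ : ∃ W : RatFunc L, W = U - RatFunc.C l := ⟨_, rfl⟩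
  obtain ⟨N, hN⟩ : ∃ N : RatFunc L, N = algebraMap L[X] (RatFunc L) W.num := ⟨_, rfl⟩
  obtain ⟨M, hM⟩ : ∃ M : RatFunc L, M = algebraMap L[X] (RatFunc L) W.denom := ⟨_, rfl⟩
  have hWne : W ≠ 0 := by rw [hW]; exact hW0
  have hN0 : N ≠ 0 := by
    rw [hN]
    exact (map_ne_zero_iff _ (RatFunc.algebraMap_injective L)).2 (RatFunc.num_ne_zero hWne)
  have hM0 : M ≠ 0 := by
    rw [hM]
    exact (map_ne_zero_iff _ (RatFunc.algebraMap_injective L)).2 (RatFunc.denom_ne_zero W)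
  have hWNM : W = N / M := by rw [hN, hM, RatFunc.num_div_denom]
  obtain ⟨F, hF⟩ : ∃ F : RatFunc L, F = E U * Dt U / leg l U := ⟨_, rfl⟩
  obtain ⟨κ, hκ⟩ : ∃ κ : L, κ = d l / (l * (l - 1)) := ⟨_, rfl⟩
  rw [← hκ] at hκ0
  obtain ⟨Q, hQ⟩ : ∃ Q : RatFunc L, Q = F - RatFunc.C κ * (Dt N / N) := ⟨_, rfl⟩
  have hQr : ∀ p, Reg p Q := by
    intro p
    have ha := local_claim (p := p) h1 h2 h5 hE hDt (hreg p) hl hU (htan p) (ord p N)
      (by rw [hN, max_ord h1 p W hWne, hW])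
    have hb := logd (p := p) h1 h2 h5 hDt N hN0
    have hc := r_sub h2 ha (r_mul h2 (r_C (p := p) h2 κ) hb)
    have hd : E U * Dt U / leg l U - RatFunc.C (d l / (l * (l - 1)) * ((ord p N : ℤ) : L)) *
        (RatFunc.X - RatFunc.C p)⁻¹ - RatFunc.C κ * (Dt N / N - RatFunc.C ((ord p N : ℤ) : L) *
        (RatFunc.X - RatFunc.C p)⁻¹) = Q := by
      rw [hQ, hF, ← hκ, map_mul]
      ring
    rwa [hd] at hc
  obtain ⟨P, hP⟩ := (h3 L).1 Q hQr
  -- infinity
  obtain ⟨E', -, hE'⟩ := (h8 L d).2.1 ι h E hE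
  have hE'o := (h8 L d).2.2 ι hι h E E' hE hE'
  obtain ⟨D', -, hD'⟩ := (h8 L 0).2.1 ι 1 Dt hDt
  have hD'o := (h8 L 0).2.2 ι hι 1 Dt D' hDt hD'
  have hXne : (RatFunc.X : RatFunc L) ≠ 0 := RatFunc.X_ne_zero
  have hDD : D' = (-RatFunc.X ^ 2 : RatFunc L) • Dt := by
    refine (h4 L).2.1 0 (-RatFunc.X ^ 2 * ι 1) D' _ hD'o ⟨fun a => ?_, ?_⟩
    · rw [Derivation.smul_apply, hDt.1]; simp
    · rw [Derivation.smul_apply, hDt.2, map_one, smul_eq_mul]
  have hch : ∀ g, ι (Dt g) = -RatFunc.X ^ 2 * Dt (ι g) := by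
    intro g
    rw [← hD', hDD, Derivation.smul_apply, smul_eq_mul]
  have hU' : ¬ Cst (ι U) := by
    rintro ⟨a, ha⟩
    apply hU
    refine ⟨a, ι.injective ?_⟩
    rw [ha, io_C]
  have hleg : leg l (ι U) = ι (leg l U) := by
    unfold leg
    rw [map_mul, map_mul, map_sub, map_sub, map_one, io_C]
  have hV' : Reg 0 (-RatFunc.X ^ 2 * ι h) := by
    have h9 := ((h2 L 0).2.2.2.2.2.2.2.1 _ hInf).1
    rwa [← neg_mul] at h9
  obtain ⟨m, hm⟩ : ∃ m : ℤ, m = max 0 (ord 0 (ι U - RatFunc.C l)) := ⟨_, rfl⟩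
  have hloc := local_claim (p := 0) h1 h2 h5 hE'o hDt hV' hl hU'
    (fun ho => absurd hEv (Int.not_even_iff_odd.2 ho)) m hm
  obtain ⟨n, hn⟩ : ∃ n : ℤ, n = ord 0 (ι N) := ⟨_, rfl⟩
  have hιN0 : ι N ≠ 0 := (map_ne_zero_iff _ ι.injective).2 hN0
  have hιM0 : ι M ≠ 0 := (map_ne_zero_iff _ ι.injective).2 hM0
  have hlog := logd (p := 0) h1 h2 h5 hDt (ι N) hιN0
  rw [← hn] at hlog
  rw [← hκ] at hloc
  obtain ⟨R, hR⟩ : ∃ R : RatFunc L, R = (E' (ι U) * Dt (ι U) / leg l (ι U) - RatFunc.C (κ * (m : L)) *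
      (RatFunc.X - RatFunc.C 0)⁻¹) - RatFunc.C κ * (Dt (ι N) / ι N - RatFunc.C (n : L) *
      (RatFunc.X - RatFunc.C 0)⁻¹) := ⟨_, rfl⟩
  have hRr : Reg 0 R := by
    rw [hR]
    exact r_sub h2 hloc (r_mul h2 (r_C h2 _) hlog)
  have hlegne : leg l U ≠ 0 := by
    have hne : ∀ c : L, U - RatFunc.C c ≠ 0 := fun c hh => hU ⟨c, sub_eq_zero.1 hh⟩
    have hU0 : U ≠ 0 := by
      have hh := hne 0
      rwa [map_zero, sub_zero] at hh
    have hU1 : U - 1 ≠ 0 := by
      have hh := hne 1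
      rwa [map_one] at hh
    exact mul_ne_zero (mul_ne_zero hU0 hU1) (hne l)
  have hιleg : ι (leg l U) ≠ 0 := (map_ne_zero_iff _ ι.injective).2 hlegne
  have hιQ : ι Q = -(RatFunc.X ^ 2) * R - RatFunc.C (κ * ((m - n : ℤ) : L)) * RatFunc.X := by
    have e1 : ι F = -RatFunc.X ^ 2 * (E' (ι U) * Dt (ι U) / leg l (ι U)) := by
      rw [hF, map_div₀, map_mul, hE', hch, hleg]
      ring
    have e2 : ι (Dt N / N) = -RatFunc.X ^ 2 * (Dt (ι N) / ι N) := by
      rw [map_div₀, hch]; ring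
    rw [hQ, map_sub, map_mul, io_C, e1, e2, hR, map_zero, sub_zero]
    push_cast
    rw [map_mul, map_mul, map_sub]
    field_simp
    ring
  have hreg1 : Reg 0 (-(RatFunc.X * R) - RatFunc.C (κ * ((m - n : ℤ) : L))) := by
    refine r_sub h2 ?_ (r_C h2 _)
    exact ((h2 L 0).2.2.2.2.2.2.2.1 _ (r_mul h2 (h2 L 0).2.2.2.2.2.1.1 hRr)).1
  have hXQ : RatFunc.X⁻¹ * ι Q = -(RatFunc.X * R) - RatFunc.C (κ * ((m - n : ℤ) : L)) := by
    rw [hιQ]
    field_simp
  have hP0 : P ^ 2 = 0 := by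
    apply ((h7 L).2.1 ι hι).2.1 (P ^ 2)
    rw [map_pow, map_pow, ← hP, ← mul_pow, hXQ, sq]
    exact r_mul h2 hreg1 hreg1
  have hP1 : P = 0 := pow_eq_zero_iff (n := 2) (by norm_num) |>.1 hP0
  have hQ0 : Q = 0 := by rw [hP, hP1, map_zero]
  have hz : -(RatFunc.X * R) - RatFunc.C (κ * ((m - n : ℤ) : L)) = 0 := by
    rw [← hXQ, hQ0, map_zero, mul_zero]
  have hz2 : RatFunc.C (κ * ((m - n : ℤ) : L)) = -(RatFunc.X * R) := (sub_eq_zero.1 hz).symm
  have hz3 : κ * ((m - n : ℤ) : L) = 0 := by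
    have h9 := e_C (p := (0 : L)) h2 (κ * ((m - n : ℤ) : L))
    have h10 := ((h2 L 0).2.2.2.2.2.2.2.1 _ (r_mul h2 (h2 L 0).2.2.2.2.2.1.1 hRr)).2
    rw [e_mul h2 (h2 L 0).2.2.2.2.2.1.1 hRr, (h2 L 0).2.2.2.2.2.1.2, zero_mul, neg_zero] at h10
    rw [hz2, h10] at h9
    exact h9.symm
  have hz4 : m - n = 0 := by
    rcases mul_eq_zero.1 hz3 with h9 | h9
    · exact absurd h9 hκ0
    · exact_mod_cast h9
  have hm0 : 0 ≤ m := by rw [hm]; exact le_max_left _ _
  have hnum0 : W.num ≠ 0 := RatFunc.num_ne_zero hWne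
  have hn0 : n ≤ 0 := by
    by_contra hcn
    have hRN : Reg 0 (ι N) := r_of_ord h2 (by omega)
    have h9 := poly_inf h1 h2 h7 ι hι W.num (by rw [← hN]; exact hRN)
    have h10 : ev 0 (ι N) = 0 := (e_zero_iff h2 hRN).2 (Or.inr (by omega))
    rw [← hN, h10, map_zero] at h9
    exact hnum0 h9
  have hn1 : n = 0 := by omega
  have hm1 : m = 0 := by omega
  have hRN : Reg 0 (ι N) := r_of_ord h2 (by omega)
  have hNc := poly_inf h1 h2 h7 ι hι W.num (by rw [← hN]; exact hRN)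
  have hMneg : ord 0 (ι M) < 0 := by
    by_contra hcn
    have hRM : Reg 0 (ι M) := r_of_ord h2 (by omega)
    have hMc := poly_inf h1 h2 h7 ι hι W.denom (by rw [← hM]; exact hRM)
    apply hU
    rw [← hN] at hNc
    rw [← hM] at hMc
    have h9 : U = RatFunc.C (ev 0 (ι N) / ev 0 (ι M)) + RatFunc.C l := by
      have h10 : W = RatFunc.C (ev 0 (ι N) / ev 0 (ι M)) := by
        rw [hWNM, map_div₀]
        congr 1
        · rw [← RatFunc.algebraMap_C, ← hNc]; exact hN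
        · rw [← RatFunc.algebraMap_C, ← hMc]; exact hM
      rw [← h10, hW]; ring
    exact ⟨ev 0 (ι N) / ev 0 (ι M) + l, by rw [map_add]; exact h9⟩
  have h9 : ord 0 (ι W) = - ord 0 (ι M) := by
    rw [hWNM, map_div₀, div_eq_mul_inv, o_mul h1 hιN0 (inv_ne_zero hιM0), o_inv h1, ← hn, hn1, zero_add]
  have h10 : ι W = ι U - RatFunc.C l := by
    rw [hW, map_sub, io_C]
  rw [hm1, ← h10, h9] at hm
  have h11 : - ord 0 (ι M) ≤ max 0 (- ord 0 (ι M)) := le_max_right _ _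
  omega

end Pool.Agent.Helper47.RK
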