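import Pool.Agent.Helper1.RK.StC

/-!
# Project RK (MP_de00bc_nt), module G3: three generic cubics
-/

set_option autoImplicit false

namespace Pool.Agent.Helper47.RK

open Pool.Agent.Helper1.RK Polynomial

section

variable {L : Type} [Field L]

theorem g3_C (φ : RatFunc L →ₐ[L] RatFunc L) (a : L) : φ (RatFunc.C a) = RatFunc.C a := by
  have h := φ.commutes a
  rwa [RatFunc.algebraMap_eq_C] at h

theorem g3_wei (φ : RatFunc L →ₐ[L] RatFunc L) (a b : L) (g : RatFunc L) : φ (wei a b g) = wei a b (φ g) := by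
  unfold wei
  rw [map_add, map_add, map_mul, map_pow, g3_C, g3_C]

theorem g3_disc [CharZero L] (d : Derivation ℤ L L) (a b : L) (ha : d a = 1) (hb : d b = 0) (hb0 : b ≠ 0) :
    4 * a ^ 3 + 27 * b ^ 2 ≠ 0 := by
  intro h
  have h1 : d (4 * a ^ 3 + 27 * b ^ 2) = 12 * a ^ 2 := by
    have e1 : (4 : L) * a ^ 3 = (4 : ℕ) • (a ^ 3) := by simp
    have e2 : (27 : L) * b ^ 2 = (27 : ℕ) • (b ^ 2) := by simp
    rw [e1, e2, map_add, map_nsmul, map_nsmul, Derivation.leibniz_pow, Derivation.leibniz_pow, ha, hb]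
    simp
    ring
  rw [h, map_zero] at h1
  have h2 : a = 0 := by
    have h3 : (12 : L) ≠ 0 := by norm_num
    have h4 := (mul_eq_zero.1 h1.symm).resolve_left h3
    exact pow_eq_zero_iff (n := 2) (by norm_num) |>.1 h4
  rw [h2] at h
  have h5 : (27 : L) * b ^ 2 = 0 := by linear_combination h
  have h6 : (27 : L) ≠ 0 := by norm_num
  exact hb0 (pow_eq_zero_iff (n := 2) (by norm_num) |>.1 ((mul_eq_zero.1 h5).resolve_left h6))

theorem g3_sq [IsAlgClosed L] {A B A' B' : RatFunc L} {c : L} (hc : c ≠ 0) (h : A * B = RatFunc.C c * (A' * B'))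
    (hs : IsSquare (A * B)) : IsSquare (A' * B') := by
  obtain ⟨r, hr⟩ := hs
  obtain ⟨s, hs⟩ := IsAlgClosed.exists_pow_nat_eq c (n := 2) (by norm_num)
  have hs0 : s ≠ 0 := by
    rintro rfl
    exact hc (by rw [← hs]; simp)
  have hCs : (RatFunc.C s : RatFunc L) ≠ 0 := (map_ne_zero (RatFunc.C : L →+* RatFunc L)).2 hs0
  refine ⟨r / RatFunc.C s, ?_⟩
  have h1 : RatFunc.C c = (RatFunc.C s : RatFunc L) ^ 2 := by rw [← map_pow, hs]
  rw [h1] at h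
  rw [hr] at h
  field_simp
  linear_combination -h

/-- the order does not see constant factors -/
theorem g3_ord (h1 : StORD) (p : L) {c : L} (hc : c ≠ 0) (g : RatFunc L) : ord p (RatFunc.C c * g) = ord p g := by
  by_cases hg : g = 0
  · rw [hg, mul_zero]
  · have hC : (RatFunc.C c : RatFunc L) ≠ 0 := (map_ne_zero (RatFunc.C : L →+* RatFunc L)).2 hc
    rw [(h1 L p).2.1 _ _ hC hg, (h1 L p).2.2.2.2.2.2.2.1 c, zero_add]

theorem g3_trans {f0 f1 f2 : RatFunc L} (h0 : f0 ≠ 0) (h1 : IsSquare (f0 * f1)) (h2 : IsSquare (f0 * f2)) :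
    IsSquare (f1 * f2) := by
  obtain ⟨r, hr⟩ := h1
  obtain ⟨s, hs⟩ := h2
  refine ⟨r * s / f0, ?_⟩
  field_simp
  linear_combination (f0 * f2) * hr + r * r * hs

end

/-- **G3**: three generic cubics. -/
theorem pG3 (h1 : StORD) (_h2 : StREG) (h3 : StDER) (h4 : StIOT) (h5 : StTRN) (h6 : StDGM) (h7 : StVK)
    (h8 : StCCC) (h9 : StSIG) (h10 : StGA1) (h11 : StGA2) (h12 : StLEG) (h13 : StHLF) (h14 : StDSC) :
    StG3 := by
  intro L _ _ _ dl a b H u hcomm ha ha0 hb hb0 hnc hsq hH hHe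
  obtain ⟨n, hn⟩ : ∃ n, dg (u 0) = n := ⟨_, rfl⟩
  induction n using Nat.strong_induction_on generalizing u with
  | _ n ih =>
  have disc : ∀ k, 4 * a k ^ 3 + 27 * b k ^ 2 ≠ 0 := fun k => g3_disc (dl k) (a k) (b k) (ha k) (hb k k) (hb0 k)
  choose e0 e1 e2 he01 he02 he12 hw1 hw2 hw3 hw4 using fun k => h12 L (a k) (b k) (hb0 k) (disc k)
  have ht : ∀ k, e1 k - e0 k ≠ 0 := fun k => sub_ne_zero.2 (he01 k).symm
  have hCt : ∀ k, (RatFunc.C (e1 k - e0 k) : RatFunc L) ≠ 0 := fun k =>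
    (map_ne_zero (RatFunc.C : L →+* RatFunc L)).2 (ht k)
  obtain ⟨lam, hlam⟩ : ∃ lam : Fin 3 → L, lam = fun k => (e2 k - e0 k) / (e1 k - e0 k) := ⟨_, rfl⟩
  obtain ⟨z, hz⟩ : ∃ z : Fin 3 → RatFunc L, z = fun k => (u k - RatFunc.C (e0 k)) / RatFunc.C (e1 k - e0 k) :=
    ⟨_, rfl⟩
  have hzk : ∀ k, z k = (u k - RatFunc.C (e0 k)) / RatFunc.C (e1 k - e0 k) := fun k => by rw [hz]
  have huz : ∀ k, u k = z k * RatFunc.C (e1 k - e0 k) + RatFunc.C (e0 k) := by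
    intro k
    rw [hzk k]
    have := hCt k
    field_simp
    ring
  have hleg : ∀ k, wei (a k) (b k) (u k) = RatFunc.C ((e1 k - e0 k) ^ 3) * leg (lam k) (z k) := by
    intro k
    rw [hw2 k (u k), hzk k, hlam]
  have hznc : ∀ i, ¬ Cst (z i) := by
    rintro i ⟨c, hc⟩
    apply hnc i
    refine ⟨c * (e1 i - e0 i) + e0 i, ?_⟩
    rw [huz i, hc, map_add, map_mul]
  have hdlam : ∀ k, dl k (lam k) ≠ 0 := by
    intro k
    rw [hlam]
    exact hw4 k (dl k) (ha k) (hb k k)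
  have hkill : ∀ k l, k ≠ l → dl k (e0 l) = 0 ∧ dl k (e1 l) = 0 ∧ dl k (e2 l) = 0 ∧
      dl k ((e2 l - e0 l) / (e1 l - e0 l)) = 0 := fun k l hkl => hw3 l (dl k) (ha0 k l hkl) (hb k l)
  have hdlam0 : ∀ k l, k ≠ l → dl k (lam l) = 0 := by
    intro k l hkl
    rw [hlam]
    exact (hkill k l hkl).2.2.2
  have hzsq : ∀ i j, IsSquare (leg (lam i) (z i) * leg (lam j) (z j)) := by
    intro i j
    refine g3_sq (c := (e1 i - e0 i) ^ 3 * (e1 j - e0 j) ^ 3) (mul_ne_zero (pow_ne_zero _ (ht i)) (pow_ne_zero _ (ht j)))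
      ?_ (hsq i j)
    rw [hleg i, hleg j, map_mul]
    ring
  obtain ⟨D, hD⟩ := h7 L 3 dl lam z le_rfl hcomm hdlam hdlam0 hznc hzsq
  have hDu : ∀ l k, l ≠ k → D l (u k) = 0 := by
    intro l k hlk
    obtain ⟨ha1, ha2, -, -⟩ := hkill l k hlk
    rw [huz k, map_add, Derivation.leibniz, hD.kill l k (Ne.symm hlk), hD.lift, hD.lift, map_sub, ha1, ha2]
    simp
  obtain ⟨φ, hφ1, hφ2, hφ3⟩ := h8 L dl lam z D hD
  have hover : ∀ l, Over (dl l) (D l RatFunc.X) (D l) := fun l => ⟨fun x => hD.lift l x, rfl⟩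
  obtain ⟨Dt, hDt⟩ := (h3 L).1 0 1
  -- automorphisms
  have hSφ : ∀ σ ∈ H, ∀ S, Ext σ S → ∀ g, S (φ g) = φ (S g) := by
    intro σ hσ S hS
    obtain ⟨hσ1, hσ2, hσ3, hσ4⟩ := hH σ hσ
    have hSu := hσ4 S hS
    obtain ⟨-, -, hsig⟩ := h9 L
    obtain ⟨hs1, hs2, hs3, hs4, hs5, hs6⟩ := hsig σ S hS
    have hSV : ∀ l, S (D l RatFunc.X) = D l RatFunc.X := by
      intro l
      obtain ⟨i, hi⟩ : ∃ i : Fin 3, i ≠ l := exists_ne l
      obtain ⟨Dc, hDc⟩ := (h3 L).1 (dl l) 0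
      have hf := (h3 L).2.2.1 (dl l) (D l RatFunc.X) (D l) Dc Dt (hover l) hDc hDt
      have e1 : Dc (u i) + D l RatFunc.X * Dt (u i) = 0 := by
        rw [← hf (u i)]
        exact hDu l i (Ne.symm hi)
      have e2 := congrArg S e1
      rw [map_add, map_mul, map_zero, ← hs5 (dl l) 0 Dc (fun x => hσ1 l x) hDc (map_zero S),
        ← hs5 0 1 Dt (fun x => by simp) hDt (map_one S), hSu i] at e2
      have e3 : Dt (u i) ≠ 0 := fun h => hnc i (((h3 L).2.2.2 Dt hDt (u i)).1 h)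
      have e4 : (S (D l RatFunc.X) - D l RatFunc.X) * Dt (u i) = 0 := by
        linear_combination e2 - e1
      exact sub_eq_zero.1 ((mul_eq_zero.1 e4).resolve_right e3)
    have hSD : ∀ l g, D l (S g) = S (D l g) := fun l =>
      hs5 (dl l) (D l RatFunc.X) (D l) (fun x => hσ1 l x) (hover l) (hSV l)
    have hSz : S (z 1) = z 1 := by
      have k0 := hkill 0 1 (by decide)
      have k2 := hkill 2 1 (by decide)
      have f0 : σ (e0 1) = e0 1 := hσ2 _ k0.1 k2.1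
      have f1 : σ (e1 1) = e1 1 := hσ2 _ k0.2.1 k2.2.1
      rw [hzk 1, map_div₀, map_sub, hSu 1, hS.2, hS.2, map_sub, f0, f1]
    have hSX : S (φ RatFunc.X) = φ RatFunc.X :=
      h10 L dl lam z D φ σ S 1 hD hφ1 (hφ2 1) (hφ3 1) hS hSD
        (fun x hx => hσ2 x (hx 0 (by decide)) (hx 2 (by decide))) hSz
    exact hs4 φ φ hSX.symm
  -- the function W
  have hz0K : z 0 ∈ KK D 0 := fun l hl => hD.kill l 0 (Ne.symm hl)
  obtain ⟨U, hU⟩ := (hφ2 0).top (z 0) hz0K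
  obtain ⟨W, hW⟩ : ∃ W : RatFunc L, W = U * RatFunc.C (e1 0 - e0 0) + RatFunc.C (e0 0) := ⟨_, rfl⟩
  have hφW : φ W = u 0 := by
    rw [hW, map_add, map_mul, g3_C, g3_C, hU, ← huz 0]
  have hWnc : ¬ Cst W := by
    intro hc
    apply hnc 0
    rw [← hφW]
    exact (((h4 L).2.2.2.2.2 φ).2 W).2 hc
  have hSW : ∀ σ ∈ H, ∀ S, Ext σ S → S W = W := by
    intro σ hσ S hS
    apply φ.toRingHom.injective
    change φ (S W) = φ W
    rw [← hSφ σ hσ S hS, hφW, (hH σ hσ).2.2.2 S hS 0]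
  have hEW : ∀ l, l ≠ 0 → ∀ E, Over (dl l) 0 E → E W = 0 := by
    intro l hl E hE
    have h := (h5 L (dl l)).1 φ (D l RatFunc.X) 0 (D l) E (hover l) hE (by rw [hφ1, map_zero]) W
    rw [hφW, hDu l 0 hl] at h
    have h' : φ (E W) = φ 0 := by rw [← h, map_zero]
    exact φ.toRingHom.injective h'
  have hwW : wei (a 0) (b 0) W = RatFunc.C ((e1 0 - e0 0) ^ 3) * leg (lam 0) U := by
    rw [hw2 0 W, hlam]
    congr 2
    rw [hW]
    have := hCt 0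
    field_simp
    ring
  obtain ⟨τ, hτ0, hτ1, hτ2⟩ := hφ3 0 U hU
  have hordW : ∀ p, ord p (wei (a 0) (b 0) W) = ord p (leg (lam 0) U) := fun p => by
    rw [hwW, g3_ord h1 p (pow_ne_zero _ (ht 0))]
  have hUni : Uni (dl 0) (wei (a 0) (b 0) W) τ := by
    refine ⟨hτ0, by rw [hordW]; exact hτ1, fun τ' h0 h0' => hτ2 τ' h0 ?_⟩
    rwa [hordW] at h0'
  have hσb : ∀ σ ∈ H, σ (b 0) = b 0 := fun σ hσ => (hH σ hσ).2.1 _ (hb 0 0) (hb 2 0)
  obtain ⟨hGA, hGB⟩ := h11 L dl (a 0) (b 0) τ W H (disc 0) (fun l hl => ⟨ha0 l 0 hl, hb l 0⟩) hEW hUni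
    (fun σ hσ => ⟨(hH σ hσ).1, fun x hx => (hH σ hσ).2.1 x (hx 0) (hx 2), (hH σ hσ).2.2.1, hσb σ hσ,
      hSW σ hσ⟩) hHe
  obtain ⟨Y, hY1, hY2, hY3⟩ := h13 L (a 0) (b 0) τ W (hb0 0) (disc 0) hWnc hGB (hGB τ hUni.2.1)
  have hSY : ∀ σ ∈ H, ∀ S, Ext σ S → S Y = Y := by
    intro σ hσ S hS
    obtain ⟨-, -, hsig⟩ := h9 L
    obtain ⟨hs1, -⟩ := hsig σ S hS
    apply hY3
    · have h := (hs1 τ Y).1
      rw [hGA σ hσ] at h
      exact fun hr => hY1 (h.1 hr)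
    · have h := congrArg S hY2
      unfold Dbl
      unfold wei at h ⊢
      simp only [map_add, map_sub, map_mul, map_pow, map_ofNat, hS.2, (hH σ hσ).2.2.1, hσb σ hσ, hSW σ hσ S hS] at h
      exact h
  obtain ⟨hYnc, hYsq, hYdg⟩ := h14 L (a 0) (b 0) W Y (disc 0) hWnc hY2
  have hφYnc : ¬ Cst (φ Y) := fun hc => hYnc ((((h4 L).2.2.2.2.2 φ).2 Y).1 hc)
  have hw0 : wei (a 0) (b 0) (u 0) ≠ 0 := by
    rw [hw1 0 (u 0)]
    have hne : ∀ c : L, u 0 - RatFunc.C c ≠ 0 := fun c hh => hnc 0 ⟨c, sub_eq_zero.1 hh⟩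
    exact mul_ne_zero (mul_ne_zero (hne _) (hne _)) (hne _)
  have hYsq' : IsSquare (wei (a 0) (b 0) (u 0) * wei (a 0) (b 0) (φ Y)) := by
    rw [← hφW, ← g3_wei, ← g3_wei, ← map_mul]
    exact hYsq.map φ
  obtain ⟨u', hu'⟩ : ∃ u' : Fin 3 → RatFunc L, u' = Function.update u 0 (φ Y) := ⟨_, rfl⟩
  have hu'0 : u' 0 = φ Y := by rw [hu']; simp
  have hu'i : ∀ i, i ≠ 0 → u' i = u i := fun i hi => by rw [hu', Function.update_of_ne hi]
  have hpair : ∀ i, IsSquare (wei (a 0) (b 0) (u 0) * wei (a i) (b i) (u' i)) := by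
    intro i
    by_cases hi : i = 0
    · subst hi
      rw [hu'0]
      exact hYsq'
    · rw [hu'i i hi]
      exact hsq 0 i
  have hdg1 : dg (u 0) = 4 * dg Y * dg (φ RatFunc.X) := by
    rw [← hφW, (h6 L).2.1 φ W, hYdg]
  have hdg2 : dg (φ Y) = dg Y * dg (φ RatFunc.X) := (h6 L).2.1 φ Y
  have hdg3 : dg (u 0) ≠ 0 := fun h => hnc 0 (((h6 L).1 (u 0)).1 h)
  have hlt : dg (u' 0) < n := by
    rw [hu'0, hdg2, ← hn, hdg1]
    rw [hdg1] at hdg3
    have h : 0 < dg Y * dg (φ RatFunc.X) := by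
      rcases Nat.eq_zero_or_pos (dg Y * dg (φ RatFunc.X)) with h0 | h0
      · exfalso
        apply hdg3
        rw [mul_assoc, h0, mul_zero]
      · exact h0
    rw [mul_assoc]
    omega
  refine ih (dg (u' 0)) hlt u' ?_ ?_ ?_ rfl
  · intro i
    by_cases hi : i = 0
    · subst hi
      rw [hu'0]; exact hφYnc
    · rw [hu'i i hi]; exact hnc i
  · intro i j
    exact g3_trans hw0 (hpair i) (hpair j)
  · intro σ hσ
    refine ⟨(hH σ hσ).1, (hH σ hσ).2.1, (hH σ hσ).2.2.1, fun S hS i => ?_⟩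
    by_cases hi : i = 0
    · subst hi
      rw [hu'0, hSφ σ hσ S hS, hSY σ hσ S hS]
    · rw [hu'i i hi]
      exact (hH σ hσ).2.2.2 S hS i

end Pool.Agent.Helper47.RK
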