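import Pool.Agent.Helper1.RK.StC

/-!
# Project RK (MP_de00bc_nt), module GA2: points of odd order are poles
-/

set_option autoImplicit false

namespace Pool.Agent.Helper47.RK

open Pool.Agent.Helper1.RK Polynomial

/-- **GA2**: points of odd order are poles. -/
theorem pGA2 (h1 : StORD) (h2 : StREG) (h3 : StDER) (h4 : StPL) (h5 : StSIG) : StGA2 := by
  intro L _ _ _ dl a b τ W H disc hab hEW hUni hH hHe
  have hSg : ∀ σ ∈ H, ∀ S, Ext σ S → S (wei a b W) = wei a b W := by
    intro σ hσ S hS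
    obtain ⟨-, -, ha, hb, hSW⟩ := hH σ hσ
    unfold wei
    rw [map_add, map_add, map_mul, map_pow, hSW S hS, hS.2, hS.2, ha, hb]
  have hord : ∀ σ ∈ H, ∀ p, ord (σ p) (wei a b W) = ord p (wei a b W) := by
    intro σ hσ p
    obtain ⟨S, hS⟩ := (h5 L).1 σ
    have h := (((h5 L).2.2 σ S hS).1 p (wei a b W)).2.2
    rwa [hSg σ hσ S hS] at h
  have hA : ∀ σ ∈ H, σ τ = τ := by
    intro σ hσ
    apply hUni.2.2
    · rw [(hH σ hσ).1 0 τ]
      exact (map_ne_zero_iff σ σ.injective).2 hUni.1
    · rw [hord σ hσ]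
      exact hUni.2.1
  refine ⟨hA, fun p hp hr => ?_⟩
  obtain ⟨w, hw⟩ : ∃ w : L, w = ev p W := ⟨_, rfl⟩
  have hg : ∀ c : L, wei a b W ≠ RatFunc.C c := by
    intro c hc
    rw [hc, (h1 L p).2.2.2.2.2.2.2.1 c] at hp
    exact absurd hp (by decide)
  have hWnc : ¬ Cst W := by
    rintro ⟨c, hc⟩
    apply hg (c ^ 3 + a * c + b)
    rw [hc]
    unfold wei
    rw [map_add, map_add, map_mul, map_pow]
  have rC : ∀ c : L, Reg p (RatFunc.C c) ∧ ev p (RatFunc.C c) = c := (h2 L p).2.2.2.2.1
  have rAM := (h2 L p).2.2.2.2.2.2.1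
  have r2 := rAM W W hr hr
  have r3 := rAM (W * W) W r2.2.2.1 hr
  have r4 := rAM (RatFunc.C a) W (rC a).1 hr
  have r5 := rAM (W * W * W) (RatFunc.C a * W) r3.2.2.1 r4.2.2.1
  have r6 := rAM (W * W * W + RatFunc.C a * W) (RatFunc.C b) r5.1 (rC b).1
  have hge : wei a b W = W * W * W + RatFunc.C a * W + RatFunc.C b := by
    unfold wei; ring
  have hgr : Reg p (wei a b W) := by rw [hge]; exact r6.1
  have hgv : ev p (wei a b W) = w ^ 3 + a * w + b := by
    rw [hge, r6.2.1, r5.2.1, r3.2.2.2.1, r2.2.2.2.1, r4.2.2.2.1, (rC a).2, (rC b).2, ← hw]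
    ring
  have hcub : w ^ 3 + a * w + b = 0 := by
    rw [← hgv]
    refine ((h2 L p).2.2.2.1 _ hgr).2 (Or.inr ?_)
    rcases ((h2 L p).2.1 _).1 hgr with h | h
    · exact absurd h (by have := hg 0; rwa [map_zero] at this)
    · rcases hp with ⟨k, hk⟩
      omega
  obtain ⟨σ, hσ, hne⟩ := hHe w hcub
  have hfix : σ p = p := by
    by_cases h0 : dl 0 p = 0
    · apply (hH σ hσ).2.1
      intro l
      by_cases hl : l = 0
      · rw [hl]; exact h0
      · obtain ⟨E, hE⟩ := (h3 L).1 (dl l) 0
        obtain ⟨Dt, hDt⟩ := (h3 L).1 0 1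
        have hdw : dl l w = 0 := by
          have h6 := congrArg (dl l) hcub
          rw [map_add, map_add, Derivation.leibniz, Derivation.leibniz_pow, (hab l hl).1, (hab l hl).2,
            map_zero] at h6
          simp only [smul_eq_mul, mul_zero, add_zero, nsmul_eq_mul] at h6
          have h7 : (3 * w ^ 2 + a) * dl l w = 0 := by
            push_cast at h6
            linear_combination h6
          have h8 : 3 * w ^ 2 + a ≠ 0 := by
            intro h9
            apply disc
            have h10 : a = -(3 * w ^ 2) := by linear_combination h9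
            have h11 : b = 2 * w ^ 3 := by
              rw [h10] at hcub
              linear_combination hcub
            rw [h10, h11]; ring
          exact (mul_eq_zero.1 h7).resolve_left h8
        have h12 := ((h4 L p (dl l) 0 E Dt W hE hDt (hEW l hl E hE) hWnc).1 (Or.inr (by rw [← hw]; exact hdw))).2
        have h13 := (rC 0).2
        rw [map_zero] at h13
        rw [← h12, h13]
    · rw [hUni.2.2 p h0 hp]
      exact hA σ hσ
  obtain ⟨S, hS⟩ := (h5 L).1 σ
  have h14 := (((h5 L).2.2 σ S hS).1 p W).2.1 hr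
  rw [hfix, (hH σ hσ).2.2.2.2 S hS, ← hw] at h14
  exact hne h14.symm

end Pool.Agent.Helper47.RK
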