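import Pool.Agent.Helper1.RK.StD
import Pool.Agent.Helper47.RK.M_G3

/-!
# Project RK (MP_de00bc_nt), module T3: generic cubics, `r ≥ 3`
-/

set_option autoImplicit false

namespace Pool.Agent.Helper47.RK

open Pool.Agent.Helper1.RK Polynomial

theorem t3_map {k L : Type} [Field k] [Field L] [Algebra k L] {Λ : RatFunc k →+* RatFunc L}
    (hΛ : ∀ a, Λ (RatFunc.C a) = RatFunc.C (algebraMap k L a)) (a b : k) (g : RatFunc k) :
    Λ (wei a b g) = wei (algebraMap k L a) (algebraMap k L b) (Λ g) := by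
  unfold wei
  rw [map_add, map_add, map_mul, map_pow, hΛ, hΛ]

/-- conjugation of a derivation by an automorphism -/
theorem t3_conj {L : Type} [Field L] (σ : L ≃+* L) (d : Derivation ℤ L L) :
    ∃ d' : Derivation ℤ L L, ∀ x, d' x = σ.symm (d (σ x)) := by
  let T : L →ₗ[ℤ] L := (σ.symm.toAddMonoidHom.comp (d.toLinearMap.toAddMonoidHom.comp σ.toAddMonoidHom)).toIntLinearMap
  have hT : ∀ x, T x = σ.symm (d (σ x)) := fun x => rfl
  refine ⟨Derivation.mk' T ?_, fun x => hT x⟩
  intro x y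
  rw [hT, hT, hT, map_mul, Derivation.leibniz, map_add, smul_eq_mul, smul_eq_mul, map_mul, map_mul,
    RingEquiv.symm_apply_apply, RingEquiv.symm_apply_apply, smul_eq_mul, smul_eq_mul]

theorem t3_mk {K : Type} [Field K] (f : K → K) (h1 : ∀ x y, f (x + y) = f x + f y)
    (h2 : ∀ x y, f (x * y) = x * f y + y * f x) : ∃ d : Derivation ℤ K K, ∀ x, d x = f x := by
  have h0 : f 0 = 0 := by
    have h := h1 0 0
    rw [add_zero] at h
    exact left_eq_add.1 h
  let g : K →+ K := { toFun := f, map_zero' := h0, map_add' := h1 }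
  refine ⟨Derivation.mk' g.toIntLinearMap ?_, fun x => rfl⟩
  intro x y
  exact h2 x y

theorem t3_std {K I : Type} [Field K] (f : I → K → K) (h1 : ∀ i x y, f i (x + y) = f i x + f i y)
    (h2 : ∀ i x y, f i (x * y) = x * f i y + y * f i x) : ∃ d : I → Derivation ℤ K K, ∀ i x, d i x = f i x := by
  choose d hd using fun i => t3_mk (f i) (h1 i) (h2 i)
  exact ⟨d, hd⟩

/-- **T3**: generic cubics have no parametric good tuple for `r ≥ 3`. -/
theorem pT3 (_h1 : StDER) (h2 : StDXT) (h3 : StPDR) (h4 : StCNW) (h5 : StLAM) (h6 : StMOV) (h7 : StG3)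
    (_h8 : StSIG) : StT3 := by
  intro F _ _ r b hr hb u hg hsq i₀
  by_contra hi₀
  have hinj1 : Function.Injective (algebraMap (MvPolynomial (Fin r) F) (Kf F r)) := IsFractionRing.injective _ _
  have hch : CharZero (Kf F r) := by
    have hinj : Function.Injective ((algebraMap (MvPolynomial (Fin r) F) (Kf F r)).comp MvPolynomial.C) :=
      RingHom.injective _
    exact charZero_of_injective_ringHom hinj
  obtain ⟨L, hLf, hLc, hLa, hLalg, hLi⟩ : ∃ (L : Type) (_ : Field L) (_ : CharZero L) (_ : Algebra (Kf F r) L)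
      (_ : Algebra.IsAlgebraic (Kf F r) L), IsAlgClosed L :=
    ⟨AlgebraicClosure (Kf F r), inferInstance, inferInstance, inferInstance, inferInstance, inferInstance⟩
  have hinj2 : Function.Injective (algebraMap (Kf F r) L) := (algebraMap (Kf F r) L).injective
  obtain ⟨Λ, hΛX, hΛC, hΛcst, hΛS⟩ := h5 (Kf F r) L
  have hΛinj : Function.Injective Λ := Λ.injective
  obtain ⟨dd, hdd1, hdd2, hdd3, hdd4⟩ := h3 F (Fin r)
  obtain ⟨d, hd⟩ := t3_std (K := Kf F r) (fun i x => dd i x) (fun i x y => map_add (dd i) x y)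
      (fun i x y => (dd i).leibniz x y)
  have hd1 : ∀ i j x, d i (d j x) = d j (d i x) := by
    intro i j x
    rw [hd, hd, hd, hd]
    exact hdd1 i j x
  have hd2 : ∀ i, d i (algebraMap (MvPolynomial (Fin r) F) (Kf F r) (MvPolynomial.X i)) = 1 := by
    intro i
    rw [hd]
    exact hdd2 i
  have hd3 : ∀ i j, i ≠ j → d i (algebraMap (MvPolynomial (Fin r) F) (Kf F r) (MvPolynomial.X j)) = 0 := by
    intro i j hij
    rw [hd]
    exact hdd3 i j hij
  have hd4 : ∀ i c, d i (algebraMap (MvPolynomial (Fin r) F) (Kf F r) (MvPolynomial.C c)) = 0 := by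
    intro i c
    rw [hd]
    exact hdd4 i c
  choose dL hdL using fun i => (h2 (Kf F r) L hLalg).1 (d i)
  have huniq := (h2 (Kf F r) L hLalg).2
  obtain ⟨A, hA⟩ : ∃ A : Fin r → L, ∀ i, A i = algebraMap (Kf F r) L
    (algebraMap (MvPolynomial (Fin r) F) (Kf F r) (MvPolynomial.X i)) := ⟨_, fun _ => rfl⟩
  obtain ⟨B, hB⟩ : ∃ B : Fin r → L, ∀ i, B i = algebraMap (Kf F r) L
    (algebraMap (MvPolynomial (Fin r) F) (Kf F r) (MvPolynomial.C (b i))) := ⟨_, fun _ => rfl⟩
  have hcomm : ∀ i j x, dL i (dL j x) = dL j (dL i x) := by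
    intro i j x
    have h := huniq ⁅dL i, dL j⁆ (fun x => by
      rw [Derivation.commutator_apply, hdL, hdL, hdL, hdL, hd1, sub_self])
    have h' := congrArg (fun D : Derivation ℤ L L => D x) h
    simp only [Derivation.commutator_apply, Derivation.coe_zero, Pi.zero_apply] at h'
    exact sub_eq_zero.1 h'
  have hdA : ∀ i, dL i (A i) = 1 := fun i => by rw [hA, hdL, hd2, map_one]
  have hdA0 : ∀ i j, i ≠ j → dL i (A j) = 0 := fun i j hij => by rw [hA, hdL, hd3 i j hij, map_zero]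
  have hdC : ∀ i c, dL i (algebraMap (Kf F r) L (algebraMap (MvPolynomial (Fin r) F) (Kf F r)
      (MvPolynomial.C c))) = 0 := fun i c => by rw [hdL, hd4, map_zero]
  have hdB : ∀ i j, dL i (B j) = 0 := fun i j => by rw [hB, hdC]
  have hB0 : ∀ i, B i ≠ 0 := by
    intro i h
    rw [hB, map_eq_zero, map_eq_zero_iff _ hinj1, MvPolynomial.C_eq_zero] at h
    exact hb i h
  have disc : ∀ i, 4 * A i ^ 3 + 27 * B i ^ 2 ≠ 0 := fun i => g3_disc (dL i) (A i) (B i) (hdA i) (hdB i i) (hB0 i)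
  have hΛg : ∀ i g, Λ (gcu b i g) = wei (A i) (B i) (Λ g) := by
    intro i g
    unfold gcu
    rw [t3_map hΛC, hA, hB]
  have hnc : ∀ j, ¬ Cst (u j) := by
    rintro j ⟨c, hc⟩
    obtain ⟨c', hc'⟩ : ∃ c' : Kf F r, gcu b j (u j) = RatFunc.C c' := by
      refine ⟨c ^ 3 + algebraMap (MvPolynomial (Fin r) F) (Kf F r) (MvPolynomial.X j) * c +
        algebraMap (MvPolynomial (Fin r) F) (Kf F r) (MvPolynomial.C (b j)), ?_⟩
      rw [hc]
      unfold gcu wei
      rw [map_add, map_add, map_mul, map_pow]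
    have hc'0 : c' ≠ 0 := by
      rintro rfl
      exact hg j (by rw [hc', map_zero])
    obtain ⟨s, hs⟩ := IsAlgClosed.exists_pow_nat_eq (algebraMap (Kf F r) L c') (n := 2) (by norm_num)
    have hs0 : s ≠ 0 := by
      rintro rfl
      apply hc'0
      apply hinj2
      rw [← hs, map_zero]; simp
    have hCs : (RatFunc.C s : RatFunc L) ≠ 0 := (map_ne_zero (RatFunc.C : L →+* RatFunc L)).2 hs0
    have h9 : Λ (gcu b j (u j)) = (RatFunc.C s : RatFunc L) ^ 2 := by
      rw [hc', hΛC, ← hs, map_pow]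
    have h10 : IsSquare (Λ (gcu b i₀ (u i₀))) := by
      obtain ⟨t, ht⟩ := (hsq i₀ j).map Λ
      rw [map_mul, h9] at ht
      refine ⟨t / RatFunc.C s, ?_⟩
      field_simp
      linear_combination ht
    rw [hΛg] at h10
    apply hi₀
    rw [← hΛcst]
    refine h4 L (A i₀) (B i₀) (Λ (u i₀)) (hB0 i₀) (disc i₀) h10 ?_
    rw [← hΛg]
    exact (map_ne_zero_iff Λ hΛinj).2 (hg i₀)
  obtain ⟨e, he⟩ : ∃ e : Fin 3 → Fin r, Function.Injective e := ⟨Fin.castLE hr, Fin.castLE_injective hr⟩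
  have hcl : (algebraMap (Kf F r) L).fieldRange ≤ Subfield.closure ({x | dL (e 0) x = 0} ∪ {A (e 0)}) := by
    obtain ⟨M, hM⟩ : ∃ M : Subfield L, M = Subfield.closure ({x | dL (e 0) x = 0} ∪ {A (e 0)}) := ⟨_, rfl⟩
    rw [← hM]
    have hM0 : ∀ x, dL (e 0) x = 0 → x ∈ M := fun x hx => by
      rw [hM]; exact Subfield.subset_closure (Or.inl hx)
    have hMA : A (e 0) ∈ M := by
      rw [hM]; exact Subfield.subset_closure (Or.inr rfl)
    have hMp : ∀ p : MvPolynomial (Fin r) F, algebraMap (Kf F r) L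
        (algebraMap (MvPolynomial (Fin r) F) (Kf F r) p) ∈ M := by
      intro p
      induction p using MvPolynomial.induction_on with
      | C c => exact hM0 _ (hdC _ c)
      | add p q hp hq => rw [map_add, map_add]; exact M.add_mem hp hq
      | mul_X p i hp =>
        rw [map_mul, map_mul, ← hA i]
        refine M.mul_mem hp ?_
        by_cases hi : i = e 0
        · rw [hi]; exact hMA
        · exact hM0 _ (hdA0 _ _ (Ne.symm hi))
    rintro _ ⟨y, rfl⟩
    obtain ⟨p, q, -, rfl⟩ := IsFractionRing.div_surjective (A := MvPolynomial (Fin r) F) y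
    rw [map_div₀]
    exact M.div_mem (hMp p) (hMp q)
  have halg : ∀ x : L, IsAlgebraic (algebraMap (Kf F r) L).fieldRange x := by
    intro x
    obtain ⟨p, hp0, hp⟩ := hLalg.isAlgebraic x
    refine ⟨p.map (algebraMap (Kf F r) L).rangeRestrictField, ?_, ?_⟩
    · exact (Polynomial.map_ne_zero_iff (RingHom.injective _)).2 hp0
    · rw [Polynomial.aeval_def, Polynomial.eval₂_map]
      exact hp
  refine h7 L (fun k => dL (e k)) (fun k => A (e k)) (fun k => B (e k))
    {σ | (∀ x : Kf F r, σ (algebraMap (Kf F r) L x) = algebraMap (Kf F r) L x) ∧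
      ∀ x, dL (e 0) x = 0 → dL (e 2) x = 0 → σ x = x}
    (fun k => Λ (u (e k))) (fun k l x => hcomm _ _ x) (fun k => hdA _)
    (fun k l hkl => hdA0 _ _ (fun h => hkl (he h))) (fun k l => hdB _ _) (fun k => hB0 _)
    (fun i hc => hnc _ ((hΛcst _).1 hc)) ?_ ?_ ?_
  · intro i j
    have h := (hsq (e i) (e j)).map Λ
    rwa [map_mul, hΛg, hΛg] at h
  · rintro σ ⟨hσ1, hσ2⟩
    refine ⟨?_, hσ2, ?_, ?_⟩
    · intro k x
      obtain ⟨d', hd'⟩ := t3_conj σ (dL (e k))
      have h9 := huniq (d' - dL (e k)) (fun y => by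
        rw [Derivation.sub_apply, hd', hσ1, hdL]
        rw [RingEquiv.symm_apply_eq σ |>.2 (hσ1 _).symm, sub_self])
      have h10 := congrArg (fun D : Derivation ℤ L L => D x) h9
      simp only [Derivation.sub_apply, Derivation.coe_zero, Pi.zero_apply] at h10
      rw [hd'] at h10
      have h11 := sub_eq_zero.1 h10
      rw [← h11, RingEquiv.apply_symm_apply]
    · change σ (A (e 0)) = A (e 0)
      rw [hA, hσ1]
    · intro S hS i
      exact hΛS σ hσ1 S hS _
  · intro x hx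
    obtain ⟨σ, hσ1, hσ2, hσ3⟩ := h6 L (dL (e 0)) (dL (e 2)) (algebraMap (Kf F r) L).fieldRange (A (e 0)) (B (e 0)) x
      halg (by rw [hA]; exact ⟨_, rfl⟩) hcl (hdA _) (hdB _ _) (hB0 _) hx
    exact ⟨σ, ⟨fun y => hσ1 _ ⟨y, rfl⟩, hσ2⟩, hσ3⟩

end Pool.Agent.Helper47.RK
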