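import Pool.Agent.Helper1.RK.StD

/-!
# Project RK (MP_de00bc_nt), module TWO: two cubics have a parametric good pair
-/

set_option autoImplicit false

namespace Pool.Agent.Helper47.RK

open Pool.Agent.Helper1.RK Polynomial

section

variable {k : Type} [Field k]

theorem two_wei_ne (a b : k) (u : RatFunc k) (hu : ¬ Cst u) : wei a b u ≠ 0 := by
  intro h
  have ht : Transcendental k u := RatFunc.transcendental_of_ne_C u hu
  have h1 : Polynomial.aeval u ((Polynomial.X : k[X]) ^ 3 + Polynomial.C a * Polynomial.X + Polynomial.C b) = 0 := by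
    rw [map_add, map_add, map_mul, map_pow, Polynomial.aeval_X, Polynomial.aeval_C, Polynomial.aeval_C,
      RatFunc.algebraMap_eq_C]
    exact h
  have h2 : (Polynomial.X : k[X]) ^ 3 + Polynomial.C a * Polynomial.X + Polynomial.C b ≠ 0 := by
    intro h3
    have h4 := congrArg (fun p : k[X] => p.coeff 3) h3
    simp [Polynomial.coeff_X, Polynomial.coeff_C] at h4
  exact ht ⟨_, h2, h1⟩

theorem two_poly {P Q : k[X]} (h : algebraMap k[X] (RatFunc k) P = algebraMap k[X] (RatFunc k) Q) : P = Q :=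
  RatFunc.algebraMap_injective k h

end

/-- **TWO**: two cubics have a parametric good pair. -/
theorem pTWO (h1 : StCNW) (h2 : StLAM) : StTWO := by
  intro k _ _ a b ha hb hdisc
  obtain ⟨Λ, hΛX, hΛC, hΛcst, -⟩ := h2 k (AlgebraicClosure k)
  have hΛw : ∀ (a b : k) g, Λ (wei a b g) = wei (algebraMap k (AlgebraicClosure k) a)
      (algebraMap k (AlgebraicClosure k) b) (Λ g) := by
    intro a b g
    unfold wei
    rw [map_add, map_add, map_mul, map_pow, hΛC, hΛC]
  have hX : (RatFunc.X : RatFunc k) ≠ 0 := RatFunc.X_ne_zero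
  have hCC : ∀ c : k, RatFunc.C c = algebraMap k[X] (RatFunc k) (Polynomial.C c) := fun c =>
    (RatFunc.algebraMap_C c).symm
  have hXX : (RatFunc.X : RatFunc k) = algebraMap k[X] (RatFunc k) Polynomial.X := RatFunc.algebraMap_X.symm
  obtain ⟨N, hN⟩ : ∃ N : RatFunc k, N = RatFunc.C (a 1) - RatFunc.C (a 0) * RatFunc.X ^ 4 := ⟨_, rfl⟩
  have hN0 : N ≠ 0 := by
    rw [hN, hCC, hCC, hXX, ← map_pow, ← map_mul, ← map_sub]
    refine (map_ne_zero_iff _ (RatFunc.algebraMap_injective k)).2 ?_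
    intro h3
    have h4 := congrArg (fun p : k[X] => p.coeff 0) h3
    simp at h4
    exact ha 1 h4
  obtain ⟨w, hw⟩ : ∃ w : RatFunc k, w = (RatFunc.C (b 0) * RatFunc.X ^ 6 - RatFunc.C (b 1)) / (RatFunc.X ^ 2 * N) :=
    ⟨_, rfl⟩
  have hwN : w * (RatFunc.X ^ 2 * N) = RatFunc.C (b 0) * RatFunc.X ^ 6 - RatFunc.C (b 1) := by
    rw [hw]; field_simp
  have hwnc : ¬ Cst w := by
    rintro ⟨c, hc⟩
    rw [hc, hN, hCC, hCC, hCC, hCC, hCC, hXX] at hwN
    simp only [← map_pow, ← map_mul, ← map_sub] at hwN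
    have h4 := congrArg (fun p : k[X] => p.coeff 0) (two_poly hwN)
    simp [Polynomial.mul_coeff_zero] at h4
    exact hb 1 h4
  have hwnc' : ¬ Cst (RatFunc.X ^ 2 * w) := by
    rintro ⟨c, hc⟩
    have h5 : (RatFunc.X ^ 2 * w) * N = RatFunc.C (b 0) * RatFunc.X ^ 6 - RatFunc.C (b 1) := by
      rw [← hwN]; ring
    rw [hc, hN, hCC, hCC, hCC, hCC, hCC, hXX] at h5
    simp only [← map_pow, ← map_mul, ← map_sub] at h5
    have h4 := congrArg (fun p : k[X] => p.coeff 6) (two_poly h5)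
    simp [Polynomial.coeff_X_pow, Polynomial.coeff_C] at h4
    exact hb 0 h4.symm
  have hrel : wei (a 1) (b 1) (RatFunc.X ^ 2 * w) = RatFunc.X ^ 6 * wei (a 0) (b 0) w := by
    unfold wei
    rw [hN] at hwN
    linear_combination hwN
  obtain ⟨u, hu⟩ : ∃ u : Fin 2 → RatFunc k, u = ![w, RatFunc.X ^ 2 * w] := ⟨_, rfl⟩
  have hu0 : u 0 = w := by rw [hu]; rfl
  have hu1 : u 1 = RatFunc.X ^ 2 * w := by rw [hu]; rfl
  have hnc : ∀ i, ¬ Cst (u i) := by
    intro i
    fin_cases i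
    · change ¬ Cst (u 0); rw [hu0]; exact hwnc
    · change ¬ Cst (u 1); rw [hu1]; exact hwnc'
  have hne : ∀ i, wei (a i) (b i) (u i) ≠ 0 := fun i => two_wei_ne _ _ _ (hnc i)
  have hg : ∀ i, ∃ s : RatFunc k, wei (a i) (b i) (u i) = s ^ 2 * wei (a 0) (b 0) (u 0) := by
    intro i
    fin_cases i
    · exact ⟨1, by simp⟩
    · refine ⟨RatFunc.X ^ 3, ?_⟩
      change wei (a 1) (b 1) (u 1) = _
      rw [hu0, hu1, hrel]; ring
  refine ⟨u, hnc, hne, ?_, ?_⟩
  · intro i j
    obtain ⟨s, hs⟩ := hg i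
    obtain ⟨t, ht⟩ := hg j
    exact ⟨s * t * wei (a 0) (b 0) (u 0), by rw [hs, ht]; ring⟩
  · intro i hsq
    have h5 := hsq.map Λ
    rw [hΛw] at h5
    apply hnc i
    rw [← hΛcst]
    refine h1 (AlgebraicClosure k) _ _ _ ?_ ?_ h5 ?_
    · exact (map_ne_zero (algebraMap k (AlgebraicClosure k))).2 (hb i)
    · have h6 := (map_ne_zero (algebraMap k (AlgebraicClosure k))).2 (hdisc i)
      rw [map_add, map_mul, map_mul, map_pow, map_pow, map_ofNat, map_ofNat] at h6
      exact h6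
    · rw [← hΛw]
      exact (map_ne_zero_iff Λ Λ.injective).2 (hne i)

end Pool.Agent.Helper47.RK
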