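import Pool.Agent.Helper1.RK.StC

/-!
# Project RK (MP_de00bc_nt), module TY3: the types for `r = 3`
-/

set_option autoImplicit false

namespace Pool.Agent.Helper47.RK

open Pool.Agent.Helper1.RK Polynomial

/-- **TY3**: the types for `r = 3`. -/
theorem pTY3 (h1 : StIOT) (h2 : StDGM) (h3 : StBAD) (h4 : StINQ) (h5 : StNRM) (h6 : StDIV) (h7 : StARI) :
    StTY3 := by
  intro L _ _ _ ι hι dl lam u D hD hNI φ U h hGC
  obtain ⟨P, hP⟩ : ∃ P : Fin 3 → Prop, P = fun k => ∃ τ, BadP (h k) τ := ⟨_, rfl⟩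
  obtain ⟨B, hB⟩ : ∃ B : Fin 3 → Prop, B = fun k => (∀ τ, Reg τ (h k)) ∧ ∃ τ1 τ2, τ1 ≠ τ2 ∧
    BadH (dl k) (lam k) (h k) (U k) τ1 ∧ BadH (dl k) (lam k) (h k) (U k) τ2 := ⟨_, rfl⟩
  obtain ⟨C, hC⟩ : ∃ C : Fin 3 → Prop, C = fun k => (∀ τ, Reg τ (h k)) ∧
    ∃ τ, BadH (dl k) (lam k) (h k) (U k) τ ∧ ∀ τ', BadH (dl k) (lam k) (h k) (U k) τ' → τ' = τ := ⟨_, rfl⟩
  have hPk : ∀ k, P k ↔ ∃ τ, BadP (h k) τ := fun k => by rw [hP]
  have hBk : ∀ k, B k ↔ ((∀ τ, Reg τ (h k)) ∧ ∃ τ1 τ2, τ1 ≠ τ2 ∧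
    BadH (dl k) (lam k) (h k) (U k) τ1 ∧ BadH (dl k) (lam k) (h k) (U k) τ2) := fun k => by rw [hB]
  have hCk : ∀ k, C k ↔ ((∀ τ, Reg τ (h k)) ∧
    ∃ τ, BadH (dl k) (lam k) (h k) (U k) τ ∧ ∀ τ', BadH (dl k) (lam k) (h k) (U k) τ' → τ' = τ) :=
    fun k => by rw [hC]
  have hUnc : ∀ k, ¬ Cst (U k) := by
    intro k hc
    apply hD.nc k
    rw [← (hGC k).hu]
    exact (((h1 L).2.2.2.2.2 (φ k)).2 (U k)).2 hc
  have hμ : ∀ k, 1 ≤ dg (φ k RatFunc.X) := by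
    intro k
    have e1 : dg (u k) = dg (U k) * dg (φ k RatFunc.X) := by
      rw [← (hGC k).hu]
      exact (h2 L).2.1 (φ k) (U k)
    have e2 : dg (u k) ≠ 0 := fun hh => hD.nc k (((h2 L).1 (u k)).1 hh)
    rcases Nat.eq_zero_or_pos (dg (φ k RatFunc.X)) with h0 | h0
    · exact absurd (by rw [e1, h0, mul_zero]) e2
    · exact h0
  have hPBC : ∀ k, P k ∨ B k ∨ C k := by
    intro k
    by_cases hp : P k
    · exact Or.inl hp
    · right
      have hr : ∀ τ, Reg τ (h k) := by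
        intro τ
        by_contra hr
        exact hp ((hPk k).2 ⟨τ, hr⟩)
      obtain ⟨τ, hτ⟩ := h3 L ι hι (dl k) (lam k) (U k) (h k) (hD.one k) (hUnc k) (hGC k).regInf (hGC k).evenInf
      have hτH : BadH (dl k) (lam k) (h k) (U k) τ := by
        rcases hτ with hτ | hτ
        · exact absurd (hr τ) hτ
        · exact hτ
      by_cases hu : ∀ τ', BadH (dl k) (lam k) (h k) (U k) τ' → τ' = τ
      · exact Or.inr ((hCk k).2 ⟨hr, τ, hτH, hu⟩)
      · left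
        push Not at hu
        obtain ⟨τ', h8, h9⟩ := hu
        exact (hBk k).2 ⟨hr, τ', τ, h9, h8, hτH⟩
  have hPB : ∀ k, P k → (∀ τ, Reg τ (h k)) → False := by
    intro k hp hr
    obtain ⟨τ, hτ⟩ := (hPk k).1 hp
    exact hτ (hr τ)
  have hBC : ∀ k, B k → C k → False := by
    intro k hb hc
    obtain ⟨-, τ1, τ2, hne, hb1, hb2⟩ := (hBk k).1 hb
    obtain ⟨-, τ, -, hu⟩ := (hCk k).1 hc
    exact hne ((hu τ1 hb1).trans (hu τ2 hb2).symm)
  have hT : ∀ k, ∃ T : Finset L, (∀ τ ∈ T, BadP (h k) τ ∨ BadH (dl k) (lam k) (h k) (U k) τ) ∧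
      (P k → ∃ τ ∈ T, BadP (h k) τ) ∧
      (B k → T.card = 2 ∧ ∀ τ ∈ T, BadH (dl k) (lam k) (h k) (U k) τ) ∧
      (C k → T.card = 1 ∧ ∀ τ ∈ T, BadH (dl k) (lam k) (h k) (U k) τ) := by
    intro k
    classical
    rcases hPBC k with hp | hb | hc
    · obtain ⟨τ, hτ⟩ := (hPk k).1 hp
      refine ⟨{τ}, ?_, ?_, ?_, ?_⟩
      · intro τ' hτ'
        rw [Finset.mem_singleton] at hτ'
        rw [hτ']
        exact Or.inl hτ
      · exact fun _ => ⟨τ, Finset.mem_singleton_self _, hτ⟩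
      · exact fun hb => (hPB k hp ((hBk k).1 hb).1).elim
      · exact fun hc => (hPB k hp ((hCk k).1 hc).1).elim
    · obtain ⟨hr, τ1, τ2, hne, hb1, hb2⟩ := (hBk k).1 hb
      have hall : ∀ τ ∈ ({τ1, τ2} : Finset L), BadH (dl k) (lam k) (h k) (U k) τ := by
        intro τ hτ
        rw [Finset.mem_insert, Finset.mem_singleton] at hτ
        rcases hτ with hτ | hτ
        · rw [hτ]; exact hb1
        · rw [hτ]; exact hb2
      refine ⟨{τ1, τ2}, fun τ hτ => Or.inr (hall τ hτ), ?_, fun _ => ⟨Finset.card_pair hne, hall⟩, ?_⟩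
      · exact fun hp => (hPB k hp hr).elim
      · exact fun hc => (hBC k hb hc).elim
    · obtain ⟨hr, τ, hτ, hu⟩ := (hCk k).1 hc
      have hall : ∀ τ' ∈ ({τ} : Finset L), BadH (dl k) (lam k) (h k) (U k) τ' := by
        intro τ' hτ'
        rw [Finset.mem_singleton] at hτ'
        rw [hτ']; exact hτ
      refine ⟨{τ}, fun τ hτ => Or.inr (hall τ hτ), ?_, ?_, fun _ => ⟨Finset.card_singleton τ, hall⟩⟩
      · exact fun hp => (hPB k hp hr).elim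
      · exact fun hb => (hBC k hb hc).elim
  choose T hT1 hT2 hT3 hT4 using hT
  obtain ⟨A, G, hA1, hA2, hA3, hA4, hA5⟩ := h4 L ι hι 3 dl lam u D le_rfl hD hNI φ U h T
    (fun k => (hGC k).gen.mem) (fun k => (hGC k).hu) (fun k => (hGC k).hh) hT1
  have hdiv : ∀ j k, C k → dg (φ j RatFunc.X) ∣ dg (φ k RatFunc.X) ∧
      (dg (φ j RatFunc.X) = dg (φ k RatFunc.X) → ∀ τ, Reg τ (h j)) := by
    intro j k hc
    obtain ⟨hr, τ, -, hu⟩ := (hCk k).1 hc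
    obtain ⟨ψ, hψ⟩ := h5 L ι hι 3 dl lam u D hD k (φ k) (U k) (h k) τ (hGC k) hr hu
    exact h6 L 3 dl lam u D hD j (φ j) (φ k) (h j) ψ (hGC j).gen (hGC j).hh hψ
  have hfin := h7 (fun k => dg (φ k RatFunc.X)) A G P B C hμ hPBC
    (fun k hp => ⟨hA4 k (hT2 k hp), hA2 k⟩)
    (fun k hb => by
      have e1 := hA3 k
      have e2 := hA5 k (hT3 k hb).2
      rw [(hT3 k hb).1] at e1 e2
      push_cast at e1 e2
      exact ⟨by linarith, by linarith⟩)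
    (fun k hc => by
      have e1 := hA3 k
      have e2 := hA5 k (hT4 k hc).2
      rw [(hT4 k hc).1] at e1 e2
      push_cast at e1 e2
      exact ⟨by linarith, by linarith⟩)
    hA1 (fun j k hc => (hdiv j k hc).1)
    (fun j k hc hp he => hPB j hp ((hdiv j k hc).2 he))
  exact fun k => (hCk k).1 (hfin k)

end Pool.Agent.Helper47.RK
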