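import Pool.Agent.Helper43.RK.StI

/-!
# Project RK (MP_b3ce06_al), module IPI: assembly of part (i)
-/

set_option autoImplicit false

namespace Pool.Agent.Helper47.RK

open Pool.Agent.Helper43.RK

theorem map_cj {G H : Type} [Group G] [Group H] (φ : G →* H) (a t : G) (i : ℤ) :
    φ (cj a t i) = cj (φ a) (φ t) i := by
  simp only [cj, map_mul, map_zpow]

theorem map_relB {G H : Type} [Group G] [Group H] (φ : G →* H) {n k β : ℕ} {g a t : G}
    (h : RelB n k β g a t) : RelB n k β (φ g) (φ a) (φ t) := by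
  refine ⟨?_, ?_, ?_⟩
  · have := congrArg φ h.r1
    simpa only [map_mul, map_inv, map_pow] using this
  · have := congrArg φ h.r2
    simpa only [map_mul, map_inv, map_pow] using this
  · have := congrArg φ h.r3
    simpa only [map_mul, map_inv, map_pow, map_cj] using this

theorem hIPI (hICM : StICM) : StIPI := by
  intro hIZ2 hIQC hITT n k β hPar G _ g a t hB hcl
  obtain ⟨h1, h2, h3⟩ := hITT n k β hPar G g a t hB
  have hk1 : 1 ≤ k := by
    have := hPar.k8
    omega
  obtain ⟨c1, c2, c3, c4⟩ := hIZ2 G g a t k (1 - 2 ^ n) hk1 hB.r1 hB.r2 h1 h2 h3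
  obtain ⟨z, hz⟩ : ∃ z : G, z = (g ^ 4) ^ (k - 1) := ⟨_, rfl⟩
  rw [← hz] at c1 c2 c3 c4 h3
  have hcen : ∀ x : G, z * x = x * z := by
    have h4 : (⊤ : Subgroup G) ≤ Subgroup.centralizer {z} := by
      rw [← hcl, Subgroup.closure_le]
      intro y hy
      rw [SetLike.mem_coe, Subgroup.mem_centralizer_iff]
      intro w hw
      rw [Set.mem_singleton_iff] at hw
      subst hw
      rcases hy with rfl | rfl | rfl
      · exact c4
      · exact c2
      · exact c3
    intro x
    have h5 := h4 (Subgroup.mem_top x)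
    rw [Subgroup.mem_centralizer_iff] at h5
    exact h5 z rfl
  have hnorm : (Subgroup.zpowers z).Normal := by
    refine ⟨fun w hw x => ?_⟩
    obtain ⟨i, rfl⟩ := hw
    have h6 : Commute x z := (hcen x).symm
    have h7 : x * z ^ i * x⁻¹ = z ^ i := by
      rw [(h6.zpow_right i).eq, mul_assoc, mul_inv_cancel, mul_one]
    show x * z ^ i * x⁻¹ ∈ Subgroup.zpowers z
    rw [h7]
    exact Subgroup.zpow_mem_zpowers z i
  have hfo : IsOfFinOrder z := by
    rw [isOfFinOrder_iff_pow_eq_one]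
    exact ⟨2, by norm_num, by rw [pow_two]; exact c1⟩
  refine ⟨Subgroup.zpowers z, hnorm, ?_, ?_⟩
  · exact Set.Finite.to_subtype (finite_zpowers.2 hfo)
  · obtain ⟨φ, hφ⟩ : ∃ φ : G →* G ⧸ Subgroup.zpowers z,
        φ = QuotientGroup.mk' (Subgroup.zpowers z) := ⟨_, rfl⟩
    have hz1 : φ z = 1 := by
      rw [hφ]
      exact (QuotientGroup.eq_one_iff z).2 (Subgroup.mem_zpowers z)
    have hB' := map_relB φ hB
    have e1 : (φ g ^ 4) ^ (k - 1) = 1 := by
      rw [← map_pow, ← map_pow, ← hz, hz1]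
    have e2 : φ t ^ (2 ^ (k - 1) - 1) = 1 := by
      rw [← map_pow, h2, map_one]
    have e3 : φ t ^ (-(1 - 2 ^ n : ℤ)) * φ a * φ t ^ (1 - 2 ^ n : ℤ)
        = φ a * ((φ t)⁻¹ * φ a * φ t) := by
      have := congrArg φ h3
      simpa only [map_mul, map_inv, map_zpow, hz1, inv_one, mul_one] using this
    have h8 := hIQC hICM n k β hPar (G ⧸ Subgroup.zpowers z) (φ g) (φ a) (φ t) hB' e1 e2 e3
    rw [hφ] at h8
    exact h8

end Pool.Agent.Helper47.RK
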