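import Mathlib

/-!
# Project RG/RA (MP_16b052_ag), kernel engine: digits in base `2^t`
-/

namespace Helper47.RK

open Finset

universe u

/-- the number with digits `d c`, `c < m`, in base `2^t` -/
def ds (t m : ℕ) (d : ℕ → ℕ) : ℕ := ∑ c ∈ range m, d c * 2 ^ (t * c)

lemma ds_succ (t m : ℕ) (d : ℕ → ℕ) : ds t (m + 1) d = ds t m d + d m * 2 ^ (t * m) := by
  unfold ds
  rw [sum_range_succ]

lemma ds_lt {t m : ℕ} {d : ℕ → ℕ} (h : ∀ c < m, d c < 2 ^ t) : ds t m d < 2 ^ (t * m) := by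
  induction m with
  | zero => simp [ds]
  | succ m ih =>
    rw [ds_succ]
    have h1 := ih (fun c hc => h c (by omega))
    have h2 := h m (by omega)
    have h3 : 2 ^ (t * (m + 1)) = 2 ^ t * 2 ^ (t * m) := by
      rw [Nat.mul_succ, pow_add, mul_comm]
    rw [h3]
    have h4 : (d m + 1) * 2 ^ (t * m) ≤ 2 ^ t * 2 ^ (t * m) := Nat.mul_le_mul_right _ h2
    rw [Nat.add_mul, one_mul] at h4
    omega

lemma ds_digit {t m : ℕ} {d : ℕ → ℕ} (h : ∀ c < m, d c < 2 ^ t) {c : ℕ} (hc : c < m) :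
    ds t m d / 2 ^ (t * c) % 2 ^ t = d c := by
  induction m with
  | zero => omega
  | succ m ih =>
    rw [ds_succ]
    have hl := ds_lt (fun c hc => h c (by omega : c < m + 1)) (m := m)
    rcases Nat.lt_or_ge c m with h1 | h1
    · have h2 := ih (fun c hc => h c (by omega)) h1
      have h3 : 2 ^ (t * m) = 2 ^ (t * c) * (2 ^ t * 2 ^ (t * (m - c - 1))) := by
        rw [← pow_add, ← pow_add]
        congr 1
        obtain ⟨e, rfl⟩ : ∃ e, m = c + 1 + e := ⟨m - c - 1, by omega⟩
        have : c + 1 + e - c - 1 = e := by omega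
        rw [this]
        ring
      have h4 : (ds t m d + d m * 2 ^ (t * m)) / 2 ^ (t * c) =
          ds t m d / 2 ^ (t * c) + (d m * 2 ^ (t * (m - c - 1))) * 2 ^ t := by
        rw [h3]
        have : ds t m d + d m * (2 ^ (t * c) * (2 ^ t * 2 ^ (t * (m - c - 1)))) =
            ds t m d + 2 ^ (t * c) * ((d m * 2 ^ (t * (m - c - 1))) * 2 ^ t) := by ring
        rw [this, Nat.add_mul_div_left _ _ (by positivity)]
      rw [h4, Nat.add_mul_mod_self_right]
      exact h2
    · have hcm : c = m := by omega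
      subst hcm
      rw [Nat.add_mul_div_right _ _ (by positivity), Nat.div_eq_of_lt hl, zero_add,
        Nat.mod_eq_of_lt (h c (by omega))]

lemma ds_congr {t m : ℕ} {d d' : ℕ → ℕ} (h : ∀ c < m, d c = d' c) : ds t m d = ds t m d' := by
  unfold ds
  apply sum_congr rfl
  intro c hc
  rw [h c (mem_range.1 hc)]

lemma ds_add (t m : ℕ) (d d' : ℕ → ℕ) : ds t m d + ds t m d' = ds t m (fun c => d c + d' c) := by
  unfold ds
  rw [← sum_add_distrib]
  apply sum_congr rfl
  intro c _
  ring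

lemma ds_mul (t m a : ℕ) (d : ℕ → ℕ) : a * ds t m d = ds t m (fun c => a * d c) := by
  unfold ds
  rw [mul_sum]
  apply sum_congr rfl
  intro c _
  ring

/-- the number with all digits `1` -/
lemma ds_one (t m : ℕ) (ht : 1 ≤ t) :
    ds t m (fun _ => 1) = (2 ^ (m * t) - 1) / (2 ^ t - 1) := by
  have hB : 2 ≤ 2 ^ t := by
    calc 2 = 2 ^ 1 := rfl
      _ ≤ 2 ^ t := Nat.pow_le_pow_right (by norm_num) ht
  have h1 : ds t m (fun _ => 1) * (2 ^ t - 1) = 2 ^ (m * t) - 1 := by
    induction m with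
    | zero => simp [ds]
    | succ m ih =>
      rw [ds_succ, Nat.add_mul, ih, one_mul, Nat.mul_comm m t, Nat.succ_mul, pow_add,
        Nat.mul_comm m t, Nat.mul_sub]
      have : 1 ≤ 2 ^ (t * m) := Nat.one_le_two_pow
      have h3 : 2 ^ (t * m) ≤ 2 ^ (t * m) * 2 ^ t := Nat.le_mul_of_pos_right _ (by positivity)
      omega
  rw [← h1, Nat.mul_div_cancel _ (by omega)]

lemma ds_indicator {t m : ℕ} {c : ℕ} (hc : c < m) :
    ds t m (fun i => if i = c then 1 else 0) = 2 ^ (t * c) := by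
  unfold ds
  rw [sum_eq_single c]
  · simp
  · intro b _ hb
    simp [hb]
  · intro h
    exact absurd (mem_range.2 hc) h

end Helper47.RK
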