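import Pool.Agent.Helper47.RK.Tab5
import Pool.Agent.Helper49.RA.M_CT
import Pool.Agent.Helper49.RA.M_GOOD

/-!
# Project RG/RA (MP_16b052_ag): from the checks of the engine to `TabB`, `TabA` and `Uniq`
-/

namespace Helper47.RK

open Finset Helper49.RA

universe u

/-! ### codes -/

lemma evp_par6 (v w : ℕ) : evp v w = !par6 (v &&& w) := by
  have h : ∀ x : ℕ, Nat.beq 0 (x &&& 1) = !(1 &&& x != 0) := by
    intro x
    rw [Nat.and_comm 1 x, Nat.and_one_is_mod]
    rcases Nat.mod_two_eq_zero_or_one x with h | h <;> rw [h] <;> rfl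
  exact h _

lemma eN_sg (k : Type u) [Field k] (v w : ℕ) : ((eN v w : ℤ) : k) = sg k v w := by
  unfold sg eN
  rw [evp_par6]
  cases par6 (v &&& w) <;> simp

lemma eN_evp {v w : ℕ} (h : evp v w = true) : eN v w = 1 := by
  rw [evp_par6] at h
  unfold eN
  cases h2 : par6 (v &&& w) with
  | false => simp
  | true =>
    rw [h2] at h
    exact absurd h (by simp)

lemma enc_xor' (a b : ℕ) : (enc (a ^^^ b) : K6) = enc a + enc b := by
  funext i
  simp only [enc, Pi.add_apply, Nat.testBit_xor]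
  cases a.testBit i <;> cases b.testBit i <;> decide

lemma sum_encM (hBR : BRfacts) {M : Type u} [AddCommMonoid M] (g : K6 → M) :
    ∑ v, g v = ∑ n ∈ range 64, g (enc n) := by
  symm
  refine Finset.sum_bij (fun n _ => enc n) (fun _ _ => Finset.mem_univ _) ?_ ?_ (fun _ _ => rfl)
  · intro a ha b hb hab
    have h1 := GOODaux.dec_enc hBR (Finset.mem_range.1 ha)
    have h2 := GOODaux.dec_enc hBR (Finset.mem_range.1 hb)
    rw [← h1, ← h2, hab]
  · intro v _
    obtain ⟨x, hx, hv⟩ := GOODaux.enc_surj hBR v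
    exact ⟨x, Finset.mem_range.2 hx, hv⟩

lemma eN32_hi : ∀ u : ℕ, u < 64 → 32 ≤ u → eN 32 u = -1 := by decide +kernel

lemma eN32_lo : ∀ u : ℕ, u < 32 → eN 32 u = 1 := by decide +kernel

lemma code32 : ∀ u : ℕ, u < 32 → ∀ v : ℕ, v < 32 → (u + 64 * v) ^^^ 2048 = u + 64 * (v + 32) := by
  decide +kernel

/-- the values of a table at codes -/
def natTab {k : Type u} (γ : K6 → K6 → k) (u w : ℕ) : k := γ (enc u) (enc w)

section tab

variable {k : Type u} [Field k] {γ : K6 → K6 → k}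

lemma isSig_natTab {b : K6 × K6} (hb : b.1 = 0) (h : IsTab k e6 b γ) (g : ℕ) :
    IsSig k g (natTab γ) := by
  refine ⟨fun u w _ _ => h.s1 _ _, fun u w _ _ => ?_⟩
  unfold natTab
  rw [enc_xor', h.s2 (enc u) (enc w), hb, add_zero]

lemma four_natTab (hBR : BRfacts) {v : ℕ} (hv : v < 64) (u : ℕ) :
    four k e6 γ (enc u) (enc v) = ∑ w ∈ range 64, sg k v w * natTab γ u w := by
  unfold four
  rw [sum_encM hBR]
  refine sum_congr rfl fun w hw => ?_
  rw [hBR.e v w hv (mem_range.1 hw), eN_sg, mul_comm]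
  rfl

lemma enc_surj2 (hBR : BRfacts) (h : ∀ u w, u < 64 → w < 64 → natTab γ u w = 0) :
    ∀ u w, γ u w = 0 := by
  intro u w
  obtain ⟨u', hu, rfl⟩ := GOODaux.enc_surj hBR u
  obtain ⟨w', hw, rfl⟩ := GOODaux.enc_surj hBR w
  exact h u' w' hu hw

lemma encE_2048 (hBR : BRfacts) : encE 2048 = ((0 : K6), (enc 32 : K6)) := by
  have h : encE 2048 = (enc 0, enc 32) := rfl
  rw [h, GOODaux.enc_zero hBR]

lemma natTab_hi (hBR : BRfacts) (h2 : (2 : k) ≠ 0) (h : IsTab k e6 (encE 2048) γ) {u : ℕ}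
    (hu : u < 64) (hu2 : 32 ≤ u) (w : ℕ) : natTab γ u w = 0 := by
  have hb := encE_2048 hBR
  have e1 := h.s2 (enc u) (enc w)
  have e2 := h.s3 (enc u) (enc w)
  rw [hb] at e1 e2
  simp only [add_zero] at e1
  rw [hBR.e 32 u (by norm_num) hu, eN32_hi u hu hu2, ← e1] at e2
  unfold natTab
  have e3 : (2 : k) * γ (enc u) (enc w) = 0 := by
    push_cast at e2
    linear_combination e2
  exact (mul_eq_zero.1 e3).resolve_left h2

lemma natTab_hi' (hBR : BRfacts) (h2 : (2 : k) ≠ 0) (h : IsTab k e6 (encE 2048) γ) {w : ℕ}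
    (hw : w < 64) (hw2 : 32 ≤ w) (u : ℕ) : natTab γ u w = 0 := by
  have e : natTab γ u w = natTab γ w u := h.s1 _ _
  rw [e]
  exact natTab_hi hBR h2 h hw hw2 u

end tab

/-! ### the transformed words by numbers -/

lemma par6_xor (a b : ℕ) (ha : a < 64) (hb : b < 64) :
    par6 (a ^^^ b) = Bool.xor (par6 a) (par6 b) := by
  have h : ∀ a < 64, ∀ b < 64, par6 (a ^^^ b) = Bool.xor (par6 a) (par6 b) := by
    decide +kernel
  exact h a ha b hb

/-- `true` iff the transvection `v` moves the code `a` -/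
noncomputable def mv (v a : ℕ) : Bool :=
  Nat.beq 0 (Nat.land (Nat.shiftRight 0x6996966996696996
    (Nat.xor (Nat.land (Nat.mod a 64) (Nat.div v 64))
      (Nat.xor (Nat.land (Nat.div a 64) (Nat.mod v 64))
        (Nat.land (Nat.mod v 64) (Nat.div v 64))))) 1)

lemma mv_spec {v a : ℕ} (hv : v < 4096) (ha : a < 4096) :
    mv v a = true ↔ bN a v = qN v := by
  have h0 : mv v a = !par6 (((a % 64) &&& (v / 64)) ^^^
      (((a / 64) &&& (v % 64)) ^^^ ((v % 64) &&& (v / 64)))) := by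
    have h : ∀ x : ℕ, Nat.beq 0 (x &&& 1) = !(1 &&& x != 0) := by
      intro x
      rw [Nat.and_comm 1 x, Nat.and_one_is_mod]
      rcases Nat.mod_two_eq_zero_or_one x with h | h <;> rw [h] <;> rfl
    exact h _
  have h1 : (a % 64) &&& (v / 64) < 64 := lt_of_le_of_lt Nat.and_le_left (by omega)
  have h2 : (a / 64) &&& (v % 64) < 64 := lt_of_le_of_lt Nat.and_le_left (by omega)
  have h3 : (v % 64) &&& (v / 64) < 64 := lt_of_le_of_lt Nat.and_le_left (by omega)
  have h4 : ((a / 64) &&& (v % 64)) ^^^ ((v % 64) &&& (v / 64)) < 64 :=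
    Nat.xor_lt_two_pow (n := 6) h2 h3
  rw [h0, par6_xor _ _ h1 h4, par6_xor _ _ h2 h3]
  unfold bN qN eN
  cases par6 ((a % 64) &&& (v / 64)) <;> cases par6 ((a / 64) &&& (v % 64)) <;>
    cases par6 ((v % 64) &&& (v / 64)) <;> simp

/-- the value plus `2` of the transformed word at a code (`true`: the negative) -/
noncomputable def dg (lr : List ℕ) : ℕ → Bool → ℕ :=
  List.rec (fun a s =>
      Bool.rec (Nat.mod (Nat.shiftRight fBig (Nat.mul 3 a)) 8)
        (Nat.sub 4 (Nat.mod (Nat.shiftRight fBig (Nat.mul 3 a)) 8)) s)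
    (fun v _ ih a s =>
      Bool.rec (ih a s) (ih (Nat.xor a v) (Bool.xor s (evp (Nat.mod v 64) (Nat.div v 64))))
        (mv v a)) lr

lemma tfsN_append (l : List ℕ) (v : ℕ) (F : ℕ → ℤ) :
    tfsN (l ++ [v]) F = tfN v (tfsN l F) := by
  unfold tfsN
  rw [List.foldl_append]
  rfl

lemma dg_spec (lr : List ℕ) : (∀ v ∈ lr, v < 4096) → ∀ (a : ℕ) (s : Bool), a < 4096 →
    ((dg lr a s : ℕ) : ℤ) = 2 + (if s then -1 else 1) * tfsN lr.reverse fN a := by
  induction lr with
  | nil =>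
    intro _ a s ha
    have h1 := List.all_eq_true.1 GOODaux.vals a (List.mem_range.2 ha)
    have h2 : (fBig >>> (3 * a)) % 8 ≤ 4 := of_decide_eq_true h1
    have h3 : tfsN ([] : List ℕ).reverse fN a = (((fBig >>> (3 * a)) % 8 : ℕ) : ℤ) - 2 := rfl
    rw [h3]
    cases s with
    | false =>
      show (((fBig >>> (3 * a)) % 8 : ℕ) : ℤ) = _
      simp
    | true =>
      show ((4 - (fBig >>> (3 * a)) % 8 : ℕ) : ℤ) = _
      rw [Nat.cast_sub h2]
      simp only [if_true]
      push_cast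
      ring
  | cons v lr ih =>
    intro hl a s ha
    have hv : v < 4096 := hl v (by simp)
    have hl' : ∀ w ∈ lr, w < 4096 := fun w hw => hl w (by simp [hw])
    rw [List.reverse_cons, tfsN_append]
    have e1 : dg (v :: lr) a s = Bool.rec (dg lr a s)
      (dg lr (a ^^^ v) (Bool.xor s (evp (v % 64) (v / 64)))) (mv v a) := rfl
    rw [e1]
    unfold tfN
    cases hm : mv v a with
    | false =>
      have hne : ¬ bN a v = qN v := by
        intro h
        rw [(mv_spec hv ha).2 h] at hm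
        exact absurd hm (by simp)
      rw [if_neg hne]
      exact ih hl' a s ha
    | true =>
      rw [if_pos ((mv_spec hv ha).1 hm)]
      have hx : a ^^^ v < 4096 := Nat.xor_lt_two_pow (n := 12) ha hv
      show ((dg lr (a ^^^ v) (Bool.xor s (evp (v % 64) (v / 64))) : ℕ) : ℤ) = _
      rw [ih hl' _ _ hx]
      have hq : qN v = if evp (v % 64) (v / 64) then 1 else -1 := by
        unfold qN eN
        rw [evp_par6]
        cases par6 (v % 64 &&& v / 64) <;> simp
      rw [hq]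
      cases s <;> cases evp (v % 64) (v / 64) <;> simp

/-! ### the tests -/

/-- the codes of the points of `Z` are zeros of the word -/
noncomputable def zTest (lr : List ℕ) (Z : ℕ) : Bool :=
  allB (fun u => allB (fun v =>
    Bool.rec true
      (Bool.rec false (Nat.beq (dg lr (Nat.add u (Nat.mul 64 (Nat.add v 32))) false) 2)
        (Nat.beq (dg lr (Nat.add u (Nat.mul 64 v)) false) 2))
      (Nat.beq (Nat.land (Nat.shiftRight Z (Nat.add u (Nat.mul 32 v))) 1) 1)) 32) 32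

lemma zTest_spec {lr : List ℕ} (hl : ∀ v ∈ lr, v < 4096) {Z : ℕ} (h : zTest lr Z = true)
    {u v : ℕ} (hu : u < 32) (hv : v < 32) (hZ : (Z >>> (u + 32 * v)) &&& 1 = 1) :
    tfsN lr.reverse fN (u + 64 * v) = 0 ∧ tfsN lr.reverse fN (u + 64 * (v + 32)) = 0 := by
  have h1 := allB_spec (allB_spec h u hu) v hv
  have h3 : Nat.beq (Nat.land (Nat.shiftRight Z (Nat.add u (Nat.mul 32 v))) 1) 1 = true := by
    have : Nat.land (Nat.shiftRight Z (Nat.add u (Nat.mul 32 v))) 1 = 1 := hZ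
    rw [this]
    rfl
  rw [h3] at h1
  have h4 : (Bool.rec false (Nat.beq (dg lr (u + 64 * (v + 32)) false) 2)
    (Nat.beq (dg lr (u + 64 * v) false) 2) : Bool) = true := h1
  have s1 := dg_spec lr hl (u + 64 * v) false (by omega)
  have s2 := dg_spec lr hl (u + 64 * (v + 32)) false (by omega)
  cases h5 : Nat.beq (dg lr (u + 64 * v) false) 2 with
  | false =>
    rw [h5] at h4
    exact absurd h4 (by simp)
  | true =>
    rw [h5] at h4
    have h6 : Nat.beq (dg lr (u + 64 * (v + 32)) false) 2 = true := h4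
    rw [Nat.eq_of_beq_eq_true h5] at s1
    rw [Nat.eq_of_beq_eq_true h6] at s2
    simp only [Bool.false_eq_true, if_false, one_mul] at s1 s2
    push_cast at s1 s2
    constructor
    · linarith
    · linarith

/-- no points with `v ≥ 32` -/
lemma bit_lt {Z u v : ℕ} (hZlt : Nat.log2 Z < 1024) (hZ : (Z >>> (u + 32 * v)) &&& 1 = 1) :
    v < 32 := by
  by_contra hv
  have h0 : Z < 2 ^ (Nat.log2 Z + 1) := Nat.lt_log2_self
  have h1 : Z < 2 ^ (u + 32 * v) := by
    refine lt_of_lt_of_le h0 (Nat.pow_le_pow_right (by norm_num) ?_)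
    omega
  rw [Nat.shiftRight_eq_div_pow, Nat.div_eq_of_lt h1] at hZ
  simp at hZ

/-- the value of `sig` at `(u0, w0)` -/
def sigT (F : ℕ → ℤ) (u0 w0 : ℕ) : ℤ := ∑ v ∈ range 64, F (u0 + 64 * v) * eN v w0

/-- the same plus `2 n`, by numbers -/
noncomputable def sigD (lr : List ℕ) (u0 w0 n : ℕ) : ℕ :=
  Nat.rec 0 (fun v ih => Nat.add ih
    (dg lr (Nat.add u0 (Nat.mul 64 v)) (Bool.rec true false (evp v w0)))) n

lemma sigD_spec {lr : List ℕ} (hl : ∀ v ∈ lr, v < 4096) {u0 w0 : ℕ} (hu0 : u0 < 64) (n : ℕ) :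
    n ≤ 64 → ((sigD lr u0 w0 n : ℕ) : ℤ) =
      2 * n + ∑ v ∈ range n, tfsN lr.reverse fN (u0 + 64 * v) * eN v w0 := by
  induction n with
  | zero =>
    intro _
    simp [sigD]
  | succ n ih =>
    intro hn
    have e1 : sigD lr u0 w0 (n + 1) = sigD lr u0 w0 n +
      dg lr (u0 + 64 * n) (Bool.rec true false (evp n w0)) := rfl
    rw [e1, Nat.cast_add, ih (by omega), dg_spec lr hl _ _ (by omega), sum_range_succ]
    have h2 : eN n w0 = if evp n w0 then 1 else -1 := by
      unfold eN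
      rw [evp_par6]
      cases par6 (n &&& w0) <;> simp
    rw [h2]
    cases evp n w0 <;> simp <;> ring

/-- the test that `sigT` is a power of two up to sign -/
noncomputable def sTest (lr : List ℕ) (u0 w0 j : ℕ) : Bool :=
  Nat.beq (sigD lr u0 w0 64) (128 + 2 ^ j) || Nat.beq (sigD lr u0 w0 64 + 2 ^ j) 128

lemma sTest_spec {lr : List ℕ} (hl : ∀ v ∈ lr, v < 4096) {u0 w0 j : ℕ} (hu0 : u0 < 64)
    (h : sTest lr u0 w0 j = true) :
    sigT (tfsN lr.reverse fN) u0 w0 = 2 ^ j ∨ sigT (tfsN lr.reverse fN) u0 w0 = - 2 ^ j := by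
  have h1 := sigD_spec hl (w0 := w0) hu0 64 le_rfl
  unfold sTest at h
  rw [Bool.or_eq_true] at h
  have h2 : sigT (tfsN lr.reverse fN) u0 w0 = ((sigD lr u0 w0 64 : ℕ) : ℤ) - 128 := by
    rw [h1]
    unfold sigT
    push_cast
    ring
  rw [h2]
  rcases h with h | h
  · left
    rw [Nat.eq_of_beq_eq_true h]
    push_cast
    ring
  · right
    have := Nat.eq_of_beq_eq_true h
    have h3 : ((sigD lr u0 w0 64 : ℕ) : ℤ) + 2 ^ j = 128 := by exact_mod_cast this
    linarith

lemma sig_wordOf (hBR : BRfacts) (F : ℕ → ℤ) {u w : ℕ} (hu : u < 64) (hw : w < 64) :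
    sig e6 (wordOf F) (enc u) (enc w) = sigT F u w := by
  unfold sig sigT
  rw [GOODaux.sum_enc hBR]
  refine Finset.sum_congr rfl fun v hv => ?_
  have hv' := Finset.mem_range.1 hv
  rw [← GOODaux.encE_pair hu, UBaux.wordOf_enc hBR F _ (by omega), hBR.e v w hv' hw]

lemma pow2_cast_ne {k : Type u} [Field k] (h2 : (2 : k) ≠ 0) {s : ℤ} {j : ℕ}
    (h : s = 2 ^ j ∨ s = - 2 ^ j) : ((4 * s : ℤ) : k) ≠ 0 := by
  have h4 : (4 : k) ≠ 0 := by
    have : (4 : k) = 2 * 2 := by norm_num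
    rw [this]
    exact mul_ne_zero h2 h2
  have hs : ((s : ℤ) : k) ≠ 0 := by
    rcases h with h5 | h5
    · rw [h5]
      push_cast
      exact pow_ne_zero j h2
    · rw [h5]
      push_cast
      exact neg_ne_zero.2 (pow_ne_zero j h2)
  push_cast
  exact mul_ne_zero h4 hs

/-! ### `TabB` at the code 2048 -/

/-- **TabB from the check.** -/
theorem tabB_2048 (hBR : BRfacts) (k : Type u) [Field k] (h2 : (2 : k) ≠ 0) {F : ℕ → ℤ}
    {Z t j0 u0 w0 jb mb : ℕ} {cert : List ℕ} (hu0 : u0 < 32) (hw0 : w0 < 32) (ht : 1 ≤ t)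
    (hZlt : Nat.log2 Z < 1024)
    (hz : ∀ u v, u < 32 → v < 32 → (Z >>> (u + 32 * v)) &&& 1 = 1 →
      F (u + 64 * v) = 0 ∧ F (u + 64 * (v + 32)) = 0)
    (hchk : checkJ 5 t 187 cls5 8 Z j0 u0 w0 jb mb cert = true) :
    TabB k e6 (wordOf F) (encE 2048) (enc u0, enc w0) := by
  intro γ hγ hfour h0
  have hb := encE_2048 hBR
  have hsig : IsSig k 5 (natTab γ) := isSig_natTab (by rw [hb]) hγ 5
  have hZ : ∀ u v, u < 2 ^ 5 → (Z >>> (u + 2 ^ 5 * v)) &&& 1 = 1 → evp u v = true →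
      trf k 5 (natTab γ) u v = 0 := by
    intro u v hu hbit hev
    have hu' : u < 32 := by simpa using hu
    have hbit' : (Z >>> (u + 32 * v)) &&& 1 = 1 := by simpa using hbit
    have hv : v < 32 := bit_lt hZlt hbit'
    obtain ⟨z1, z2⟩ := hz u v hu' hv hbit'
    have ea : encE (u + 64 * v) = (enc u, enc v) := GOODaux.encE_pair (by omega)
    have eab : encE (u + 64 * v) + encE 2048 = encE (u + 64 * (v + 32)) := by
      rw [← hBR.xor, code32 u hu' v hv]
    have eab' : encE (u + 64 * (v + 32)) = (enc u, enc (v + 32)) :=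
      GOODaux.encE_pair (by omega)
    have hq1 : qq e6 (encE (u + 64 * v)) = 1 := by
      rw [ea]
      show e6 (enc u) (enc v) = 1
      rw [hBR.e u v (by omega) (by omega), eN_evp hev]
    have hsum : (enc (v + 32) : K6) = enc v + enc 32 := by
      have := congrArg Prod.snd eab
      rw [ea, hb, eab'] at this
      exact this.symm
    have hq2 : qq e6 (encE (u + 64 * v) + encE 2048) = 1 := by
      rw [eab, eab']
      show e6 (enc u) (enc (v + 32)) = 1
      rw [hsum, hBR.pair.symm, hBR.pair.addl, hBR.pair.symm (enc v),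
        hBR.e u v (by omega) (by omega), eN_evp hev, hBR.e 32 u (by omega) (by omega),
        eN32_lo u hu', mul_one]
    have hf := hfour (encE (u + 64 * v)) hq1 hq2
      (by rw [UBaux.wordOf_enc hBR F _ (by omega)]; exact z1)
      (by rw [eab, UBaux.wordOf_enc hBR F _ (by omega)]; exact z2)
    rw [ea, hb] at hf
    have hf2 : four k e6 γ (enc u) (enc v + enc 32) = 0 := hf
    rw [← hsum, four_natTab hBR (by omega)] at hf2
    rw [← hf2]
    unfold trf
    have h64 : range 64 = range (2 ^ 5) ∪ Ico 32 64 := by decide +kernel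
    have hdis : Disjoint (range (2 ^ 5)) (Ico 32 64) := by decide +kernel
    rw [h64, sum_union hdis]
    have hz2 : ∑ w ∈ Ico 32 64, sg k (v + 32) w * natTab γ u w = 0 := by
      refine sum_eq_zero fun w hw => ?_
      rw [mem_Ico] at hw
      rw [natTab_hi' hBR h2 hγ hw.2 hw.1, mul_zero]
    rw [hz2, add_zero]
    refine sum_congr rfl fun w hw => ?_
    have hw' : w < 32 := by simpa using hw
    congr 1
    rw [← eN_sg, ← eN_sg]
    congr 1
    rw [← hBR.e v w (by omega) (by omega), ← hBR.e (v + 32) w (by omega) (by omega), hsum,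
      hBR.pair.addl, hBR.e 32 w (by omega) (by omega), eN32_lo w hw', mul_one]
  have key := checkJ_sound h2 hsig (by norm_num) ht tab5 (by simpa using hu0) (by simpa using hw0)
    hchk hZ h0
  refine enc_surj2 hBR fun u w hu hw => ?_
  by_cases hu2 : 32 ≤ u
  · exact natTab_hi hBR h2 hγ hu hu2 w
  · by_cases hw2 : 32 ≤ w
    · exact natTab_hi' hBR h2 hγ hw hw2 u
    · exact key u w (by simpa using not_le.1 hu2) (by simpa using not_le.1 hw2)

lemma gamF_2048 (hBR : BRfacts) (F : ℕ → ℤ) {u0 w0 : ℕ} (hu0 : u0 < 32) (hw0 : w0 < 32) :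
    gamF e6 (wordOf F) (encE 2048) (enc u0) (enc w0) = 4 * sigT F u0 w0 := by
  have hb := encE_2048 hBR
  rw [hb]
  unfold gamF
  have e1 : e6 (enc 32) (enc u0) = 1 := by
    rw [hBR.e 32 u0 (by omega) (by omega), eN32_lo u0 hu0]
  have e2 : e6 (enc 32) (enc w0) = 1 := by
    rw [hBR.e 32 w0 (by omega) (by omega), eN32_lo w0 hw0]
  have e3 : e6 (enc 32) (enc u0 + enc w0) = 1 := by
    rw [hBR.pair.symm, hBR.pair.addl, hBR.pair.symm (enc u0), hBR.pair.symm (enc w0), e1, e2,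
      mul_one]
  simp only [add_zero]
  rw [e1, e2, e3, sig_wordOf hBR F (by omega) (by omega)]
  ring

/-! ### an orbit -/

/-- all members are codes -/
def ltAll (l : List ℕ) : Bool := l.all fun v => decide (v < 4096)

/-- the complete check of a certificate for the code `b` (`lr` is the list of transvections in
reversed order) -/
noncomputable def orbCheck (b : ℕ) (lr : List ℕ) (Z t j0 u0 w0 j jb mb : ℕ) (cert : List ℕ) :
    Bool :=
  (ltAll lr && decide (b < 4096) && decide (tvsN lr.reverse b = 2048) && decide (u0 < 32) &&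
    decide (w0 < 32) && decide (1 ≤ t) && decide (Nat.log2 Z < 1024) &&
    sTest lr u0 w0 j && zTest lr Z) &&
    checkJ 5 t 187 cls5 8 Z j0 u0 w0 jb mb cert

theorem wordOf_fN : wordOf fN = f0 := rfl

/-- **Uniq from a certificate.** -/
theorem uniq_of_orbCheck (hTR : StTR.{u}) (hBR : BRfacts) (hCO : StCO.{u}) (hcode : IsCode e6 f0)
    {b : ℕ} {lr : List ℕ} {Z t j0 u0 w0 j jb mb : ℕ} {cert : List ℕ}
    (h : orbCheck b lr Z t j0 u0 w0 j jb mb cert = true) (k : Type u) [Field k] [IsAlgClosed k]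
    (h2 : (2 : k) ≠ 0) : Uniq k e6 f0 (encE b) := by
  unfold orbCheck at h
  simp only [Bool.and_eq_true, decide_eq_true_eq] at h
  obtain ⟨⟨⟨⟨⟨⟨⟨⟨⟨a1, a2⟩, a3⟩, a4⟩, a5⟩, a6⟩, a7⟩, a8⟩, a9⟩, a10⟩ := h
  have hlr : ∀ v ∈ lr, v < 4096 := by
    intro v hv
    have := List.all_eq_true.1 a1 v hv
    exact of_decide_eq_true this
  have hl : ∀ v ∈ lr.reverse, v < 4096 := fun v hv => hlr v (List.mem_reverse.1 hv)
  have hT : TabB k e6 (wordOf (tfsN lr.reverse fN)) (encE 2048) (enc u0, enc w0) :=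
    tabB_2048 hBR k h2 a4 a5 a6 a7 (fun u v hu hv hZ => zTest_spec hlr a9 hu hv hZ) a10
  have hc : IsCode e6 (wordOf (tfsN lr.reverse fN)) :=
    code_wordOf hBR lr.reverse hl fN (by rw [wordOf_fN]; exact hcode)
  have hg : ((gamF e6 (wordOf (tfsN lr.reverse fN)) (encE 2048) (enc u0, enc w0).1
      (enc u0, enc w0).2 : ℤ) : k) ≠ 0 := by
    show ((gamF e6 (wordOf (tfsN lr.reverse fN)) (encE 2048) (enc u0) (enc w0) : ℤ) : k) ≠ 0
    rw [gamF_2048 hBR _ a4 a5]
    exact pow2_cast_ne h2 (sTest_spec hlr (by omega) a8)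
  have hU : Uniq k e6 (wordOf (tfsN lr.reverse fN)) (encE (tvsN lr.reverse b)) := by
    rw [a3]
    exact hCO k K6 e6 hBR.pair _ hc (encE 2048) (enc u0, enc w0) hT hg
  have := uB hTR hBR k h2 lr.reverse hl fN b a2 hU
  rw [wordOf_fN] at this
  exact this

/-- there is a certificate for `b` -/
def OrbOK (b : ℕ) : Prop :=
  ∃ (lr : List ℕ) (Z t j0 u0 w0 j jb mb : ℕ) (cert : List ℕ),
    orbCheck b lr Z t j0 u0 w0 j jb mb cert = true

theorem OrbOK.mk {b : ℕ} {lr : List ℕ} {Z t j0 u0 w0 j jb mb : ℕ} {cert : List ℕ}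
    (h : orbCheck b lr Z t j0 u0 w0 j jb mb cert = true) : OrbOK b :=
  ⟨lr, Z, t, j0, u0, w0, j, jb, mb, cert, h⟩

theorem OrbOK.uniq (hTR : StTR.{u}) (hBR : BRfacts) (hCO : StCO.{u}) (hcode : IsCode e6 f0)
    {b : ℕ} (h : OrbOK b) (k : Type u) [Field k] [IsAlgClosed k] (h2 : (2 : k) ≠ 0) :
    Uniq k e6 f0 (encE b) := by
  obtain ⟨lr, Z, t, j0, u0, w0, j, jb, mb, cert, h⟩ := h
  exact uniq_of_orbCheck hTR hBR hCO hcode h k h2

end Helper47.RK
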