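import Pool.Agent.Helper47.RK.Row

/-!
# Project RG/RA (MP_16b052_ag), kernel engine: chains split over several checks
-/

namespace Helper47.RK

open Finset

universe u

section link

variable {k : Type u} [Field k] {g t m cls cb rep : ℕ} {γ : ℕ → ℕ → k}

/-- a part of a chain of pivots -/
def Lk (t m : ℕ) (x : ℕ → k) (U U' : ℕ) : Prop :=
  ∀ D : Finset ℕ, (∀ c ∈ D, c < m) → U = us t m D →
    ∃ D' : Finset ℕ, (∀ c ∈ D', c < m) ∧ U' = us t m D' ∧
      ((∀ c < m, c ∉ D' → x c = 0) → ∀ c < m, c ∉ D → x c = 0)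

lemma Lk.trans {x : ℕ → k} {U U' U'' : ℕ} (h1 : Lk t m x U U') (h2 : Lk t m x U' U'') :
    Lk t m x U U'' := by
  intro D hD hU
  obtain ⟨D1, a1, a2, a3⟩ := h1 D hD hU
  obtain ⟨D2, b1, b2, b3⟩ := h2 D1 a1 a2
  exact ⟨D2, b1, b2, fun h => a3 (b3 h)⟩

lemma Lk.zero {x : ℕ → k} (ht : 1 ≤ t) (h : Lk t m x 0 (fullN m t)) : ∀ c < m, x c = 0 := by
  obtain ⟨D', h1, h3, h4⟩ := h ∅ (by simp) us_empty.symm
  have hfl : fullN m t = ds t m (fun _ => 1) := (ds_one t m ht).symm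
  have h5 : D' = range m := by
    apply us_inj ht h1 (fun c hc => mem_range.1 hc)
    rw [← h3, us_full, hfl]
  subst h5
  intro c hc
  exact h4 (fun c hc hc' => absurd (mem_range.2 hc) hc') c hc (by simp)

/-- a part of the chain, rows with the unit row of the class of `(u0, w0)` -/
noncomputable def partJ (g t m cls cb Z j0 u0 w0 jb mb : ℕ) (U U' : ℕ) (l : List ℕ) : Bool :=
  chk (mkT (rowJ g t cls (fullN m t) cb Z j0 (clsAt cls cb g u0 w0)) (Nat.mul 2 g) 0 1) 1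
    (Nat.mul 2 (fullN m t)) jb mb t m U' l U

/-- a part of the chain, without unit row -/
noncomputable def partZ (g t m cls cb Z jb mb : ℕ) (U U' : ℕ) (l : List ℕ) : Bool :=
  chk (mkT (rowZ g t cls (fullN m t) cb Z) (Nat.mul 2 g) 0 1) 1
    (Nat.mul 2 (fullN m t)) jb mb t m U' l U

theorem partJ_sound (h2 : (2 : k) ≠ 0) (hγ : IsSig k g γ) (hg : g ≤ 6) (ht : 1 ≤ t)
    (h : tabOK g m cls cb rep = true) {Z j0 u0 w0 jb mb U U' : ℕ} {l : List ℕ}
    (hu0 : u0 < 2 ^ g) (hw0 : w0 < 2 ^ g)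
    (hchk : partJ g t m cls cb Z j0 u0 w0 jb mb U U' l = true)
    (hZ : ∀ u v, u < 2 ^ g → (Z >>> (u + 2 ^ g * v)) &&& 1 = 1 → evp u v = true →
      trf k g γ u v = 0) (h0 : γ u0 w0 = 0) : Lk t m (xOf g rep γ) U U' := by
  intro D hD hU
  have hfl : fullN m t = ds t m (fun _ => 1) := (ds_one t m ht).symm
  refine chk_sound h2 ht (T := mkT (rowJ g t cls (fullN m t) cb Z j0 (clsAt cls cb g u0 w0))
      (2 * g) 0 1) (H := 1) (f2 := 2 * fullN m t) (jb := jb) (mb := mb) ?_ ?_ l U D hD hU hchk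
  · intro j
    obtain ⟨i, hi⟩ := getT_mkT (rowJ g t cls (fullN m t) cb Z j0 (clsAt cls cb g u0 w0))
      (2 * g) 0 1 j
    rw [hi]
    exact rowJ_good h2 hγ hg h hfl hZ (cls_lt h hu0 hw0) (by rw [xOf_cls hγ h hu0 hw0, h0]) i
  · rw [hfl]

theorem partZ_sound (h2 : (2 : k) ≠ 0) (hγ : IsSig k g γ) (hg : g ≤ 6) (ht : 1 ≤ t)
    (h : tabOK g m cls cb rep = true) {Z jb mb U U' : ℕ} {l : List ℕ}
    (hchk : partZ g t m cls cb Z jb mb U U' l = true)
    (hZ : ∀ u v, u < 2 ^ g → (Z >>> (u + 2 ^ g * v)) &&& 1 = 1 → evp u v = true →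
      trf k g γ u v = 0) : Lk t m (xOf g rep γ) U U' := by
  intro D hD hU
  have hfl : fullN m t = ds t m (fun _ => 1) := (ds_one t m ht).symm
  refine chk_sound h2 ht (T := mkT (rowZ g t cls (fullN m t) cb Z)
      (2 * g) 0 1) (H := 1) (f2 := 2 * fullN m t) (jb := jb) (mb := mb) ?_ ?_ l U D hD hU hchk
  · intro j
    obtain ⟨i, hi⟩ := getT_mkT (rowZ g t cls (fullN m t) cb Z) (2 * g) 0 1 j
    rw [hi]
    exact rowZ_good h2 hγ hg h hfl hZ i
  · rw [hfl]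

end link

end Helper47.RK
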