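import Pool.Agent.Helper47.RK.Brg
import Pool.Agent.Helper47.RK.Tab6
import Pool.Agent.Helper47.RK.Link

/-!
# Project RG/RA (MP_16b052_ag): the bridge for `g = 6` (`b = 0` and condition `(A)`)
-/

namespace Helper47.RK

open Finset Helper49.RA

universe u

/-- all codes satisfy `p` -/
noncomputable def all64 (p : ℕ → Bool) : Bool :=
  allB (fun v => allB (fun u => p (Nat.add u (Nat.mul 64 v))) 64) 64

lemma all64_spec {p : ℕ → Bool} (h : all64 p = true) {u v : ℕ} (hu : u < 64) (hv : v < 64) :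
    p (u + 64 * v) = true := allB_spec (allB_spec h v hv) u hu

/-- the points of `Z` are zeros of the word -/
noncomputable def zTestB (Z : ℕ) : Bool :=
  all64 fun a => Bool.rec true (Nat.beq (dg [] a false) 2)
    (Nat.beq (Nat.land (Nat.shiftRight Z a) 1) 1)

/-- the points of `Z` are in the support of the word -/
noncomputable def zTestA (Z : ℕ) : Bool :=
  all64 fun a => Bool.rec true (Bool.rec true false (Nat.beq (dg [] a false) 2))
    (Nat.beq (Nat.land (Nat.shiftRight Z a) 1) 1)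

lemma dg_nil {a : ℕ} (ha : a < 4096) : ((dg [] a false : ℕ) : ℤ) = 2 + fN a := by
  have h := dg_spec [] (by simp) a false ha
  simpa [tfsN] using h

lemma zTestB_spec {Z : ℕ} (h : zTestB Z = true) {u v : ℕ} (hu : u < 64) (hv : v < 64)
    (hZ : (Z >>> (u + 64 * v)) &&& 1 = 1) : fN (u + 64 * v) = 0 := by
  have h1 := all64_spec h hu hv
  have h3 : Nat.beq (Nat.land (Nat.shiftRight Z (u + 64 * v)) 1) 1 = true := by
    have : Nat.land (Nat.shiftRight Z (u + 64 * v)) 1 = 1 := hZ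
    rw [this]
    rfl
  have h4 : (Bool.rec true (Nat.beq (dg [] (u + 64 * v) false) 2)
    (Nat.beq (Nat.land (Nat.shiftRight Z (u + 64 * v)) 1) 1) : Bool) = true := h1
  rw [h3] at h4
  have h5 : Nat.beq (dg [] (u + 64 * v) false) 2 = true := h4
  have h6 := dg_nil (a := u + 64 * v) (by omega)
  rw [Nat.eq_of_beq_eq_true h5] at h6
  push_cast at h6
  linarith

lemma zTestA_spec {Z : ℕ} (h : zTestA Z = true) {u v : ℕ} (hu : u < 64) (hv : v < 64)
    (hZ : (Z >>> (u + 64 * v)) &&& 1 = 1) : fN (u + 64 * v) ≠ 0 := by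
  have h1 := all64_spec h hu hv
  have h3 : Nat.beq (Nat.land (Nat.shiftRight Z (u + 64 * v)) 1) 1 = true := by
    have : Nat.land (Nat.shiftRight Z (u + 64 * v)) 1 = 1 := hZ
    rw [this]
    rfl
  have h4 : (Bool.rec true (Bool.rec true false (Nat.beq (dg [] (u + 64 * v) false) 2))
    (Nat.beq (Nat.land (Nat.shiftRight Z (u + 64 * v)) 1) 1) : Bool) = true := h1
  rw [h3] at h4
  intro h0
  have h6 := dg_nil (a := u + 64 * v) (by omega)
  rw [h0] at h6
  have h7 : dg [] (u + 64 * v) false = 2 := by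
    have : ((dg [] (u + 64 * v) false : ℕ) : ℤ) = 2 := by rw [h6]; norm_num
    exact_mod_cast this
  rw [h7] at h4
  exact absurd h4 (by decide)

/-- no points with `v ≥ 64` -/
lemma bit_lt6 {Z u v : ℕ} (hZlt : Nat.log2 Z < 4096) (hZ : (Z >>> (u + 64 * v)) &&& 1 = 1) :
    v < 64 := by
  by_contra hv
  have h0 : Z < 2 ^ (Nat.log2 Z + 1) := Nat.lt_log2_self
  have h1 : Z < 2 ^ (u + 64 * v) := by
    refine lt_of_lt_of_le h0 (Nat.pow_le_pow_right (by norm_num) ?_)
    omega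
  rw [Nat.shiftRight_eq_div_pow, Nat.div_eq_of_lt h1] at hZ
  simp at hZ

section g6

variable {k : Type u} [Field k] {γ : K6 → K6 → k}

lemma trf6 (hBR : BRfacts) {u v : ℕ} (hv : v < 64) :
    trf k 6 (natTab γ) u v = four k e6 γ (enc u) (enc v) := by
  rw [four_natTab hBR hv]
  rfl

lemma all_zero6 (hBR : BRfacts) (hs : IsSig k 6 (natTab γ))
    (hx : ∀ c < 715, xOf 6 rep6 (natTab γ) c = 0) : ∀ u w, γ u w = 0 := by
  refine enc_surj2 hBR fun u w hu hw => ?_
  rw [← xOf_cls hs tab6 (by simpa using hu) (by simpa using hw)]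
  exact hx _ (cls_lt tab6 (by simpa using hu) (by simpa using hw))

end g6

/-- **TabA from the parts of the chain.** -/
theorem tabA_of (hBR : BRfacts) (k : Type u) [Field k] {Z : ℕ} (hZlt : Nat.log2 Z < 4096)
    (hz : zTestA Z = true)
    (hx : ∀ γ : ℕ → ℕ → k, IsSig k 6 γ →
      (∀ u v, u < 2 ^ 6 → (Z >>> (u + 2 ^ 6 * v)) &&& 1 = 1 → evp u v = true →
        trf k 6 γ u v = 0) → ∀ c < 715, xOf 6 rep6 γ c = 0) : TabA k e6 f0 := by
  intro γ hγ hfour
  have hs : IsSig k 6 (natTab γ) := isSig_natTab (b := 0) rfl hγ 6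
  refine all_zero6 hBR hs (hx _ hs ?_)
  intro u v hu hbit _
  have hu' : u < 64 := by simpa using hu
  have hbit' : (Z >>> (u + 64 * v)) &&& 1 = 1 := by simpa using hbit
  have hv : v < 64 := bit_lt6 hZlt hbit'
  rw [trf6 hBR hv]
  have h1 := zTestA_spec hz hu' hv hbit'
  have h2 := hfour (encE (u + 64 * v)) (by rw [hBR.f _ (by omega)]; exact h1)
  rw [GOODaux.encE_pair hu'] at h2
  exact h2

/-- **TabB for `b = 0` from the parts of the chain.** -/
theorem tabB0_of (hBR : BRfacts) (k : Type u) [Field k] {Z u0 w0 : ℕ}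
    (hZlt : Nat.log2 Z < 4096) (hz : zTestB Z = true)
    (hx : ∀ γ : ℕ → ℕ → k, IsSig k 6 γ →
      (∀ u v, u < 2 ^ 6 → (Z >>> (u + 2 ^ 6 * v)) &&& 1 = 1 → evp u v = true →
        trf k 6 γ u v = 0) → γ u0 w0 = 0 → ∀ c < 715, xOf 6 rep6 γ c = 0) :
    TabB k e6 f0 0 (enc u0, enc w0) := by
  intro γ hγ hfour h0
  have hs : IsSig k 6 (natTab γ) := isSig_natTab (b := 0) rfl hγ 6
  refine all_zero6 hBR hs (hx _ hs ?_ h0)
  intro u v hu hbit hev
  have hu' : u < 64 := by simpa using hu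
  have hbit' : (Z >>> (u + 64 * v)) &&& 1 = 1 := by simpa using hbit
  have hv : v < 64 := bit_lt6 hZlt hbit'
  rw [trf6 hBR hv]
  have h1 := zTestB_spec hz hu' hv hbit'
  have hq : qq e6 (encE (u + 64 * v)) = 1 := by
    rw [GOODaux.encE_pair hu']
    show e6 (enc u) (enc v) = 1
    rw [hBR.e u v hu' hv, eN_evp hev]
  have h2 := hfour (encE (u + 64 * v)) hq (by rw [add_zero]; exact hq)
    (by rw [hBR.f _ (by omega)]; exact h1) (by rw [add_zero, hBR.f _ (by omega)]; exact h1)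
  rw [GOODaux.encE_pair hu'] at h2
  simp only [Prod.snd_zero, add_zero] at h2
  exact h2

lemma gamF_zero (hBR : BRfacts) {u0 w0 : ℕ} (hu0 : u0 < 64) (hw0 : w0 < 64) :
    gamF e6 f0 0 (enc u0) (enc w0) = 4 * sigT fN u0 w0 := by
  rw [← wordOf_fN]
  have he : ∀ x : K6, e6 0 x = 1 := by
    intro x
    obtain ⟨x', hx, rfl⟩ := GOODaux.enc_surj hBR x
    rw [← GOODaux.enc_zero hBR, hBR.e 0 x' (by norm_num) hx]
    unfold eN
    rw [Nat.zero_and]
    rfl
  unfold gamF
  simp only [Prod.fst_zero, Prod.snd_zero, add_zero, he]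
  rw [sig_wordOf hBR fN hu0 hw0]
  ring

/-- **Uniq for `b = 0`.** -/
theorem uniq0_of (hBR : BRfacts) (hCO : StCO.{u}) (hcode : IsCode e6 f0) (k : Type u) [Field k]
    (h2 : (2 : k) ≠ 0) {u0 w0 j : ℕ} (hu0 : u0 < 64) (hw0 : w0 < 64)
    (hs : sTest [] u0 w0 j = true) (hT : TabB k e6 f0 0 (enc u0, enc w0)) :
    Uniq k e6 f0 0 := by
  refine hCO k K6 e6 hBR.pair _ hcode 0 (enc u0, enc w0) hT ?_
  show ((gamF e6 f0 0 (enc u0) (enc w0) : ℤ) : k) ≠ 0
  rw [gamF_zero hBR hu0 hw0]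
  exact pow2_cast_ne h2 (sTest_spec (by simp) hu0 hs)

end Helper47.RK
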