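import Pool.Agent.Helper47.RK.Good

/-!
# Project RG/RA (MP_16b052_ag), kernel engine: the checking functions and their soundness

All functions are given by recursors and by the basic functions on numbers, which the kernel
computes directly.
-/

namespace Helper47.RK

open Finset

universe u

/-- binary trees of numbers -/
inductive Tr : Type
  | leaf : ℕ → Tr
  | node : Tr → Tr → Tr

/-- the tree of the values `f (p + s i)`, `i < 2^d` (lowest bit of `i` first) -/
noncomputable def mkT (f : ℕ → ℕ) (d : ℕ) : ℕ → ℕ → Tr :=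
  Nat.rec (fun p _ => Tr.leaf (f p))
    (fun _ ih p s => Tr.node (ih p (Nat.mul 2 s)) (ih (Nat.add p s) (Nat.mul 2 s))) d

/-- the value of a tree at a number -/
noncomputable def getT (T : Tr) : ℕ → ℕ :=
  Tr.rec (fun n _ => n) (fun _ _ ihl ihr j =>
    Bool.rec (ihr (Nat.shiftRight j 1)) (ihl (Nat.shiftRight j 1)) (Nat.beq (Nat.land j 1) 0)) T

lemma getT_mkT (f : ℕ → ℕ) (d : ℕ) : ∀ p s j, ∃ i, getT (mkT f d p s) j = f i := by
  induction d with
  | zero =>
    intro p s j
    exact ⟨p, rfl⟩
  | succ d ih =>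
    intro p s j
    have h : getT (mkT f (d + 1) p s) j =
        Bool.rec (getT (mkT f d (p + s) (2 * s)) (j >>> 1)) (getT (mkT f d p (2 * s)) (j >>> 1))
          (Nat.beq (Nat.land j 1) 0) := rfl
    rw [h]
    cases Nat.beq (Nat.land j 1) 0
    · exact ih _ _ _
    · exact ih _ _ _

/-- a linear combination of rows, given by the code words of `S`; offsets are added in `tot`;
`K` is the test of the result; `f2 = 2 H full` -/
noncomputable def comb (T : Tr) (H f2 jb mb n : ℕ) : ℕ → ℕ → ℕ → (ℕ → ℕ → Bool) → Bool :=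
  Nat.rec (fun _ acc tot K => K acc tot)
    (fun _ ih S acc tot K =>
      ih (Nat.shiftRight S (Nat.add (Nat.add jb mb) 1))
        (Nat.add acc (Nat.mul (Nat.mod (Nat.shiftRight S (Nat.add jb 1)) (Nat.pow 2 mb))
          (Bool.rec (Nat.sub f2 (getT T (Nat.mod S (Nat.pow 2 jb))))
            (getT T (Nat.mod S (Nat.pow 2 jb)))
            (Nat.beq (Nat.land (Nat.shiftRight S jb) 1) 0))))
        (Nat.add tot (Nat.mul (Nat.mod (Nat.shiftRight S (Nat.add jb 1)) (Nat.pow 2 mb)) H)) K) n

/-- the test at a pivot: `U` = previous pivots, `c` column, `e` exponent, `sg` sign -/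
noncomputable def piv (t U c e sg N tot : ℕ) : Bool :=
  Bool.rec false
    (Bool.rec false
      (Bool.rec
        (Nat.beq (Nat.mod (Nat.shiftRight N (Nat.mul t c)) (Nat.pow 2 t)) (Nat.add tot (Nat.pow 2 e)))
        (Nat.beq (Nat.add (Nat.mod (Nat.shiftRight N (Nat.mul t c)) (Nat.pow 2 t)) (Nat.pow 2 e)) tot)
        (Nat.beq sg 1))
      (Nat.beq (Nat.land N (Nat.mul (Nat.sub (Nat.pow 2 t) 1) U)) (Nat.mul tot U)))
    (Nat.ble (Nat.succ (Nat.mul 2 tot)) (Nat.pow 2 t))

/-- the chain of pivots; a list entry is `c (10 bits), e (6 bits), sg (1 bit), number of words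
(15 bits), words` -/
noncomputable def chk (T : Tr) (H f2 jb mb t m Ufin : ℕ) (l : List ℕ) : ℕ → Bool :=
  List.rec (fun U => Nat.beq U Ufin)
    (fun S _ ih U =>
      Bool.rec false
        (Bool.rec false (ih (Nat.add U (Nat.pow 2 (Nat.mul t (Nat.mod S 1024)))))
          (comb T H f2 jb mb (Nat.mod (Nat.shiftRight S 17) (Nat.pow 2 15)) (Nat.shiftRight S 32)
            0 0 (piv t U (Nat.mod S 1024) (Nat.mod (Nat.shiftRight S 10) 64)
              (Nat.mod (Nat.shiftRight S 16) 2))))
        (Nat.ble (Nat.succ (Nat.mod S 1024)) m)) l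

section sound

variable {k : Type u} [Field k] {t m : ℕ} {x : ℕ → k}

/-- equation with offset `H` -/
lemma good_stepH {tot N R H : ℕ} (h : Good t m x tot N) (hR : Good t m x H R) (μ : ℕ) :
    Good t m x (tot + μ * H) (N + μ * R) := by
  obtain ⟨d, hd, hd1, hd2⟩ := h
  obtain ⟨p, hp, hp1, hp2⟩ := hR
  refine ⟨fun c => d c + μ * p c, ?_, ?_, ?_⟩
  · rw [hd, hp, ds_mul, ds_add]
  · intro c hc
    have h1 := hd1 c hc
    have h2 := Nat.mul_le_mul_left μ (hp1 c hc)
    show d c + μ * p c ≤ 2 * (tot + μ * H)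
    nlinarith
  · have : ∀ c ∈ range m, (((d c + μ * p c : ℕ) : k) - ((tot + μ * H : ℕ) : k)) * x c =
        ((d c : k) - (tot : k)) * x c + (μ : k) * (((p c : k) - (H : k)) * x c) := by
      intro c _
      push_cast
      ring
    rw [sum_congr rfl this, sum_add_distrib, ← mul_sum, hd2, hp2]
    simp

lemma good_negH {R H : ℕ} (h : Good t m x H R) :
    Good t m x H (2 * H * ds t m (fun _ => 1) - R) := by
  obtain ⟨d, hd, hd1, hd2⟩ := h
  refine ⟨fun c => 2 * H - d c, ?_, ?_, ?_⟩
  · have : ds t m (fun c => 2 * H - d c) + ds t m d = 2 * H * ds t m (fun _ => 1) := by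
      rw [ds_add, ds_mul]
      apply ds_congr
      intro c hc
      have := hd1 c hc
      omega
    omega
  · intro c _
    show 2 * H - d c ≤ 2 * H
    omega
  · have : ∀ c ∈ range m, (((2 * H - d c : ℕ) : k) - (H : k)) * x c =
        -(((d c : k) - (H : k)) * x c) := by
      intro c hc
      have h1 := hd1 c (mem_range.1 hc)
      rw [Nat.cast_sub (by omega)]
      push_cast
      ring
    rw [sum_congr rfl this, sum_neg_distrib, hd2, neg_zero]

lemma comb_sound {T : Tr} {H f2 jb mb : ℕ} (hT : ∀ j, Good t m x H (getT T j))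
    (hf2 : f2 = 2 * H * ds t m (fun _ => 1)) (n : ℕ) :
    ∀ (S acc tot : ℕ) (K : ℕ → ℕ → Bool), Good t m x tot acc →
      comb T H f2 jb mb n S acc tot K = true → ∃ N tot', Good t m x tot' N ∧ K N tot' = true := by
  induction n with
  | zero =>
    intro S acc tot K hG h
    exact ⟨acc, tot, hG, h⟩
  | succ n ih =>
    intro S acc tot K hG h
    have h1 : comb T H f2 jb mb (n + 1) S acc tot K =
        comb T H f2 jb mb n (S >>> (jb + mb + 1))
          (acc + ((S >>> (jb + 1)) % 2 ^ mb) *
            (Bool.rec (f2 - getT T (S % 2 ^ jb)) (getT T (S % 2 ^ jb))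
              (Nat.beq (Nat.land (S >>> jb) 1) 0)))
          (tot + ((S >>> (jb + 1)) % 2 ^ mb) * H) K := rfl
    rw [h1] at h
    refine ih _ _ _ _ ?_ h
    apply good_stepH hG
    cases Nat.beq (Nat.land (S >>> jb) 1) 0
    · show Good t m x H (f2 - getT T (S % 2 ^ jb))
      rw [hf2]
      exact good_negH (hT _)
    · exact hT _

lemma piv_sound {U c e sg N tot : ℕ} (h : piv t U c e sg N tot = true) :
    2 * tot < 2 ^ t ∧ N &&& ((2 ^ t - 1) * U) = tot * U ∧
      ((N >>> (t * c)) % 2 ^ t = tot + 2 ^ e ∨ (N >>> (t * c)) % 2 ^ t + 2 ^ e = tot) := by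
  unfold piv at h
  cases h1 : Nat.ble (Nat.succ (Nat.mul 2 tot)) (Nat.pow 2 t) with
  | false =>
    rw [h1] at h
    exact absurd h (by simp)
  | true =>
    rw [h1] at h
    cases h2 : Nat.beq (Nat.land N (Nat.mul (Nat.sub (Nat.pow 2 t) 1) U)) (Nat.mul tot U) with
    | false =>
      rw [h2] at h
      exact absurd h (by simp)
    | true =>
      rw [h2] at h
      refine ⟨Nat.le_of_ble_eq_true h1, Nat.eq_of_beq_eq_true h2, ?_⟩
      cases h3 : Nat.beq sg 1 with
      | false =>
        rw [h3] at h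
        exact Or.inl (Nat.eq_of_beq_eq_true h)
      | true =>
        rw [h3] at h
        exact Or.inr (Nat.eq_of_beq_eq_true h)

theorem chk_sound (h2 : (2 : k) ≠ 0) (ht : 1 ≤ t) {T : Tr} {H f2 jb mb Ufin : ℕ}
    (hT : ∀ j, Good t m x H (getT T j)) (hf2 : f2 = 2 * H * ds t m (fun _ => 1)) (l : List ℕ) :
    ∀ (U : ℕ) (D : Finset ℕ), (∀ c ∈ D, c < m) → U = us t m D →
      chk T H f2 jb mb t m Ufin l U = true →
      ∃ D' : Finset ℕ, (∀ c ∈ D', c < m) ∧ Ufin = us t m D' ∧
        ((∀ c < m, c ∉ D' → x c = 0) → ∀ c < m, c ∉ D → x c = 0) := by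
  induction l with
  | nil =>
    intro U D hD hU h
    refine ⟨D, hD, ?_, fun hh => hh⟩
    rw [← hU]
    exact (Nat.eq_of_beq_eq_true h).symm
  | cons S l ih =>
    intro U D hD hU h
    have h1 : chk T H f2 jb mb t m Ufin (S :: l) U =
        Bool.rec false
          (Bool.rec false (chk T H f2 jb mb t m Ufin l (U + 2 ^ (t * (S % 1024))))
            (comb T H f2 jb mb ((S >>> 17) % 2 ^ 15) (S >>> 32) 0 0
              (piv t U (S % 1024) ((S >>> 10) % 64) ((S >>> 16) % 2))))
          (Nat.ble (Nat.succ (S % 1024)) m) := rfl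
    rw [h1] at h
    cases h3 : Nat.ble (Nat.succ (S % 1024)) m with
    | false =>
      rw [h3] at h
      exact absurd h (by simp)
    | true =>
      rw [h3] at h
      cases h4 : comb T H f2 jb mb ((S >>> 17) % 2 ^ 15) (S >>> 32) 0 0
          (piv t U (S % 1024) ((S >>> 10) % 64) ((S >>> 16) % 2)) with
      | false =>
        rw [h4] at h
        exact absurd h (by simp)
      | true =>
        rw [h4] at h
        have hc : S % 1024 < m := Nat.le_of_ble_eq_true h3
        obtain ⟨N, tot, hG, hK⟩ := comb_sound hT hf2 _ _ _ _ _ good_zero h4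
        obtain ⟨p1, p2, p3⟩ := piv_sound hK
        rw [hU] at p2
        -- the column is new
        have hcD : S % 1024 ∉ D := by
          obtain ⟨d, hN, hd1, _⟩ := hG
          intro hmem
          have hd : ∀ c < m, d c < 2 ^ t := fun c hc => lt_of_le_of_lt (hd1 c hc) p1
          have h5 := eq_tot_of_mask ht hN hd (by omega) p2 hc hmem
          rw [shift_digit, hN, ds_digit hd hc, h5] at p3
          have h6 : 0 < 2 ^ ((S >>> 10) % 64) := by positivity
          omega
        have hU' : U + 2 ^ (t * (S % 1024)) = us t m (insert (S % 1024) D) := by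
          rw [us_insert hc hcD, hU]
        have hD' : ∀ c ∈ insert (S % 1024) D, c < m := by
          intro c hc'
          rcases mem_insert.1 hc' with h7 | h7
          · rw [h7]; exact hc
          · exact hD c h7
        obtain ⟨D', q1, q2, q3⟩ := ih _ _ hD' hU' h
        refine ⟨D', q1, q2, ?_⟩
        intro hx
        have hx2 := q3 hx
        have hx3 : x (S % 1024) = 0 := by
          refine (pivot_step h2 ht hG p1 p2 hc p3 ?_).1
          intro i hi hiD hic
          apply hx2 i hi
          intro hmem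
          rcases mem_insert.1 hmem with h7 | h7
          · exact hic h7
          · exact hiD h7
        intro c hcm hcD2
        by_cases hc2 : c = S % 1024
        · rw [hc2]
          exact hx3
        · apply hx2 c hcm
          intro hmem
          rcases mem_insert.1 hmem with h7 | h7
          · exact hc2 h7
          · exact hcD2 h7

lemma us_full (t m : ℕ) : us t m (range m) = ds t m (fun _ => 1) := by
  unfold us
  apply ds_congr
  intro c hc
  simp [hc]

lemma us_inj (ht : 1 ≤ t) {D D' : Finset ℕ} (hD : ∀ c ∈ D, c < m) (hD' : ∀ c ∈ D', c < m)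
    (h : us t m D = us t m D') : D = D' := by
  have hB : 2 ≤ 2 ^ t := by
    calc 2 = 2 ^ 1 := rfl
      _ ≤ 2 ^ t := Nat.pow_le_pow_right (by norm_num) ht
  have key : ∀ c < m, (c ∈ D ↔ c ∈ D') := by
    intro c hc
    have h1 := congrArg (fun z => z / 2 ^ (t * c) % 2 ^ t) h
    unfold us at h1
    rw [ds_digit (fun i _ => by split_ifs <;> omega) hc,
      ds_digit (fun i _ => by split_ifs <;> omega) hc] at h1
    by_cases h3 : c ∈ D <;> by_cases h4 : c ∈ D' <;> simp_all
  ext c
  constructor
  · intro hc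
    exact (key c (hD c hc)).1 hc
  · intro hc
    exact (key c (hD' c hc)).2 hc

/-- a complete chain -/
theorem chk_full (h2 : (2 : k) ≠ 0) (ht : 1 ≤ t) {T : Tr} {H f2 jb mb : ℕ}
    (hT : ∀ j, Good t m x H (getT T j)) (hf2 : f2 = 2 * H * ds t m (fun _ => 1)) {l : List ℕ}
    (h : chk T H f2 jb mb t m (ds t m (fun _ => 1)) l 0 = true) : ∀ c < m, x c = 0 := by
  obtain ⟨D', h1, h3, h4⟩ := chk_sound h2 ht hT hf2 l 0 ∅ (by simp) us_empty.symm h
  have h5 : D' = range m := by
    apply us_inj ht h1 (fun c hc => mem_range.1 hc)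
    rw [← h3, us_full]
  subst h5
  intro c hc
  exact h4 (fun c hc hc' => absurd (mem_range.2 hc) hc') c hc (by simp)

end sound

end Helper47.RK
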