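import Pool.Agent.Helper47.RK.Brg6
import Pool.Agent.Helper47.RK.CB1
import Pool.Agent.Helper47.RK.CB2
import Pool.Agent.Helper47.RK.CB3
import Pool.Agent.Helper47.RK.CB4
import Pool.Agent.Helper47.RK.CB5

/-!
# Project RG/RA (MP_16b052_ag): `Uniq` for `b = 0` over every field of characteristic not two
-/

namespace Helper47.RK

open Helper49.RA

universe u

/-- **TabB for `b = 0`.** -/
theorem tabB0_final (hBR : BRfacts) (k : Type u) [Field k] (h2 : (2 : k) ≠ 0) :
    TabB k e6 f0 0 (enc 26, enc 39) := by
  refine tabB0_of hBR k ZB_lt ZB_ok ?_
  intro γ hγ hZ h0
  refine Lk.zero (t := 13) (by norm_num) ?_
  have hfull : fullN 715 13 = 0x40020010008004002001000800400200100080040020010008004002001000800400200100080040020010008004002001000800400200100080040020010008004002001000800400200100080040020010008004002001000800400200100080040020010008004002001000800400200100080040020010008004002001000800400200100080040020010008004002001000800400200100080040020010008004002001000800400200100080040020010008004002001000800400200100080040020010008004002001000800400200100080040020010008004002001000800400200100080040020010008004002001000800400200100080040020010008004002001000800400200100080040020010008004002001000800400200100080040020010008004002001000800400200100080040020010008004002001000800400200100080040020010008004002001000800400200100080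040020010008004002001000800400200100080040020010008004002001000800400200100080040020010008004002001000800400200100080040020010008004002001000800400200100080040020010008004002001000800400200100080040020010008004002001000800400200100080040020010008004002001000800400200100080040020010008004002001000800400200100080040020010008004002001000800400200100080040020010008004002001000800400200100080040020010008004002001000800400200100080040020010008004002001000800400200100080040020010008004002001000800400200100080040020010008004002001000800400200100080040020010008004002001000800400200100080040020010008004002001000800400200100080040020010008004002001000800400200100080040020010008004002001000800400200100080040020010008004002001000800400200100080040020010008004002001000800400200100080040020010008004002001000800400200100080040020010008004002001000800400200100080040020010008004002001000800400200100080040020010008004002001000800400200100080040020010008004002001000800400200100080040020010008004002001000800400200100080040020010008004002001000800400200100080040020010008004002001000800400200100080040020010008004002001000800400200100080040020010008004002001000800400200100080040020010008004002001000800400200100080040020010008004002001000800400200100080040020010008004002001000800400200100080040020010008004002001000800400200100080040020010008004002001000800400200100080040020010008004002001000800400200100080040020010008004002001000800400200100080040020010008004002001000800400200100080040020010008004002001000800400200100080040020010008004002001000800400200100080040020010008004002001000800400200100080040020010008004002001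 := by decide +kernel
  rw [hfull]
  have hg : 6 ≤ 6 := le_rfl
  have ht : 1 ≤ 13 := by norm_num
  have hu : 26 < 2 ^ 6 := by norm_num
  have hw : 39 < 2 ^ 6 := by norm_num
  have p1 := partJ_sound h2 hγ hg ht tab6 hu hw partB1 hZ h0
  have p2 := partJ_sound h2 hγ hg ht tab6 hu hw partB2 hZ h0
  have p3 := partJ_sound h2 hγ hg ht tab6 hu hw partB3 hZ h0
  have p4 := partJ_sound h2 hγ hg ht tab6 hu hw partB4 hZ h0
  have p5 := partJ_sound h2 hγ hg ht tab6 hu hw partB5 hZ h0
  exact (((p1.trans p2).trans p3).trans p4).trans p5

/-- **Uniq for `b = 0`.** -/
theorem uniq0_final (hBR : BRfacts) (hCO : StCO.{u}) (hcode : IsCode e6 f0) (k : Type u)
    [Field k] (h2 : (2 : k) ≠ 0) : Uniq k e6 f0 0 :=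
  uniq0_of hBR hCO hcode k h2 (by norm_num) (by norm_num) ZB_s (tabB0_final hBR k h2)

end Helper47.RK
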