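import Pool.Agent.Helper47.RK.Brg
import Pool.Agent.Helper47.RK.CO1
import Pool.Agent.Helper47.RK.CO2
import Pool.Agent.Helper47.RK.CO3
import Pool.Agent.Helper47.RK.CO4
import Pool.Agent.Helper47.RK.CO5
import Pool.Agent.Helper47.RK.CO6
import Pool.Agent.Helper47.RK.CO7
import Pool.Agent.Helper47.RK.CO8
import Pool.Agent.Helper47.RK.CO9
import Pool.Agent.Helper47.RK.CO10
import Pool.Agent.Helper47.RK.CO11
import Pool.Agent.Helper47.RK.CO12
import Pool.Agent.Helper47.RK.CO13

/-!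
# Project RG/RA (MP_16b052_ag): all orbits have certificates
-/

namespace Helper47.RK

open Helper49.RA

theorem reps_ok : ∀ r ∈ reps6, OrbOK r := by
  have h : reps6 = [1, 2, 3, 4, 5, 6, 7, 10] ++ [12, 13, 14, 15, 18, 19, 20, 21] ++ [22, 23, 26, 28, 29, 30, 31, 36] ++ [37, 38, 39, 44, 46, 55, 62, 64] ++ [66, 67, 69, 70, 72, 74, 76, 77] ++ [78, 79, 82, 83, 85, 86, 87, 89] ++ [90, 91, 92, 93, 96, 97, 98, 101] ++ [104, 107, 111, 112, 114, 117, 124, 127] ++ [143, 147, 149, 150, 152, 160, 162, 169] ++ [171, 172, 186, 188, 193, 197, 198, 199] ++ [200, 222, 235, 242, 277, 298, 344, 377] ++ [378, 389, 391, 412, 428, 468, 478, 512] ++ [887, 1147] := rfl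
  rw [h]
  intro r hr
  simp only [List.mem_append] at hr
  rcases hr with (((((((((((hr | hr) | hr) | hr) | hr) | hr) | hr) | hr) | hr) | hr) | hr) | hr) | hr
  · exact okO1 r hr
  · exact okO2 r hr
  · exact okO3 r hr
  · exact okO4 r hr
  · exact okO5 r hr
  · exact okO6 r hr
  · exact okO7 r hr
  · exact okO8 r hr
  · exact okO9 r hr
  · exact okO10 r hr
  · exact okO11 r hr
  · exact okO12 r hr
  · exact okO13 r hr

end Helper47.RK
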