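import Pool.Agent.Helper47.RK.FinA
import Pool.Agent.Helper47.RK.FinB
import Pool.Agent.Helper47.RK.Reps
import Pool.Agent.Helper49.RA.Asm

/-!
# Project RG/RA (MP_16b052_ag): the rigid local algebra over every algebraically closed field of
characteristic not two
-/

namespace Helper47.RK

open Helper49.RA

universe u

theorem code_f0 : IsCode e6 f0 := good'.{0}.2.1.code

theorem uniq_reps (k : Type u) [Field k] [IsAlgClosed k] (h2 : (2 : k) ≠ 0) :
    ∀ r ∈ reps6, Uniq k e6 f0 (encE r) :=
  fun r hr => (reps_ok r hr).uniq tR bR cO' code_f0 k h2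

theorem uniq_zero (k : Type u) [Field k] (h2 : (2 : k) ≠ 0) : Uniq k e6 f0 0 :=
  uniq0_final bR cO' code_f0 k h2

/-- **Main theorem.** -/
theorem rigid_local (k : Type u) [Field k] [IsAlgClosed k] (h2 : (2 : k) ≠ 0) :
    ∃ (A : Type u) (_ : CommRing A) (_ : Algebra k A) (_ : IsLocalRing A)
      (_ : Module.Finite k A), 2 ≤ Module.finrank k A ∧ Helper47.Rig.Rigid k A :=
  main_of k h2 (uniq_reps k h2) (uniq_zero k h2) (tabA_final bR k h2)

end Helper47.RK
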