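import Pool.Agent.Helper47.RK.Brg6
import Pool.Agent.Helper47.RK.CA1
import Pool.Agent.Helper47.RK.CA2
import Pool.Agent.Helper47.RK.CA3
import Pool.Agent.Helper47.RK.CA4
import Pool.Agent.Helper47.RK.CA5
import Pool.Agent.Helper47.RK.CA6
import Pool.Agent.Helper47.RK.CA7
import Pool.Agent.Helper47.RK.CA8

/-!
# Project RG/RA (MP_16b052_ag): condition `(A)` over every field of characteristic not two
-/

namespace Helper47.RK

open Helper49.RA

universe u

/-- **Condition (A).** -/
theorem tabA_final (hBR : BRfacts) (k : Type u) [Field k] (h2 : (2 : k) ≠ 0) :
    TabA k e6 f0 := by
  refine tabA_of hBR k ZA_lt ZA_ok ?_
  intro γ hγ hZ
  refine Lk.zero (t := 15) (by norm_num) ?_
  have hfull : fullN 715 15 = 0x400080010002000400080010002000400080010002000400080010002000400080010002000400080010002000400080010002000400080010002000400080010002000400080010002000400080010002000400080010002000400080010002000400080010002000400080010002000400080010002000400080010002000400080010002000400080010002000400080010002000400080010002000400080010002000400080010002000400080010002000400080010002000400080010002000400080010002000400080010002000400080010002000400080010002000400080010002000400080010002000400080010002000400080010002000400080010002000400080010002000400080010002000400080010002000400080010002000400080010002000400080010002000400080010002000400080010002000400080010002000400080010002000400080010002000400080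01000200040008001000200040008001000200040008001000200040008001000200040008001000200040008001000200040008001000200040008001000200040008001000200040008001000200040008001000200040008001000200040008001000200040008001000200040008001000200040008001000200040008001000200040008001000200040008001000200040008001000200040008001000200040008001000200040008001000200040008001000200040008001000200040008001000200040008001000200040008001000200040008001000200040008001000200040008001000200040008001000200040008001000200040008001000200040008001000200040008001000200040008001000200040008001000200040008001000200040008001000200040008001000200040008001000200040008001000200040008001000200040008001000200040008001000200040008001000200040008001000200040008001000200040008001000200040008001000200040008001000200040008001000200040008001000200040008001000200040008001000200040008001000200040008001000200040008001000200040008001000200040008001000200040008001000200040008001000200040008001000200040008001000200040008001000200040008001000200040008001000200040008001000200040008001000200040008001000200040008001000200040008001000200040008001000200040008001000200040008001000200040008001000200040008001000200040008001000200040008001000200040008001000200040008001000200040008001000200040008001000200040008001000200040008001000200040008001000200040008001000200040008001000200040008001000200040008001000200040008001000200040008001000200040008001000200040008001000200040008001000200040008001000200040008001000200040008001000200040008001000200040008001000200040008001000200040008001000200040008001000200040008001000200040008001000200040008001000200040008001000200040008001000200040008001000200040008001000200040008001000200040008001000200040008001000200040008001000200040008001000200040008001000200040008001000200040008001000200040008001000200040008001000200040008001000200040008001000200040008001000200040008001000200040008001000200040008001000200040008001000200040008001000200040008001000200040008001000200040008001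 := by decide +kernel
  rw [hfull]
  have hg : 6 ≤ 6 := le_rfl
  have ht : 1 ≤ 15 := by norm_num
  have p1 := partZ_sound h2 hγ hg ht tab6 partA1 hZ
  have p2 := partZ_sound h2 hγ hg ht tab6 partA2 hZ
  have p3 := partZ_sound h2 hγ hg ht tab6 partA3 hZ
  have p4 := partZ_sound h2 hγ hg ht tab6 partA4 hZ
  have p5 := partZ_sound h2 hγ hg ht tab6 partA5 hZ
  have p6 := partZ_sound h2 hγ hg ht tab6 partA6 hZ
  have p7 := partZ_sound h2 hγ hg ht tab6 partA7 hZ
  have p8 := partZ_sound h2 hγ hg ht tab6 partA8 hZ
  exact ((((((p1.trans p2).trans p3).trans p4).trans p5).trans p6).trans p7).trans p8

end Helper47.RK
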