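import Pool.Agent.Helper47.RK.Dig

/-!
# Project RG/RA (MP_16b052_ag), kernel engine: packed equations
-/

namespace Helper47.RK

open Finset

universe u

variable {k : Type u} [Field k]

/-- `N` is the packed form (offset `tot`) of an equation which holds for `x` -/
def Good (t m : ℕ) (x : ℕ → k) (tot N : ℕ) : Prop :=
  ∃ d : ℕ → ℕ, N = ds t m d ∧ (∀ c < m, d c ≤ 2 * tot) ∧
    ∑ c ∈ range m, ((d c : k) - (tot : k)) * x c = 0

variable {t m : ℕ} {x : ℕ → k}

lemma good_zero : Good t m x 0 0 := ⟨fun _ => 0, by simp [ds], by simp, by simp⟩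

lemma good_step {tot N R : ℕ} (h : Good t m x tot N) (hR : Good t m x 1 R) (μ : ℕ) :
    Good t m x (tot + μ) (N + μ * R) := by
  obtain ⟨d, hd, hd1, hd2⟩ := h
  obtain ⟨p, hp, hp1, hp2⟩ := hR
  refine ⟨fun c => d c + μ * p c, ?_, ?_, ?_⟩
  · rw [hd, hp, ds_mul, ds_add]
  · intro c hc
    have h1 := hd1 c hc
    have h2 := Nat.mul_le_mul_left μ (hp1 c hc)
    show d c + μ * p c ≤ 2 * (tot + μ)
    linarith
  · have : ∀ c ∈ range m, (((d c + μ * p c : ℕ) : k) - ((tot + μ : ℕ) : k)) * x c =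
        ((d c : k) - (tot : k)) * x c + (μ : k) * (((p c : k) - ((1 : ℕ) : k)) * x c) := by
      intro c _
      push_cast
      ring
    rw [sum_congr rfl this, sum_add_distrib, ← mul_sum, hd2, hp2]
    simp

lemma good_full : Good t m x 1 (ds t m (fun _ => 1)) := by
  refine ⟨fun _ => 1, rfl, ?_, ?_⟩
  · intro c _
    show 1 ≤ 2 * 1
    norm_num
  · apply sum_eq_zero
    intro c _
    simp

lemma good_neg {R : ℕ} (h : Good t m x 1 R) : Good t m x 1 (2 * ds t m (fun _ => 1) - R) := by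
  obtain ⟨d, hd, hd1, hd2⟩ := h
  refine ⟨fun c => 2 - d c, ?_, ?_, ?_⟩
  · have : ds t m (fun c => 2 - d c) + ds t m d = 2 * ds t m (fun _ => 1) := by
      rw [ds_add, ds_mul]
      apply ds_congr
      intro c hc
      have := hd1 c hc
      omega
    omega
  · intro c _
    show 2 - d c ≤ 2 * 1
    omega
  · have : ∀ c ∈ range m, (((2 - d c : ℕ) : k) - ((1 : ℕ) : k)) * x c =
        -(((d c : k) - ((1 : ℕ) : k)) * x c) := by
      intro c hc
      have h1 := hd1 c (mem_range.1 hc)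
      rw [Nat.cast_sub (by omega)]
      push_cast
      ring
    rw [sum_congr rfl this, sum_neg_distrib, hd2, neg_zero]

lemma good_unit {c : ℕ} (hc : c < m) (hx : x c = 0) :
    Good t m x 1 (ds t m (fun _ => 1) + 2 ^ (t * c)) := by
  refine ⟨fun i => 1 + if i = c then 1 else 0, ?_, ?_, ?_⟩
  · rw [← ds_indicator hc, ds_add]
  · intro i _
    show (1 + if i = c then 1 else 0) ≤ 2 * 1
    split_ifs <;> omega
  · apply sum_eq_zero
    intro i _
    by_cases h : i = c
    · rw [h, hx, mul_zero]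
    · simp [h]

/-- indicator number of a finite set of columns -/
def us (t m : ℕ) (D : Finset ℕ) : ℕ := ds t m (fun c => if c ∈ D then 1 else 0)

lemma us_empty : us t m ∅ = 0 := by
  unfold us ds
  simp

lemma us_insert {D : Finset ℕ} {c : ℕ} (hc : c < m) (hD : c ∉ D) :
    us t m (insert c D) = us t m D + 2 ^ (t * c) := by
  unfold us
  rw [← ds_indicator (t := t) hc, ds_add]
  apply ds_congr
  intro i _
  by_cases h : i = c
  · subst h
    simp [hD]
  · simp [h]

lemma shift_digit {N : ℕ} (c : ℕ) : (N >>> (t * c)) % 2 ^ t = N / 2 ^ (t * c) % 2 ^ t := by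
  rw [Nat.shiftRight_eq_div_pow]

/-- digits of a masked number -/
lemma mask_digit {N M c : ℕ} : (N &&& M) / 2 ^ (t * c) % 2 ^ t =
    (N / 2 ^ (t * c) % 2 ^ t) &&& (M / 2 ^ (t * c) % 2 ^ t) := by
  rw [← Nat.shiftRight_eq_div_pow, ← Nat.shiftRight_eq_div_pow, ← Nat.shiftRight_eq_div_pow,
    Nat.shiftRight_and_distrib, Nat.and_mod_two_pow]

lemma eq_tot_of_mask {tot N : ℕ} {d : ℕ → ℕ} {D : Finset ℕ} (ht : 1 ≤ t) (hN : N = ds t m d)
    (hd : ∀ c < m, d c < 2 ^ t) (htot : tot < 2 ^ t)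
    (h : N &&& ((2 ^ t - 1) * us t m D) = tot * us t m D) {c : ℕ} (hc : c < m) (hcD : c ∈ D) :
    d c = tot := by
  have hB : 2 ≤ 2 ^ t := by
    calc 2 = 2 ^ 1 := rfl
      _ ≤ 2 ^ t := Nat.pow_le_pow_right (by norm_num) ht
  have h1 := congrArg (fun z => z / 2 ^ (t * c) % 2 ^ t) h
  rw [mask_digit, hN, ds_digit hd hc] at h1
  unfold us at h1
  rw [ds_mul, ds_mul, ds_digit _ hc, ds_digit _ hc, if_pos hcD, mul_one, mul_one,
    Nat.and_two_pow_sub_one_eq_mod, Nat.mod_eq_of_lt (hd c hc)] at h1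
  · exact h1
  · intro i _
    split_ifs <;> omega
  · intro i _
    split_ifs <;> omega

/-- the pivot step -/
lemma pivot_step (h2 : (2 : k) ≠ 0) {tot N c e : ℕ} {D : Finset ℕ} (ht : 1 ≤ t)
    (hG : Good t m x tot N) (hbound : 2 * tot < 2 ^ t)
    (hmask : N &&& ((2 ^ t - 1) * us t m D) = tot * us t m D) (hc : c < m)
    (hdig : (N >>> (t * c)) % 2 ^ t = tot + 2 ^ e ∨ (N >>> (t * c)) % 2 ^ t + 2 ^ e = tot)
    (hrest : ∀ i < m, i ∉ D → i ≠ c → x i = 0) : x c = 0 ∧ c ∉ D := by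
  obtain ⟨d, hN, hd1, hd2⟩ := hG
  have hd : ∀ c < m, d c < 2 ^ t := fun c hc => lt_of_le_of_lt (hd1 c hc) hbound
  have hdc : (N >>> (t * c)) % 2 ^ t = d c := by
    rw [shift_digit, hN, ds_digit hd hc]
  rw [hdc] at hdig
  have hcD : c ∉ D := by
    intro h
    have := eq_tot_of_mask ht hN hd (by omega) hmask hc h
    have h3 : 0 < 2 ^ e := by positivity
    omega
  refine ⟨?_, hcD⟩
  have h3 : ∑ i ∈ range m, ((d i : k) - (tot : k)) * x i = ((d c : k) - (tot : k)) * x c := by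
    apply sum_eq_single c
    · intro i hi hic
      by_cases hiD : i ∈ D
      · rw [eq_tot_of_mask ht hN hd (by omega) hmask (mem_range.1 hi) hiD, sub_self, zero_mul]
      · rw [hrest i (mem_range.1 hi) hiD hic, mul_zero]
    · intro h
      exact absurd (mem_range.2 hc) h
  rw [h3] at hd2
  rcases mul_eq_zero.1 hd2 with h4 | h4
  · exfalso
    have h5 : ((2 : k)) ^ e = 0 := by
      rcases hdig with h | h
      · rw [h] at h4
        push_cast at h4
        linear_combination h4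
      · rw [← h] at h4
        push_cast at h4
        linear_combination -h4
    exact h2 (eq_zero_of_pow_eq_zero h5)
  · exact h4

end Helper47.RK
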