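import Pool.Agent.Helper47.RK.Check

/-!
# Project RG/RA (MP_16b052_ag), kernel engine: the rows of the sigma tables

Vectors of `F_2^g` (`g ≤ 6`) are numbers `< 2^g`, addition is `^^^`.
-/

namespace Helper47.RK

open Finset

universe u

/-- `true` iff the number of common binary digits of `v`, `w` (`< 64`) is even -/
def evp (v w : ℕ) : Bool :=
  Nat.beq 0 (Nat.land (Nat.shiftRight 0x6996966996696996 (Nat.land v w)) 1)

/-- the sign -/
def sg (k : Type u) [Field k] (v w : ℕ) : k := if evp v w then 1 else -1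

/-- sigma tables -/
structure IsSig (k : Type u) [Field k] (g : ℕ) (γ : ℕ → ℕ → k) : Prop where
  s1 : ∀ u w, u < 2 ^ g → w < 2 ^ g → γ u w = γ w u
  s2 : ∀ u w, u < 2 ^ g → w < 2 ^ g → γ u w = γ u (u ^^^ w)

/-- the transform of a table at the point `(u, v)` -/
def trf (k : Type u) [Field k] (g : ℕ) (γ : ℕ → ℕ → k) (u v : ℕ) : k :=
  ∑ w ∈ range (2 ^ g), sg k v w * γ u w

/-- the class of `(u, w)` -/
def clsAt (cls cb g u w : ℕ) : ℕ :=
  Nat.mod (Nat.shiftRight cls (Nat.mul cb (Nat.add u (Nat.mul w (Nat.pow 2 g))))) (Nat.pow 2 cb)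

/-- the inner loop of a row -/
noncomputable def rowR (g t cls cb u v n : ℕ) : ℕ → ℕ :=
  Nat.rec (fun acc => acc) (fun w ih acc =>
    ih (Bool.rec acc
      (Bool.rec (Nat.sub acc (Nat.pow 2 (Nat.mul t (clsAt cls cb g u w))))
        (Nat.add acc (Nat.pow 2 (Nat.mul t (clsAt cls cb g u w))))
        (evp v w))
      (Nat.ble w (Nat.xor u w)))) n

/-- rows of the points of the bit set `Z` (point `(u,v)` has number `u + 2^g v`), other numbers
have the zero row -/
noncomputable def rowZ (g t cls fl cb Z j : ℕ) : ℕ :=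
  Bool.rec fl
    (Bool.rec fl
      (rowR g t cls cb (Nat.mod j (Nat.pow 2 g)) (Nat.shiftRight j g) (Nat.pow 2 g) fl)
      (evp (Nat.mod j (Nat.pow 2 g)) (Nat.shiftRight j g)))
    (Nat.beq (Nat.land (Nat.shiftRight Z j) 1) 1)

/-- the same with the unit row of column `c0` at the number `j0` -/
noncomputable def rowJ (g t cls fl cb Z j0 c0 j : ℕ) : ℕ :=
  Bool.rec (rowZ g t cls fl cb Z j) (Nat.add fl (Nat.pow 2 (Nat.mul t c0))) (Nat.beq j j0)

/-- all numbers below `n` satisfy `f` -/
noncomputable def allB (f : ℕ → Bool) (n : ℕ) : Bool :=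
  Nat.rec true (fun i ih => Bool.rec false ih (f i)) n

lemma allB_spec {f : ℕ → Bool} {n : ℕ} (h : allB f n = true) : ∀ i < n, f i = true := by
  induction n with
  | zero =>
    intro i hi
    omega
  | succ n ih =>
    have h1 : allB f (n + 1) = Bool.rec false (allB f n) (f n) := rfl
    rw [h1] at h
    cases h2 : f n with
    | false =>
      rw [h2] at h
      exact absurd h (by simp)
    | true =>
      rw [h2] at h
      intro i hi
      rcases Nat.lt_succ_iff_lt_or_eq.1 hi with h3 | h3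
      · exact ih h i h3
      · rw [h3]
        exact h2

/-- the two members of `{a, b, a ^^^ b}` different from `u` (with multiplicity), the smaller one -/
def rem3 (a b u : ℕ) : ℕ :=
  if a = u then min b (a ^^^ b) else if b = u then min a (a ^^^ b) else min a b

/-- the table `rep` of the representatives (fields of `2 g` bits, `a + 2^g b`) fits to the table
`cls` -/
def tabTest (g m cls cb rep u w : ℕ) : Bool :=
  let c := clsAt cls cb g u w
  let ab := (rep >>> (2 * g * c)) % 2 ^ (2 * g)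
  let a := ab % 2 ^ g
  let b := ab >>> g
  decide (c < m) &&
    (decide (a = u ∧ b = w) || decide (a = w ∧ b = u) || decide (a = u ∧ b = u ^^^ w) ||
      decide (a = u ^^^ w ∧ b = u) || decide (a = w ∧ b = u ^^^ w) ||
      decide (a = u ^^^ w ∧ b = w)) &&
    (decide (u ^^^ w < w) || decide (rem3 a b u = w))

/-- the table check -/
noncomputable def tabOK (g m cls cb rep : ℕ) : Bool :=
  allB (fun u => allB (fun w => tabTest g m cls cb rep u w) (2 ^ g)) (2 ^ g)

section sound

variable {k : Type u} [Field k] {g t m cls cb rep : ℕ} {γ : ℕ → ℕ → k}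

/-- the value at the representative of a class -/
def xOf (g rep : ℕ) (γ : ℕ → ℕ → k) (c : ℕ) : k :=
  γ ((rep >>> (2 * g * c)) % 2 ^ (2 * g) % 2 ^ g) (((rep >>> (2 * g * c)) % 2 ^ (2 * g)) >>> g)

lemma tab_spec (h : tabOK g m cls cb rep = true) {u w : ℕ} (hu : u < 2 ^ g) (hw : w < 2 ^ g) :
    tabTest g m cls cb rep u w = true :=
  allB_spec (allB_spec h u hu) w hw

lemma cls_lt (h : tabOK g m cls cb rep = true) {u w : ℕ} (hu : u < 2 ^ g) (hw : w < 2 ^ g) :
    clsAt cls cb g u w < m := by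
  have h1 := tab_spec h hu hw
  unfold tabTest at h1
  simp only [Bool.and_eq_true, decide_eq_true_eq] at h1
  exact h1.1.1

lemma xOf_cls (hγ : IsSig k g γ) (h : tabOK g m cls cb rep = true) {u w : ℕ} (hu : u < 2 ^ g)
    (hw : w < 2 ^ g) : xOf g rep γ (clsAt cls cb g u w) = γ u w := by
  have h1 := tab_spec h hu hw
  unfold tabTest at h1
  simp only [Bool.and_eq_true, Bool.or_eq_true, decide_eq_true_eq] at h1
  have hx : u ^^^ w < 2 ^ g := Nat.xor_lt_two_pow hu hw
  have e1 : γ u w = γ w u := hγ.s1 u w hu hw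
  have e2 : γ u w = γ u (u ^^^ w) := hγ.s2 u w hu hw
  have e3 : γ (u ^^^ w) u = γ u (u ^^^ w) := hγ.s1 _ _ hx hu
  have e4 : γ w u = γ w (w ^^^ u) := hγ.s2 w u hw hu
  have e5 : γ (u ^^^ w) w = γ w (u ^^^ w) := hγ.s1 _ _ hx hw
  rw [Nat.xor_comm w u] at e4
  unfold xOf
  rcases h1.1.2 with ((((hh | hh) | hh) | hh) | hh) | hh
  · rw [hh.1, hh.2]
  · rw [hh.1, hh.2, e1]
  · rw [hh.1, hh.2, ← e2]
  · rw [hh.1, hh.2, e3, ← e2]
  · rw [hh.1, hh.2, ← e4, ← e1]
  · rw [hh.1, hh.2, e5, ← e4, ← e1]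

lemma cls_inj (h : tabOK g m cls cb rep = true) {u w w' : ℕ} (hu : u < 2 ^ g) (hw : w < 2 ^ g)
    (hw' : w' < 2 ^ g) (h1 : w ≤ u ^^^ w) (h2 : w' ≤ u ^^^ w')
    (he : clsAt cls cb g u w = clsAt cls cb g u w') : w = w' := by
  have a1 := tab_spec h hu hw
  have a2 := tab_spec h hu hw'
  unfold tabTest at a1 a2
  simp only [Bool.and_eq_true, Bool.or_eq_true, decide_eq_true_eq] at a1 a2
  have b1 := a1.2.resolve_left (by omega)
  have b2 := a2.2.resolve_left (by omega)
  rw [he] at b1
  exact b1.symm.trans b2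

lemma rowR_sound (hγ : IsSig k g γ) (h : tabOK g m cls cb rep = true) {u v : ℕ}
    (hu : u < 2 ^ g) (n : ℕ) :
    n ≤ 2 ^ g → ∀ (acc : ℕ) (p : ℕ → ℕ), acc = ds t m p → (∀ c < m, p c ≤ 2) →
      (∀ w < n, w ≤ u ^^^ w → p (clsAt cls cb g u w) = 1) →
      ∃ p' : ℕ → ℕ, rowR g t cls cb u v n acc = ds t m p' ∧ (∀ c < m, p' c ≤ 2) ∧
        ∑ c ∈ range m, ((p' c : k) - 1) * xOf g rep γ c =
          ∑ c ∈ range m, ((p c : k) - 1) * xOf g rep γ c +
            ∑ w ∈ (range n).filter (fun w => w ≤ u ^^^ w), sg k v w * γ u w := by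
  induction n with
  | zero =>
    intro _ acc p hp hp2 _
    exact ⟨p, hp, hp2, by simp⟩
  | succ n ih =>
    intro hn acc p hp hp2 hp1
    have hn' : n < 2 ^ g := by omega
    have e1 : rowR g t cls cb u v (n + 1) acc = rowR g t cls cb u v n
        (Bool.rec acc (Bool.rec (acc - 2 ^ (t * clsAt cls cb g u n))
          (acc + 2 ^ (t * clsAt cls cb g u n)) (evp v n)) (Nat.ble n (Nat.xor u n))) := rfl
    rw [e1]
    cases hb : Nat.ble n (Nat.xor u n) with
    | false =>
      have hb' : ¬ n ≤ u ^^^ n := by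
        intro hle
        have := Nat.ble_eq_true_of_le hle
        rw [show Nat.ble n (u ^^^ n) = Nat.ble n (Nat.xor u n) from rfl, hb] at this
        exact absurd this (by simp)
      obtain ⟨p', q1, q2, q3⟩ := ih (by omega) acc p hp hp2 (fun w hw => hp1 w (by omega))
      refine ⟨p', q1, q2, ?_⟩
      rw [q3, range_add_one, filter_insert, if_neg hb']
    | true =>
      have hb' : n ≤ u ^^^ n := Nat.le_of_ble_eq_true hb
      set c0 := clsAt cls cb g u n with hc0
      have hc0m : c0 < m := cls_lt h hu hn'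
      have hpc0 : p c0 = 1 := hp1 n (by omega) hb'
      have hne : ∀ w < n, w ≤ u ^^^ w → clsAt cls cb g u w ≠ c0 := by
        intro w hw hw1 he
        have := cls_inj h hu (by omega : w < 2 ^ g) hn' hw1 hb' he
        omega
      -- both cases
      have key : ∀ (δ : ℕ) (s : k) (acc' : ℕ), δ ≤ 2 → ((δ : k) - 1 = s) →
          acc' = ds t m (fun c => if c = c0 then δ else p c) → s = sg k v n →
          ∃ p' : ℕ → ℕ, rowR g t cls cb u v n acc' = ds t m p' ∧ (∀ c < m, p' c ≤ 2) ∧
            ∑ c ∈ range m, ((p' c : k) - 1) * xOf g rep γ c =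
              ∑ c ∈ range m, ((p c : k) - 1) * xOf g rep γ c +
                ∑ w ∈ (range (n + 1)).filter (fun w => w ≤ u ^^^ w), sg k v w * γ u w := by
        intro δ s acc' hδ hs hacc hsg
        obtain ⟨p', q1, q2, q3⟩ := ih (by omega) acc' _ hacc
          (by
            intro c hc
            show (if c = c0 then δ else p c) ≤ 2
            split_ifs
            · exact hδ
            · exact hp2 c hc)
          (by
            intro w hw hw1
            show (if clsAt cls cb g u w = c0 then δ else p (clsAt cls cb g u w)) = 1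
            rw [if_neg (hne w hw hw1)]
            exact hp1 w (by omega) hw1)
        refine ⟨p', q1, q2, ?_⟩
        rw [q3, range_add_one, filter_insert, if_pos hb', sum_insert (by simp), ← add_assoc]
        congr 1
        have e2 : ∀ c ∈ range m, (((if c = c0 then δ else p c : ℕ) : k) - 1) * xOf g rep γ c =
            ((p c : k) - 1) * xOf g rep γ c + if c = c0 then s * xOf g rep γ c else 0 := by
          intro c _
          by_cases hcc : c = c0
          · rw [if_pos hcc, if_pos hcc, hcc, hpc0, ← hs]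
            push_cast
            ring
          · rw [if_neg hcc, if_neg hcc, add_zero]
        rw [sum_congr rfl e2, sum_add_distrib, sum_ite_eq' (range m) c0, if_pos (mem_range.2 hc0m),
          hc0, xOf_cls hγ h hu hn', hsg]
      have hds : ds t m p = ds t m (fun c => if c = c0 then 0 else p c) + 2 ^ (t * c0) := by
        rw [← ds_indicator hc0m, ds_add]
        apply ds_congr
        intro c _
        by_cases hcc : c = c0
        · simp [hcc, hpc0]
        · simp [hcc]
      have hds2 : ds t m (fun c => if c = c0 then 2 else p c) = ds t m p + 2 ^ (t * c0) := by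
        rw [← ds_indicator hc0m, ds_add]
        apply ds_congr
        intro c _
        by_cases hcc : c = c0
        · simp [hcc, hpc0]
        · simp [hcc]
      cases hev : evp v n with
      | false =>
        refine key 0 (-1) _ (by omega) (by push_cast; ring) ?_ (by
          unfold sg
          rw [hev]
          simp)
        show acc - 2 ^ (t * c0) = _
        rw [hp, hds]
        exact Nat.add_sub_cancel _ _
      | true =>
        refine key 2 1 _ (by omega) (by push_cast; ring) ?_ (by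
          unfold sg
          rw [hev]
          simp)
        show acc + 2 ^ (t * c0) = _
        rw [hp, hds2]

/-- multiplicativity of the sign -/
lemma evp_xor (a b : ℕ) (ha : a < 64) (hb : b < 64) :
    Nat.beq 0 (Nat.land (Nat.shiftRight 0x6996966996696996 (a ^^^ b)) 1) =
      (Nat.beq 0 (Nat.land (Nat.shiftRight 0x6996966996696996 a) 1) ==
        Nat.beq 0 (Nat.land (Nat.shiftRight 0x6996966996696996 b) 1)) := by
  have h : ∀ a < 64, ∀ b < 64,
    Nat.beq 0 (Nat.land (Nat.shiftRight 0x6996966996696996 (a ^^^ b)) 1) =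
      (Nat.beq 0 (Nat.land (Nat.shiftRight 0x6996966996696996 a) 1) ==
        Nat.beq 0 (Nat.land (Nat.shiftRight 0x6996966996696996 b) 1)) := by
    decide +kernel
  exact h a ha b hb

lemma sg_xor {u v w : ℕ} (hg : g ≤ 6) (hu : u < 2 ^ g) (hw : w < 2 ^ g) (h : evp u v = true) :
    sg k v (u ^^^ w) = sg k v w := by
  have h64 : 2 ^ g ≤ 64 := by
    calc 2 ^ g ≤ 2 ^ 6 := Nat.pow_le_pow_right (by norm_num) hg
      _ = 64 := by norm_num
  have h1 : v &&& u < 64 := lt_of_le_of_lt Nat.and_le_right (by omega)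
  have h2 : v &&& w < 64 := lt_of_le_of_lt Nat.and_le_right (by omega)
  have h3 : evp v (u ^^^ w) = evp v w := by
    unfold evp
    have e1 : Nat.land v (u ^^^ w) = (v &&& u) ^^^ (v &&& w) := Nat.and_xor_distrib_left
    rw [e1, evp_xor _ _ h1 h2]
    unfold evp at h
    have e2 : Nat.land u v = v &&& u := Nat.and_comm u v
    rw [e2] at h
    rw [h]
    show (true == Nat.beq 0 (Nat.land (Nat.shiftRight 0x6996966996696996 (v &&& w)) 1)) = _
    rw [Bool.beq_eq_decide_eq]
    cases Nat.beq 0 (Nat.land (Nat.shiftRight 0x6996966996696996 (v &&& w)) 1) <;> rfl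
  unfold sg
  rw [h3]

lemma trf_half (h2 : (2 : k) ≠ 0) (hγ : IsSig k g γ) (hg : g ≤ 6) {u v : ℕ} (hu : u < 2 ^ g)
    (h : evp u v = true) (h0 : trf k g γ u v = 0) :
    ∑ w ∈ (range (2 ^ g)).filter (fun w => w ≤ u ^^^ w), sg k v w * γ u w = 0 := by
  by_cases hu0 : u = 0
  · subst hu0
    have : (range (2 ^ g)).filter (fun w => w ≤ 0 ^^^ w) = range (2 ^ g) := by
      apply filter_true_of_mem
      intro w _
      simp
    rw [this]
    exact h0
  · have hne : ∀ w, u ^^^ w ≠ w := by
      intro w hw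
      apply hu0
      have := congrArg (fun z => z ^^^ w) hw
      simpa [Nat.xor_assoc] using this
    have h1 : ∑ w ∈ (range (2 ^ g)).filter (fun w => ¬ w ≤ u ^^^ w), sg k v w * γ u w =
        ∑ w ∈ (range (2 ^ g)).filter (fun w => w ≤ u ^^^ w), sg k v w * γ u w := by
      apply sum_bij' (fun w _ => u ^^^ w) (fun w _ => u ^^^ w)
      · intro w hw
        rw [mem_filter, mem_range] at hw ⊢
        refine ⟨Nat.xor_lt_two_pow hu hw.1, ?_⟩
        rw [← Nat.xor_assoc, Nat.xor_self, Nat.zero_xor]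
        omega
      · intro w hw
        rw [mem_filter, mem_range] at hw ⊢
        refine ⟨Nat.xor_lt_two_pow hu hw.1, ?_⟩
        rw [← Nat.xor_assoc, Nat.xor_self, Nat.zero_xor]
        have := hne w
        omega
      · intro w _
        rw [← Nat.xor_assoc, Nat.xor_self, Nat.zero_xor]
      · intro w _
        rw [← Nat.xor_assoc, Nat.xor_self, Nat.zero_xor]
      · intro w hw
        rw [mem_filter, mem_range] at hw
        rw [sg_xor hg hu hw.1 h, ← hγ.s2 u w hu hw.1]
    have h3 : trf k g γ u v =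
        2 * ∑ w ∈ (range (2 ^ g)).filter (fun w => w ≤ u ^^^ w), sg k v w * γ u w := by
      unfold trf
      rw [← sum_filter_add_sum_filter_not (range (2 ^ g)) (fun w => w ≤ u ^^^ w), h1]
      ring
    rw [h3] at h0
    exact (mul_eq_zero.1 h0).resolve_left h2

/-- the rows are good -/
theorem rowZ_good (h2 : (2 : k) ≠ 0) (hγ : IsSig k g γ) (hg : g ≤ 6)
    (h : tabOK g m cls cb rep = true) {fl Z : ℕ} (hfl : fl = ds t m (fun _ => 1))
    (hZ : ∀ u v, u < 2 ^ g → (Z >>> (u + 2 ^ g * v)) &&& 1 = 1 → evp u v = true →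
      trf k g γ u v = 0) (j : ℕ) :
    Good t m (xOf g rep γ) 1 (rowZ g t cls fl cb Z j) := by
  have e1 : rowZ g t cls fl cb Z j = Bool.rec fl
    (Bool.rec fl (rowR g t cls cb (j % 2 ^ g) (j >>> g) (2 ^ g) fl) (evp (j % 2 ^ g) (j >>> g)))
    (Nat.beq ((Z >>> j) &&& 1) 1) := rfl
  rw [e1]
  have hfull : Good t m (xOf g rep γ) 1 fl := by
    rw [hfl]
    exact good_full
  cases hb : Nat.beq ((Z >>> j) &&& 1) 1 with
  | false => exact hfull
  | true =>
    cases hev : evp (j % 2 ^ g) (j >>> g) with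
    | false => exact hfull
    | true =>
      have hu : j % 2 ^ g < 2 ^ g := Nat.mod_lt _ (by positivity)
      obtain ⟨p', q1, q2, q3⟩ := rowR_sound (t := t) (v := j >>> g) hγ h hu (2 ^ g) le_rfl fl
        (fun _ => 1) hfl (fun _ _ => by norm_num) (fun _ _ _ => rfl)
      refine ⟨p', q1, fun c hc => by simpa using q2 c hc, ?_⟩
      have hj : j % 2 ^ g + 2 ^ g * (j >>> g) = j := by
        rw [Nat.shiftRight_eq_div_pow]
        exact Nat.mod_add_div j (2 ^ g)
      have h0 := hZ (j % 2 ^ g) (j >>> g) hu (by rw [hj]; exact Nat.eq_of_beq_eq_true hb) hev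
      rw [trf_half h2 hγ hg hu hev h0] at q3
      simpa using q3

theorem rowJ_good (h2 : (2 : k) ≠ 0) (hγ : IsSig k g γ) (hg : g ≤ 6)
    (h : tabOK g m cls cb rep = true) {fl Z j0 c0 : ℕ} (hfl : fl = ds t m (fun _ => 1))
    (hZ : ∀ u v, u < 2 ^ g → (Z >>> (u + 2 ^ g * v)) &&& 1 = 1 → evp u v = true →
      trf k g γ u v = 0) (hc0 : c0 < m) (hx0 : xOf g rep γ c0 = 0) (j : ℕ) :
    Good t m (xOf g rep γ) 1 (rowJ g t cls fl cb Z j0 c0 j) := by
  have e1 : rowJ g t cls fl cb Z j0 c0 j = Bool.rec (rowZ g t cls fl cb Z j)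
    (fl + 2 ^ (t * c0)) (Nat.beq j j0) := rfl
  rw [e1]
  cases Nat.beq j j0 with
  | false => exact rowZ_good h2 hγ hg h hfl hZ j
  | true =>
    show Good t m (xOf g rep γ) 1 (fl + 2 ^ (t * c0))
    rw [hfl]
    exact good_unit hc0 hx0

/-- the number with `m` digits `1` -/
def fullN (m t : ℕ) : ℕ := Nat.div (Nat.sub (Nat.pow 2 (Nat.mul m t)) 1) (Nat.sub (Nat.pow 2 t) 1)

/-- the complete check with the unit row of the class of `m0` -/
noncomputable def checkJ (g t m cls cb Z j0 u0 w0 jb mb : ℕ) (l : List ℕ) : Bool :=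
  chk (mkT (rowJ g t cls (fullN m t) cb Z j0 (clsAt cls cb g u0 w0)) (Nat.mul 2 g) 0 1) 1
    (Nat.mul 2 (fullN m t)) jb mb t m (fullN m t) l 0

/-- **The engine.**  If the certificate `l` passes the check, then a sigma table over a field of
characteristic `≠ 2` whose transforms vanish at the points of `Z` and which vanishes at
`(u0, w0)` is zero. -/
theorem checkJ_sound (h2 : (2 : k) ≠ 0) (hγ : IsSig k g γ) (hg : g ≤ 6) (ht : 1 ≤ t)
    (h : tabOK g m cls cb rep = true) {Z j0 u0 w0 jb mb : ℕ} {l : List ℕ}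
    (hu0 : u0 < 2 ^ g) (hw0 : w0 < 2 ^ g)
    (hchk : checkJ g t m cls cb Z j0 u0 w0 jb mb l = true)
    (hZ : ∀ u v, u < 2 ^ g → (Z >>> (u + 2 ^ g * v)) &&& 1 = 1 → evp u v = true →
      trf k g γ u v = 0) (h0 : γ u0 w0 = 0) :
    ∀ u w, u < 2 ^ g → w < 2 ^ g → γ u w = 0 := by
  have hfl : fullN m t = ds t m (fun _ => 1) := (ds_one t m ht).symm
  have hx : ∀ c < m, xOf g rep γ c = 0 := by
    apply chk_full h2 ht (T := mkT (rowJ g t cls (fullN m t) cb Z j0 (clsAt cls cb g u0 w0))
      (2 * g) 0 1) (H := 1) (f2 := 2 * fullN m t) (jb := jb) (mb := mb) (l := l)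
    · intro j
      obtain ⟨i, hi⟩ := getT_mkT (rowJ g t cls (fullN m t) cb Z j0 (clsAt cls cb g u0 w0))
        (2 * g) 0 1 j
      rw [hi]
      exact rowJ_good h2 hγ hg h hfl hZ (cls_lt h hu0 hw0) (by rw [xOf_cls hγ h hu0 hw0, h0]) i
    · rw [hfl]
    · rw [← hfl]
      exact hchk
  intro u w hu hw
  rw [← xOf_cls hγ h hu hw]
  exact hx _ (cls_lt h hu hw)

end sound

end Helper47.RK
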