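import Pool.Agent.Helper47.RK.Row

/-!
# Project RG/RA (MP_16b052_ag), kernel engine: the class tables for `g = 5`
-/

namespace Helper47.RK

/-- class numbers, 8 bits, position `u + 32 w` -/
def cls5 : ℕ := 0x1f2e3c4956616c77828990979ea5acb3b3aca59e97908982776c6156493c2e1f2e1e4a3b6255786b8a81988fa69db4abb4aba69d988f8a81786b62554a3b2e1e3c4a1d2d6e79545f92998087aeb59ca3b5aea39c99928780796e5f544a3c2d1d493b2d1c7a6d60539a91887fb6ada49bb6ada49b9a91887f7a6d6053493b2d1c56626e7a1b2c3a47a2a9b0b77e858c93b7b0a9a2938c857e7a6e6256473a2c1b6155796d2c1a4839aaa1b8af867d948bb8afaaa1948b867d796d615548392c1a6c7854603a48192bb2b9a0a78e957c83b9b2a7a0958e837c786c6054483a2b19776b5f5347392b18bab1a89f968d847bbab1a89f968d847b776b5f5347392b18828a929aa2aab2ba172a3845525d6873bab2aaa29a928a8273685d5245382a1789819991a9a1b9b12a1646375e517467b9b1a9a19991898174675e5146372a1690988088b0b8a0a8384615296a75505bb8b0a8a098908880756a5b5046382915978f877fb7afa79f4537291476695c4fb7afa79f978f877f76695c4f453729149ea6aeb67e868e96525e6a7613283643b6aea6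9e968e867e766a5e5243362813a59db5ad857d958d5d51756928124435b5ada59d958d857d75695d5144352812acb49ca48c947c846874505c36441127b4aca49c948c847c74685c5044362711b3aba39b938b837b73675b4f43352710b3aba39b938b837b73675b4f43352710b3b4b5b6b7b8b9babab9b8b7b6b5b4b30f2634414e59646f6f64594e4134260facabaeadb0afb2b1b2b1b0afaeadacab260e42335a4d706370635a4d4233260ea5a6a3a4a9aaa7a8aaa9a8a7a6a5a4a334420d2566714c577166574c4234250d9e9d9c9ba2a1a09fa2a1a09f9e9d9c9b4133250c7265584b7265584b4133250c9798999a939495969a999897969594934e5a66720b24323f72665a4e3f32240b908f92918c8b8e8d9291908f8e8d8c8b594d7165240a40317165594d4031240a898a8788858683848a8988878685848364704c58324009237064584c403223098281807f7e7d7c7b8281807f7e7d7c7b6f63574b3f3123086f63574b3f3123087778797a7a79787773747576767574736f7071727271706f0722303d3d3022076c6b6e6d6e6d6c6b68676a696a696867646366656665646322063e2f3e2f220661625f606261605f5d5e5b5c5e5d5c5b595a57585a595857303e05213e30210556555453565554535251504f5251504f4e4d4c4b4e4d4c4b3d2f21043d2f2104494a4a49474848474546464543444443414242413f40403f3d3e3e3d032020033c3b3c3b3a393a3938373837363536353433343332313231302f302f200220022e2e2d2d2c2c2b2b2a2a292928282727262625252424232322222121202001011f1e1d1c1b1a191817161514131211100f0e0d0c0b0a09080706050403020100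

/-- representatives `a + 32 b`, 10 bits -/
def rep5 : ℕ := 0x2efb3eafa3e6f93e2f83eeeb3aaea3a6e93a2e83aedb36ada366d9362d836ecb32aca326c9322c832ebb2eaba2e6b92e2b82eeab2aaaa2a6a92a2a82ae9b26a9a266992629826e8b22a8a22689222882367d1f27c1e6791e2781d6751d2741f66d1b26c1a6691a26819665192641b65d1725c166591625815655152541764d1324c1264912248116451124413a3e0f23c0ea3a0e2380da360d2340ca320fa2e0b22c0aa2a0a22809a260922408a220bc1e0741c06c1a0641805c160541404c120441f83c0e8380d8340c8300b82c0a82809824088200781c0681805814048100380c0280801804008000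

theorem tab5 : tabOK 5 187 cls5 8 rep5 = true := by decide +kernel

end Helper47.RK
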