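import Pool.Agent.Helper47.RK.Brg6

/-!
# Project RG/RA (MP_16b052_ag): condition `(A)`, the support of the word
-/

namespace Helper47.RK

/-- the support of the word -/
def ZA : ℕ := 0x86284104281202611800412041382400020124000048028460020e100a90000122081160802664008002008c2080880182401102400a801000561100810000d1400114861680002003000c100004c0c000051000100a81800a04205090d00006818100260660181131000c848448012010418022a2205440618c00000000808500002006146080000118011018822c00241004504024180105000000100020009160802400810418004020844810001305000500804180051500e40000150026800200022040414028182034014002424850520aa0010485b00010000303000c20202266011191104800c0c4033200320802000a4044501000000000208e04082010904000060441400c00824218100085181a81045002000180000c025040060820421810042089020c440302c000004120a80040002001440000194800003300006040069009201c14420020280340100285805018000410800309e0c0000f020400080002081180400020c8c830018820510020084000000083390000a2a1924100011669100110c108420001184148a10a2002254084c000a0059006200522982608068024108800003148010031200508500004000000e6008900a000a008402021082909488242020000830140a0040184a124052000010100080b0002190098098981001122101023000113114004104505504004311fc87a10e280d8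

theorem ZA_lt : Nat.log2 ZA < 4096 := by decide +kernel

theorem ZA_ok : zTestA ZA = true := by decide +kernel

end Helper47.RK
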