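import Pool.Agent.Helper47.RK.Brg6

/-!
# Project RG/RA (MP_16b052_ag): the zeros of the word with `q = 1`
-/

namespace Helper47.RK

/-- the zeros of the word with `q = 1` -/
def ZB : ℕ := 0x104128924184940824c3821c820418c358a4815aa5125821900d01e00560f00e44918806194002994c313340134c4432281544a815a02a4500a9ee007e00002e2968821080166949c0c3302c3c380303a5a04a5a4a502425050bd0a060200f0918186640600681880233c0484884321345142a88088a01159e73000000007f7a6996499082091669c224c22c244110c3814aa10a1a8142a40af00ff0e00fd00f0806194266186281338c13488423cc2050aa50aa2a142a50ea001b0000ea00d9169496944929282914241c08c283c181120a085005a4a12040f0e0f00c0c0f03464644009888088984cc0c0830013301a2a8aaa01511054500000000df71fbf7498606296990922883303c4181242cc320424024a10a58a50e70f0030da0b009914624818962461031c08830310ccc33148a025515aa8a54bb0000e6b70000cc9696092990066049202881c31c14c0834a5820250a42a5a1e0700c0610300f0064629991666491884c8c331304040332228a04558aa2155500007cc600005d5e04289668800086682c0234813cc224821204508558801a21300f500a6009d00a44014091601942894433cc028432cc028a50a205aa51aa5500190076005f005f61294948614060214181c1c3c340c28305a1a4210481a0850f0e0e0f07040f0d809901901018998811232310333220221551451050051551cee03785ef1d7f27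

theorem ZB_lt : Nat.log2 ZB < 4096 := by decide +kernel

theorem ZB_ok : zTestB ZB = true := by decide +kernel

theorem ZB_s : sTest [] 26 39 2 = true := by decide +kernel

end Helper47.RK
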